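import Pool.Agent.Z15.ME.Stm2

set_option autoImplicit false

/-!
# Self maps of the plane of degree `d = 3 k + 1`, `k ≥ 2`: statements

Part A. The field `M = K(f)` of the generic self map is `K(f₀, X, Y, H, Z)` with algebraically independent generators, where
`f₀` is the part without divergence, `X`, `Y` are matrices which transform by conjugation, `H` transforms by `det^k`, and the `Z` are
invariant (covariant linear forms in the divergence, as in project ME, and the no-name lemma).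

Part B. The invariants of `K(f₀, X, Y, H, Z)` (structure `DZ`). Let `l 0, l 1, l 2` be the eigenvalues of `X`, and `B` the matrix of
eigenvectors, normalised by `Ŷ₁₀ = Ŷ₂₀ = 1` (`Ŷ = B⁻¹ Y B`) and `det(B)^k = H`. Then `f̂ = B⁻¹ f₀ B` and `Ŷ` are in `M(l)`, which is a
Galois extension of `M` with the group `S₃`, and the invariants of `M` are in `K(l, Ŷ, f̂, Z)`. By Galois descent the invariants
are `K(e, w, Z)`, where `e` are ten generators of the invariants of two matrices (Formanek), and `w` are `dim` elements.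
-/

namespace Pool.Agent.Z15.MH

open MvPolynomial Matrix Pool.Agent.Z15.ME

/-! ## Part A -/

/-- a representation of `GL_{N+1}`, trivial on the scalars `z` with `z^m = 1` -/
structure Rp (N m : ℕ) (s : Type) [Fintype s] [DecidableEq s] where
  T : ∀ (R : Type) [CommRing R], Matrix (Fin (N + 1)) (Fin (N + 1)) R → Matrix (Fin (N + 1)) (Fin (N + 1)) R → Matrix s s R
  nat : ∀ (R S : Type) [CommRing R] [CommRing S] (σ : R →+* S) (A A' : Matrix (Fin (N + 1)) (Fin (N + 1)) R),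
    T S (A.map σ) (A'.map σ) = (T R A A').map σ
  one : ∀ (R : Type) [CommRing R], T R 1 1 = 1
  mul : ∀ (R : Type) [CommRing R] (A A' B B' : Matrix (Fin (N + 1)) (Fin (N + 1)) R), A * A' = 1 → B * B' = 1 →
    T R (A * B) (B' * A') = T R A A' * T R B B'
  scal : ∀ (R : Type) [CommRing R] (z z' : R), z * z' = 1 → z ^ m = 1 →
    T R (z • (1 : Matrix (Fin (N + 1)) (Fin (N + 1)) R)) (z' • (1 : Matrix (Fin (N + 1)) (Fin (N + 1)) R)) = 1

/-- the linear forms `∑ c i β v β` transform by the representation `P` -/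
def CovT {N m : ℕ} {s : Type} [Fintype s] [DecidableEq s] (P : Rp N m s) {K M : Type} [Field K] [Field M] [Algebra K M]
    (φ : GP N K → M →ₐ[K] M) (c : s → Mon (N + 1) m → M) : Prop :=
  ∀ (g : GP N K) (v : Mon (N + 1) m → M) (i : s), ∑ β, φ g (c i β) * act1 (ext M g.1.2) v β =
    ∑ k, P.T M (ext M g.1.1) (ext M g.1.2) i k * ∑ β, c k β * v β

/-- (GLX) adapt `T_GLW.lean` of ME (automorphisms of `Ω` over the right hand side take `B` to `z B`, `z^m = 1`; so they fix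
`act1 B _ _` and `P.T Ω B B'` (`mul`, `scal`, `nat`)). -/
def S_GLX : Prop := ∀ (N m : ℕ) (s : Type) [Fintype s] [DecidableEq s] (P : Rp N m s), 2 ≤ N → 2 ≤ m →
  ∀ (K Ω : Type) [Field K] [CharZero K] [Field Ω] [Algebra K Ω] [IsAlgClosed Ω] (f : Ix N m → Ω), Gen N m K Ω f →
  Algebra.IsAlgebraic (IntermediateField.adjoin K (Set.range f)) Ω →
  ∀ B B' : Matrix (Fin (N + 1)) (Fin (N + 1)) Ω, B * B' = 1 → (∀ i, Fx f (fun k => B k i)) →
  ∀ (i j : s) (α β : Mon (N + 1) m),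
    act1 B (Pi.single β 1) α * P.T Ω B B' i j ∈ IntermediateField.adjoin K (Set.range f ∪ Set.range (act B' B f))

/-- (SPX) adapt `SpcA.lean` and `T_SPC.lean` of ME: rows `trace (e * act1 B (single β) α * P.T B B' i j)`, the matrix
`b (j, α) (i, β) = act1 B (single β) α * P.T B B' i j` is a Kronecker product with nonzero determinant. -/
def S_SPX : Prop := ∀ (N m : ℕ) (s : Type) [Fintype s] [DecidableEq s] (P : Rp N m s), 2 ≤ N → 2 ≤ m →
  ∀ (K F : Type) [Field K] [CharZero K] [Field F] [Algebra K F] (f : Ix N m → F), Gen N m K F f →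
  IntermediateField.adjoin K (Set.range f) = ⊤ → ∀ φ : GP N K → F →ₐ[K] F, Acts N (m + 1) φ f →
  Submodule.span F {c : s → Mon (N + 1) m → F | CovT P φ c} = ⊤

/-- (SLG) selection: adapt `T_SEL.lean` of ME (the same proof with several blocks of rows). -/
def S_SLG : Prop := ∀ (K F : Type) [Field K] [Infinite K] [Field F] [Algebra K F] (τ : Type) [Fintype τ] [DecidableEq τ]
  (s : τ → Type) [∀ t, Fintype (s t)] [∀ t, DecidableEq (s t)] (J : Type) [Fintype J]
  (𝒞 : ∀ t, Submodule K (s t → J → F)), (∀ t, Submodule.span F (𝒞 t : Set (s t → J → F)) = ⊤) →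
  Fintype.card (Σ t, s t) ≤ Fintype.card J →
  ∃ c : ∀ t, s t → J → F, (∀ t, c t ∈ 𝒞 t) ∧ LinearIndependent F (fun p : Σ t, s t => (c p.1 p.2 : J → F))

/-- (AIZ) the generic self map is the sum of a generic self map without divergence and of an independent divergence: copy
`T_AIV.lean` of ME (there for `D : Data`; only `D.f`, `D.ind`, `D.hφ` are used) and the lemmas of `T_FIN.lean`. -/
def S_AIZ : Prop := ∀ (N m : ℕ), 2 ≤ N → 1 ≤ m → ∀ (K M : Type) [Field K] [CharZero K] [Field M] [Algebra K M] (f : Ix N m → M),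
  AlgebraicIndependent K f → ∀ φ : GP N K → M →ₐ[K] M, Acts N (m + 1) φ f →
  Gen N m K M (part2 f) ∧ AlgebraicIndependent (IntermediateField.adjoin K (Set.range (part2 f))) (dv f) ∧
  Acts N (m + 1) φ (part2 f) ∧ ∀ g β, φ g (dv f β) = act1 (ext M g.1.2) (dv f) β

/-! ## Part B: the structure -/

/-- the index set of the generators -/
abbrev IZ (k r : ℕ) : Type := J2 2 (3 * k) ⊕ (Fin 3 × Fin 3) ⊕ (Fin 3 × Fin 3) ⊕ Unit ⊕ Fin r

/-- the generators: the coordinates of `f₀`, `X`, `Y`, `H`, `Z` -/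
def coo {k r : ℕ} {M : Type} (f : Ix 2 (3 * k) → M) (X Y : Matrix (Fin 3) (Fin 3) M) (H : M) (Z : Fin r → M) : IZ k r → M :=
  Sum.elim (fun j => f j.1) (Sum.elim (fun p => X p.1 p.2) (Sum.elim (fun p => Y p.1 p.2) (Sum.elim (fun _ => H) Z)))

/-- the field generated by a generic self map without divergence, two matrices, a scalar and invariants, with the action -/
structure DZ (k r : ℕ) (K M : Type) [Field K] [CharZero K] [Field M] [Algebra K M] where
  hk : 1 ≤ k
  f : Ix 2 (3 * k) → M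
  X : Matrix (Fin 3) (Fin 3) M
  Y : Matrix (Fin 3) (Fin 3) M
  H : M
  Z : Fin r → M
  div : dv f = 0
  ind : AlgebraicIndependent K (coo f X Y H Z)
  gen : IntermediateField.adjoin K (Set.range (coo f X Y H Z)) = ⊤
  φ : GP 2 K → M →ₐ[K] M
  hf : Acts 2 (3 * k + 1) φ f
  hX : ∀ g : GP 2 K, X.map (φ g) = ext M g.1.1 * X * ext M g.1.2
  hY : ∀ g : GP 2 K, Y.map (φ g) = ext M g.1.1 * Y * ext M g.1.2
  hH : ∀ g : GP 2 K, φ g H = algebraMap K M g.1.1.det ^ k * H
  hZ : ∀ (g : GP 2 K) (t : Fin r), φ g (Z t) = Z t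

/-- (FIA) the covariant rows for the generic self map.

Proof. `m = 3 k ≥ 6`, so `card (Mon 3 m) = (m+1)(m+2)/2 ≥ 28`; `r = card (Mon 3 m) - 19`. Let `F = K(part2 f)`; `φ g` restricts to `F` (AIZ: `Acts`
for `part2 f`). SPX for `F` and the representations `(i,j),(k,l) ↦ A i k * A' l j` (index `Fin 3 × Fin 3`; for `X` and `Y`), `det^k` (index `Unit`;
`z^{3k} = 1`) and the trivial one (index `Unit`; `r` times) gives spanning sets (the covariant rows are `K`-submodules); SLG with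
`τ = Fin 3 ⊕ Fin r` (blocks of the sizes 9, 9, 1, and 1 for `Fin r`; `19 + r = card`) gives independent rows over `F`; they are independent over
`M` (a nonzero determinant), and CovT over `F` gives the formulas over `M` (linear in `v`: test the unit vectors `v`). -/
def S_FIA : Prop := ∀ k : ℕ, 2 ≤ k → ∀ (K M : Type) [Field K] [CharZero K] [Field M] [Algebra K M] (f : Ix 2 (3 * k) → M),
  AlgebraicIndependent K f → ∀ φ : GP 2 K → M →ₐ[K] M, Acts 2 (3 * k + 1) φ f →
  ∃ (r : ℕ) (cX cY : Fin 3 × Fin 3 → Mon 3 (3 * k) → M) (cH : Mon 3 (3 * k) → M) (cZ : Fin r → Mon 3 (3 * k) → M),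
    (∀ p β, cX p β ∈ IntermediateField.adjoin K (Set.range (part2 f))) ∧
    (∀ p β, cY p β ∈ IntermediateField.adjoin K (Set.range (part2 f))) ∧
    (∀ β, cH β ∈ IntermediateField.adjoin K (Set.range (part2 f))) ∧
    (∀ t β, cZ t β ∈ IntermediateField.adjoin K (Set.range (part2 f))) ∧
    (∀ (g : GP 2 K) (v : Mon 3 (3 * k) → M) (i j : Fin 3), ∑ β, φ g (cX (i, j) β) * act1 (ext M g.1.2) v β =
      ∑ a, ∑ b, ext M g.1.1 i a * (∑ β, cX (a, b) β * v β) * ext M g.1.2 b j) ∧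
    (∀ (g : GP 2 K) (v : Mon 3 (3 * k) → M) (i j : Fin 3), ∑ β, φ g (cY (i, j) β) * act1 (ext M g.1.2) v β =
      ∑ a, ∑ b, ext M g.1.1 i a * (∑ β, cY (a, b) β * v β) * ext M g.1.2 b j) ∧
    (∀ (g : GP 2 K) (v : Mon 3 (3 * k) → M), ∑ β, φ g (cH β) * act1 (ext M g.1.2) v β =
      algebraMap K M g.1.1.det ^ k * ∑ β, cH β * v β) ∧
    (∀ (g : GP 2 K) (v : Mon 3 (3 * k) → M) (t : Fin r), ∑ β, φ g (cZ t β) * act1 (ext M g.1.2) v β =
      ∑ β, cZ t β * v β) ∧
    r + 19 = Nat.card (Mon 3 (3 * k)) ∧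
    LinearIndependent M (Sum.elim cX (Sum.elim cY (Sum.elim (fun _ : Unit => cH) cZ)))

/-- (FIZ) existence.

Proof. Take the rows of FIA and `D.f = part2 f`, `X i j = ∑ cX (i, j) β * dv f β`, `Y`, `H = ∑ cH β * dv f β`, `Z t = ∑ cZ t β * dv f β`. The values
are algebraically independent over `F = K(part2 f)` (`S_AIL` of ME, AIZ), and the coordinates `J2` of `part2 f` are algebraically
independent over `K` (Gen) and generate `F` (`S_SEC`); so `ind` (tower). The rows form a basis, so `dv f` is in the field generated by `F` and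
the values, and `f = part2 f + emb (dv f)/(3 + 3 k)`: `gen`. The transformation: the formulas of FIA with `v = dv f`,
`φ g (dv f β) = act1 (g') (dv f) β` (AIZ). `div`: `T_FIN` of ME (`dv_part2`). -/
def S_FIZ : Prop := ∀ k : ℕ, 2 ≤ k → ∀ (K M : Type) [Field K] [CharZero K] [Field M] [Algebra K M] (f : Ix 2 (3 * k) → M),
  AlgebraicIndependent K f → IntermediateField.adjoin K (Set.range f) = ⊤ →
  ∀ φ : GP 2 K → M →ₐ[K] M, Acts 2 (3 * k + 1) φ f → ∃ (r : ℕ) (D : DZ k r K M), D.φ = φ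

/-! ## Cubic polynomials -/

/-- the monic cubic polynomial `p` has the roots `l 0, l 1, l 2` -/
def Roots {M Ω : Type} [Field M] [Field Ω] [Algebra M Ω] (p : Polynomial M) (l : Fin 3 → Ω) : Prop :=
  p.map (algebraMap M Ω) = ∏ i, (Polynomial.X - Polynomial.C (l i))

/-- the six monomials -/
def mu {Ω : Type} [Field Ω] (l : Fin 3 → Ω) (a : Fin 3 × Fin 2) : Ω := l 0 ^ (a.1 : ℕ) * l 1 ^ (a.2 : ℕ)

/-- (IRD) the characteristic polynomial of a generic matrix has no root and its discriminant is no square.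

Proof. `M = K₁(X)` is the field of fractions of the polynomial ring `A = K₁[X_ij]` (a UFD, integrally closed;
`AlgebraicIndependent.aevalEquivField` or so). A root `x ∈ M` is integral over `A`, so in `A`; specialise `X` to the matrix
`!![0,0,t;1,0,0;0,1,0]` over `K₁[t]`, whose characteristic polynomial is `T³ - t`: so `t` would be a cube in `K₁[t]`. If
`δ = (l 0 - l 1)(l 1 - l 2)(l 2 - l 0)` is in `M`, then `δ²` is the discriminant, a polynomial in `X` (in the coefficients of the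
characteristic polynomial), `δ ∈ A`, and the same polynomial identity for the specialisation
`!![0,0,0;0,0,t;0,1,0]` (characteristic polynomial `T³ - t T`, discriminant `4 t³`) makes `4 t³` a square in `K₁[t]`: contradiction. -/
def S_IRD : Prop := ∀ (K₁ M : Type) [Field K₁] [CharZero K₁] [Field M] [Algebra K₁ M] (X : Matrix (Fin 3) (Fin 3) M),
  AlgebraicIndependent K₁ (fun p : Fin 3 × Fin 3 => X p.1 p.2) →
  IntermediateField.adjoin K₁ (Set.range fun p : Fin 3 × Fin 3 => X p.1 p.2) = ⊤ →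
  (∀ x : M, X.charpoly.eval x ≠ 0) ∧ ∀ (Ω : Type) [Field Ω] [Algebra M Ω] (l : Fin 3 → Ω), Roots X.charpoly l →
    (l 0 - l 1) * (l 1 - l 2) * (l 2 - l 0) ∉ Set.range (algebraMap M Ω)

/-- (IN6) the six monomials are linearly independent.

Proof. `p` is irreducible (cubic without roots), so `[M(l 0) : M] = 3`. If `l 1 ∈ M(l 0)` then `l 2 = - (coefficient) - l 0 - l 1` and
`δ ∈ M(l 0)`, `δ² ∈ M` (symmetric), so the degree of `δ` over `M` divides 3 and is at most 2: `δ ∈ M`, contradiction. So `1, l 1` are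
independent over `M(l 0)` and `1, l 0, l 0²` over `M`. -/
def S_IN6 : Prop := ∀ (M Ω : Type) [Field M] [CharZero M] [Field Ω] [Algebra M Ω] (p : Polynomial M) (l : Fin 3 → Ω), Roots p l →
  (∀ x : M, p.eval x ≠ 0) → (l 0 - l 1) * (l 1 - l 2) * (l 2 - l 0) ∉ Set.range (algebraMap M Ω) →
  LinearIndependent M (mu l)

/-- (PRM) all permutations of the roots are realised.

Proof. `L = M(l)` is finite over `M` of degree at least 6, there are `[L : M]` embeddings of `L` into `Ω` over `M` (characteristic zero,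
`Ω` algebraically closed), an embedding permutes the roots and is determined by the permutation; so all `3! = 6` permutations
occur. Every embedding `L → Ω` extends to an automorphism of the algebraic extension `Ω`. -/
def S_PRM : Prop := ∀ (M Ω : Type) [Field M] [CharZero M] [Field Ω] [Algebra M Ω] [IsAlgClosed Ω] [Algebra.IsAlgebraic M Ω]
  (p : Polynomial M) (l : Fin 3 → Ω), Roots p l → LinearIndependent M (mu l) →
  ∀ π : Equiv.Perm (Fin 3), ∃ σ : Ω ≃ₐ[M] Ω, ∀ i, σ (l i) = l (π i)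

/-- (COF) coefficients from conjugates.

Proof. The six automorphisms `σ π` restrict to different embeddings of `L = M(l)`, which is spanned over `M` by the `mu l a` (`l 0` is a
root of a cubic polynomial over `M`, `l 1` of a quadratic one over `M(l 0)`, `l 2 = -c - l 0 - l 1`); so by the independence of
characters (`linearIndependent_monoidHom`) the `6 × 6` matrix `σ π (mu l a)`, with entries in `J`, is invertible. Solve
`σ π y = ∑ w a * σ π (mu l a)` for the `w a`. -/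
def S_COF : Prop := ∀ (K M Ω : Type) [Field K] [Field M] [CharZero M] [Field Ω] [Algebra K M] [Algebra M Ω] [Algebra K Ω]
  [IsScalarTower K M Ω] (p : Polynomial M) (l : Fin 3 → Ω), Roots p l → LinearIndependent M (mu l) →
  ∀ J : IntermediateField K Ω, (∀ i, l i ∈ J) → ∀ σ : Equiv.Perm (Fin 3) → (Ω ≃ₐ[M] Ω), (∀ π i, σ π (l i) = l (π i)) →
  ∀ (w : Fin 3 × Fin 2 → M) (a : Fin 3 × Fin 2), algebraMap M Ω (w a) ∈
    Submodule.span J (Set.range fun π : Equiv.Perm (Fin 3) => σ π (∑ b, algebraMap M Ω (w b) * mu l b))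

/-- (LAD) linear algebra over `N₀` and `J`.

Proof. Elements `v i` of `M` which are linearly independent over `N₀` are linearly independent over `J`: if `∑ y i * v i = 0`,
`y i = ∑ n i a * mu a`, then `∑_a (∑_i n i a * v i) * mu a = 0`, so `∑_i n i a * v i = 0` for all `a` (independence of `mu` over `M`), so
`n i a = 0`. So the span of `w` over `N₀` has dimension at most `d`; take a basis and zeros. -/
def S_LAD : Prop := ∀ (K M Ω : Type) [Field K] [Field M] [Field Ω] [Algebra K M] [Algebra M Ω] [Algebra K Ω]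
  [IsScalarTower K M Ω] (l : Fin 3 → Ω), LinearIndependent M (mu l) → ∀ (J : IntermediateField K Ω) (N₀ : IntermediateField K M),
  (∀ y ∈ J, ∃ n : Fin 3 × Fin 2 → N₀, y = ∑ a, algebraMap M Ω (n a) * mu l a) →
  ∀ (d : ℕ) (z : Fin d → Ω) (I : Type) [Finite I] (w : I → M),
    (∀ i, algebraMap M Ω (w i) ∈ Submodule.span J (Set.range z)) →
    ∃ v : Fin d → M, (∀ i, v i ∈ Submodule.span N₀ (Set.range w)) ∧ ∀ i, w i ∈ Submodule.span N₀ (Set.range v)

/-! ## Frames -/

/-- `B` is a normalised matrix of eigenvectors -/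
def Fr {Ω : Type} [Field Ω] (k : ℕ) (l : Fin 3 → Ω) (X Y : Matrix (Fin 3) (Fin 3) Ω) (H : Ω)
    (B B' : Matrix (Fin 3) (Fin 3) Ω) : Prop :=
  B * B' = 1 ∧ B.det ^ k = H ∧ B' * X * B = Matrix.diagonal l ∧ (B' * Y * B) 1 0 = 1 ∧ (B' * Y * B) 2 0 = 1 ∧
    ∀ i j, i ≠ j → (B' * Y * B) i j ≠ 0

/-- (NOR) uniqueness of the frame.

Proof. `T = B' C` satisfies `diag(l) T = T diag(l ∘ π)`, so `T i j = 0` unless `i = π j`; let `τ j = T (π j) j ≠ 0`. As
`C' Y C = T⁻¹ (B' Y B) T`, its entry `(j, 0)` is `(τ j)⁻¹ (B' Y B) (π j) (π 0) τ 0 = 1` for `j ≠ 0`. `κ = τ 0`, `t j = τ j/τ 0`. Determinants: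
`det(C)^k = det(B)^k = H ≠ 0`. -/
def S_NOR : Prop := ∀ (Ω : Type) [Field Ω] (k : ℕ) (l : Fin 3 → Ω), (∀ i j, i ≠ j → l i ≠ l j) →
  ∀ (X Y : Matrix (Fin 3) (Fin 3) Ω) (H : Ω) (B B' C C' : Matrix (Fin 3) (Fin 3) Ω) (π : Equiv.Perm (Fin 3)), H ≠ 0 →
  Fr k l X Y H B B' → Fr k (fun i => l (π i)) X Y H C C' →
  ∃ (κ : Ω) (t : Fin 3 → Ω), κ ≠ 0 ∧ (∀ j, t j ≠ 0) ∧ t 0 = 1 ∧ (∀ j, j ≠ 0 → t j = (B' * Y * B) (π j) (π 0)) ∧
    C = κ • (B * Matrix.of fun i j => if i = π j then t j else 0) ∧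
    κ ^ (3 * k) * (Matrix.of fun i j => if i = π j then t j else 0 : Matrix (Fin 3) (Fin 3) Ω).det ^ k = 1

/-- (FRZ) existence of the frame.

Proof. Let `Ω₀` be the algebraic closure of `K₁(X)` in `Ω`; the eigenvalues `l i` and a matrix `C` of eigenvectors are in `Ω₀`. The entries
of `Y` are algebraically independent over `K₁(X)`, so over `Ω₀`, and so are the entries of `C⁻¹ Y C` (invertible linear
substitution over `Ω₀`). So its entries, and `∑ u_i` (the last condition, which does not change if `C` is multiplied by a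
diagonal matrix), are not zero. Choose `B = C * diagonal s`: first `s 1/s 0`, `s 2/s 0` such that `Ŷ₁₀ = Ŷ₂₀ = 1`, then the common
factor such that `det(B)^k = H` (`Ω` is algebraically closed, `k ≥ 1`). -/
def S_FRZ : Prop := ∀ (K₁ M Ω : Type) [Field K₁] [CharZero K₁] [Field M] [Algebra K₁ M] [Field Ω] [Algebra M Ω] [IsAlgClosed Ω]
  (X Y : Matrix (Fin 3) (Fin 3) M) (H : M) (k : ℕ), 1 ≤ k → H ≠ 0 →
  AlgebraicIndependent K₁ (Sum.elim (fun p : Fin 3 × Fin 3 => X p.1 p.2) fun p : Fin 3 × Fin 3 => Y p.1 p.2) →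
  ∀ l : Fin 3 → Ω, Roots X.charpoly l → (∀ i j, i ≠ j → l i ≠ l j) →
  ∃ B B' : Matrix (Fin 3) (Fin 3) Ω,
    Fr k l (X.map (algebraMap M Ω)) (Y.map (algebraMap M Ω)) (algebraMap M Ω H) B B' ∧
    (B' * Y.map (algebraMap M Ω) * B) 1 2 * (B' * Y.map (algebraMap M Ω) * B) 2 1 +
      (B' * Y.map (algebraMap M Ω) * B) 2 0 * (B' * Y.map (algebraMap M Ω) * B) 0 2 +
      (B' * Y.map (algebraMap M Ω) * B) 0 1 * (B' * Y.map (algebraMap M Ω) * B) 1 0 ≠ 0

/-- the eigenvalues and the frame for `D` -/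
structure FZ {k r : ℕ} {K M : Type} [Field K] [CharZero K] [Field M] [Algebra K M] (D : DZ k r K M) (Ω : Type) [Field Ω]
    [Algebra M Ω] where
  l : Fin 3 → Ω
  hl : Roots D.X.charpoly l
  B : Matrix (Fin 3) (Fin 3) Ω
  B' : Matrix (Fin 3) (Fin 3) Ω
  fr : Fr k l (D.X.map (algebraMap M Ω)) (D.Y.map (algebraMap M Ω)) (algebraMap M Ω D.H) B B'
  u0 : (B' * D.Y.map (algebraMap M Ω) * B) 1 2 * (B' * D.Y.map (algebraMap M Ω) * B) 2 1 +
      (B' * D.Y.map (algebraMap M Ω) * B) 2 0 * (B' * D.Y.map (algebraMap M Ω) * B) 0 2 +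
      (B' * D.Y.map (algebraMap M Ω) * B) 0 1 * (B' * D.Y.map (algebraMap M Ω) * B) 1 0 ≠ 0

namespace FZ

variable {k r : ℕ} {K M : Type} [Field K] [CharZero K] [Field M] [Algebra K M] {D : DZ k r K M} {Ω : Type} [Field Ω]
  [Algebra M Ω] [Algebra K Ω]

/-- `Ŷ` -/
noncomputable def Yh (F : FZ D Ω) : Matrix (Fin 3) (Fin 3) Ω := F.B' * D.Y.map (algebraMap M Ω) * F.B

/-- `f̂` -/
noncomputable def fh (F : FZ D Ω) : Ix 2 (3 * k) → Ω := act F.B' F.B fun p => algebraMap M Ω (D.f p)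

/-- the field `K(l, Ŷ)` -/
noncomputable def J (F : FZ D Ω) : IntermediateField K Ω :=
  IntermediateField.adjoin K (Set.range F.l ∪ Set.range fun p : Fin 3 × Fin 3 => F.Yh p.1 p.2)

end FZ

/-- (SIX) independence of the monomials, the permutations.

Proof. `K₁ = K(f, Y, H, Z)`: the entries of `X` are algebraically independent over `K₁` and generate `M` over `K₁` (`ind`, `gen`); IRD, IN6,
PRM. The roots are different as the product of the differences is not in `M`, in particular not zero. -/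
def S_SIX : Prop := ∀ (k r : ℕ) (K M : Type) [Field K] [CharZero K] [Field M] [Algebra K M] (D : DZ k r K M)
  (Ω : Type) [Field Ω] [Algebra M Ω] [IsAlgClosed Ω] [Algebra.IsAlgebraic M Ω] (l : Fin 3 → Ω), Roots D.X.charpoly l →
  LinearIndependent M (mu l) ∧ (∀ i j, i ≠ j → l i ≠ l j) ∧
  ∀ π : Equiv.Perm (Fin 3), ∃ σ : Ω ≃ₐ[M] Ω, ∀ i, σ (l i) = l (π i)

/-- (EXF) existence of the frame: FRZ and SIX. -/
def S_EXF : Prop := ∀ (k r : ℕ) (K M : Type) [Field K] [CharZero K] [Field M] [Algebra K M] (D : DZ k r K M)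
  (Ω : Type) [Field Ω] [Algebra M Ω] [IsAlgClosed Ω] [Algebra.IsAlgebraic M Ω], Nonempty (FZ D Ω)

/-- (ROT) the automorphisms over `M`.

Proof. `σ` permutes the roots, `σ (l i) = l (π i)`. `Fr k (l ∘ π) X Y H (σ B) (σ B')` (apply `σ` to `Fr`), so by NOR `σ B = κ B T` with
the monomial matrix `T` with entries in `J` (`t j` is an entry of `Ŷ`), `κ^{3k} = det(T)^{-k}`. So
`σ Ŷ = T⁻¹ Ŷ T`, and `σ f̂ = act (σ B') (σ B) f = κ^{3k} act T⁻¹ T f̂` (ACT, `d = 3 k + 1`), and the coefficients of `act T⁻¹ T c` are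
linear combinations of the `c p` with coefficients in `J`. If all `σ (l i) = l i`, then `π = 1`, `t j = Ŷ j 0 = 1`, `T = 1`,
`κ^{3k} = 1`, so `σ Ŷ = Ŷ`, `σ f̂ = f̂`. -/
def S_ROT : Prop := ∀ (k r : ℕ) (K M : Type) [Field K] [CharZero K] [Field M] [Algebra K M] (D : DZ k r K M)
  (Ω : Type) [Field Ω] [Algebra M Ω] [Algebra K Ω] [IsScalarTower K M Ω] [IsAlgClosed Ω] [Algebra.IsAlgebraic M Ω] (F : FZ D Ω)
  (σ : Ω ≃ₐ[M] Ω), ∃ (π : Equiv.Perm (Fin 3)) (t : Fin 3 → Ω), (∀ i, σ (F.l i) = F.l (π i)) ∧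
    (∀ j, t j ∈ F.J (K := K)) ∧ (∀ j, t j ≠ 0) ∧
    (∀ i j, σ (F.Yh i j) = (t i)⁻¹ * F.Yh (π i) (π j) * t j) ∧
    (∀ p, σ (F.fh p) ∈ Submodule.span (F.J (K := K)) (Set.range F.fh)) ∧
    ((∀ i, σ (F.l i) = F.l i) → (∀ i j, σ (F.Yh i j) = F.Yh i j) ∧ ∀ p, σ (F.fh p) = F.fh p)

/-- (MEM) `Ŷ` and `f̂` are in `M(l)`: ROT and `S_GAL` of ME for the field `M(l)`. -/
def S_MEM : Prop := ∀ (k r : ℕ) (K M : Type) [Field K] [CharZero K] [Field M] [Algebra K M] (D : DZ k r K M)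
  (Ω : Type) [Field Ω] [Algebra M Ω] [Algebra K Ω] [IsScalarTower K M Ω] [IsAlgClosed Ω] [Algebra.IsAlgebraic M Ω] (F : FZ D Ω),
  (∀ i j, F.Yh i j ∈ IntermediateField.adjoin M (Set.range F.l)) ∧ ∀ p, F.fh p ∈ IntermediateField.adjoin M (Set.range F.l)

/-- (EXT) extension of `φ g`.

Proof. Extend `φ g` to a ring homomorphism `ψ : Ω → Ω` (`Ω` algebraic over `M`, algebraically closed). It permutes the roots of the
characteristic polynomial of `X` (fixed by `φ g`, `φ g X = g X g⁻¹`); compose with an automorphism over `M` (SIX) such that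
`ψ (l i) = l i`. Let `C = g' ψ(B)`, `C' = ψ(B') g`: `C' X C = ψ(B' X B) = diag(l)`, `C' Y C = ψ(Ŷ)`, `det(C)^k = H`; so
`Fr k l X Y H C C'` and NOR (`π = 1`) gives `C = κ B`, `κ^{3k} = 1`. So `ψ(Ŷ) = Ŷ` and
`ψ(f̂) = act ψ(B') ψ(B) (act g g' f) = act C' C f = κ^{3k} f̂ = f̂`. -/
def S_EXT : Prop := ∀ (k r : ℕ) (K M : Type) [Field K] [CharZero K] [Field M] [Algebra K M] (D : DZ k r K M)
  (Ω : Type) [Field Ω] [Algebra M Ω] [Algebra K Ω] [IsScalarTower K M Ω] [IsAlgClosed Ω] [Algebra.IsAlgebraic M Ω] (F : FZ D Ω)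
  (g : GP 2 K), ∃ ψ : Ω →+* Ω, (∀ x : M, ψ (algebraMap M Ω x) = algebraMap M Ω (D.φ g x)) ∧ (∀ i, ψ (F.l i) = F.l i) ∧
    (∀ i j, ψ (F.Yh i j) = F.Yh i j) ∧ ∀ p, ψ (F.fh p) = F.fh p

/-- (FMA) invariants of two matrices.

Proof. By ROT an automorphism `σ` of `Ω` over `M` takes `y i i` (`y = Ŷ`) to `y (π i) (π i)`, `u i` to `u (π i)`, and `w₁`, `w₂` to `w₁`, `w₂`
(`π` even) or `w₂`, `w₁` (`π` odd), `δ` to `sign(π) δ` (the `t`'s cancel in the cycles; check the six permutations). So the right hand sides are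
fixed by all `σ`, hence in `M` (`S_GAL` of ME; `δ ≠ 0` by SIX), and by EXT they are invariant. -/
def S_FMA : Prop := ∀ (k r : ℕ) (K M : Type) [Field K] [CharZero K] [Field M] [Algebra K M] (D : DZ k r K M)
  (Ω : Type) [Field Ω] [Algebra M Ω] [Algebra K Ω] [IsScalarTower K M Ω] [IsAlgClosed Ω] [Algebra.IsAlgebraic M Ω] (F : FZ D Ω),
  ∃ (t U : Fin 3 → M) (W : Fin 2 → M), (∀ a g, D.φ g (t a) = t a) ∧ (∀ a g, D.φ g (U a) = U a) ∧ (∀ a g, D.φ g (W a) = W a) ∧
    (∀ a : Fin 3, algebraMap M Ω (t a) = ∑ i, F.l i ^ (a : ℕ) * F.Yh i i) ∧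
    (∀ a : Fin 3, algebraMap M Ω (U a) = F.l 0 ^ (a : ℕ) * (F.Yh 1 2 * F.Yh 2 1) + F.l 1 ^ (a : ℕ) * (F.Yh 2 0 * F.Yh 0 2) +
      F.l 2 ^ (a : ℕ) * (F.Yh 0 1 * F.Yh 1 0)) ∧
    algebraMap M Ω (W 0) = F.Yh 0 1 * F.Yh 1 2 * F.Yh 2 0 + F.Yh 0 2 * F.Yh 2 1 * F.Yh 1 0 ∧
    algebraMap M Ω (W 1) * ((F.l 0 - F.l 1) * (F.l 1 - F.l 2) * (F.l 2 - F.l 0)) =
      F.Yh 0 1 * F.Yh 1 2 * F.Yh 2 0 - F.Yh 0 2 * F.Yh 2 1 * F.Yh 1 0

/-- (FMK) ten invariants (Formanek).

Proof. Notation and data of FMA: `y 1 0 = y 2 0 = 1`, `u 0 = y 1 2 * y 2 1`, `u 1 = y 2 0 * y 0 2 = y 0 2`, `u 2 = y 0 1 * y 1 0 = y 0 1`,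
`w₁ = y 0 1 * y 1 2`, `w₂ = y 0 2 * y 2 1`. `e`: the three lower coefficients of the characteristic polynomial of `X` (invariant, as
`φ g X = g X g⁻¹`), `t 0, t 1, t 2`, `U 1/U 0, U 2/U 0, W 0/U 0, W 1/U 0` (`U 0 ≠ 0` by `u0`). They are in `J`. Conversely, let `E = K(e, l)`:
`y i i ∈ E` (Vandermonde), `u i = U 0 * u' i`, `w_j = U 0 * w'_j` with `u' i, w'_j ∈ E` (Vandermonde; `δ ∈ E`), and
`w₁ * w₂ = u 0 * u 1 * u 2`, so `U 0 = w'_1 w'_2/(u' 0 * u' 1 * u' 2) ∈ E` (nothing is zero: `Fr`). So `u i, w_j ∈ E`, and `y 0 1 = u 2`,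
`y 0 2 = u 1`, `y 1 2 = w₁/u 2`, `y 2 1 = w₂/u 1`. -/
def S_FMK : Prop := ∀ (k r : ℕ) (K M : Type) [Field K] [CharZero K] [Field M] [Algebra K M] (D : DZ k r K M)
  (Ω : Type) [Field Ω] [Algebra M Ω] [Algebra K Ω] [IsScalarTower K M Ω] [IsAlgClosed Ω] [Algebra.IsAlgebraic M Ω] (F : FZ D Ω),
  ∃ e : Fin 10 → M, (∀ i g, D.φ g (e i) = e i) ∧ (∀ i, D.X.charpoly.coeff i ∈ IntermediateField.adjoin K (Set.range e)) ∧
    (∀ i, algebraMap M Ω (e i) ∈ F.J (K := K)) ∧
    ∀ i j, F.Yh i j ∈ IntermediateField.adjoin K ((Set.range fun i => algebraMap M Ω (e i)) ∪ Set.range F.l)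

/-- (SPJ) for a subfield `N` of `M` which contains the coefficients of the characteristic polynomial of `X`, the field `N(l)` is
spanned by the six monomials over `N`.

Proof. The set of the sums `∑ n a * mu l a` is closed under addition and under multiplication by `l 0` (cubic equation), `l 1`
(`l 1² = -(l 0 + c) l 1 - …` by the quadratic equation over `N(l 0)`) and `l 2 = - c - l 0 - l 1`; so it is a ring, finite over `N`, a
field. -/
def S_SPJ : Prop := ∀ (K M Ω : Type) [Field K] [Field M] [Field Ω] [Algebra K M] [Algebra M Ω] [Algebra K Ω]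
  [IsScalarTower K M Ω] (p : Polynomial M) (l : Fin 3 → Ω), Roots p l → ∀ N : IntermediateField K M, (∀ i, p.coeff i ∈ N) →
  ∀ y ∈ IntermediateField.adjoin K (algebraMap M Ω '' (N : Set M) ∪ Set.range l),
    ∃ n : Fin 3 × Fin 2 → N, y = ∑ a, algebraMap M Ω (n a) * mu l a

/-- (DES) descent.

Proof. `f̂ p ∈ M(l)` (MEM), so `f̂ p = ∑ w p a * mu l a` with `w p a ∈ M` (SPJ for `N = ⊤`). For `g`, `ψ` from EXT:
`∑ (φ g (w p a) - w p a) * mu l a = 0`, so `φ g (w p a) = w p a` (SIX). By COF (with the `σ π` of SIX) and ROT the `w p a` are in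
the span of the `f̂ p` over `J`, so (`dv f̂ = 0`: `S_DVA`, `S_ACT`; `S_SEC` of ME) in the span of the `f̂ j`, `j ∈ J2`. `J = K(e, l)` (FMK)
and SPJ for `N₀ = K(e)` give the hypothesis of LAD; so there are `v` (`d = card J2`) in the span of the `w p a` over `N₀` (so
invariant) with all `w p a` in the span of `v` over `N₀`. -/
def S_DES : Prop := ∀ (k r : ℕ) (K M : Type) [Field K] [CharZero K] [Field M] [Algebra K M] (D : DZ k r K M)
  (Ω : Type) [Field Ω] [Algebra M Ω] [Algebra K Ω] [IsScalarTower K M Ω] [IsAlgClosed Ω] [Algebra.IsAlgebraic M Ω] (F : FZ D Ω),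
  ∃ v : Fin (Nat.card (J2 2 (3 * k))) → M, (∀ i g, D.φ g (v i) = v i) ∧
    ∀ p, F.fh p ∈ Submodule.span (F.J (K := K)) (Set.range fun i => algebraMap M Ω (v i))

/-- (INZ) the invariants are in `K(l, Ŷ, f̂, Z)`.

Proof. As `T_INV` of ME (or `Pool/Agent/T2h8/R3/T_INV.lean`): let `E = K(Z)`, fixed by `φ`, `y` the finite family of the `f p`, `X i j`, `Y i j`, `H`
(they generate `M` over `E`), `x = P(y)/Q(y)` with polynomials over `E`. For `g ∈ GL(K)` the image of `y` under `φ g` is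
`(act g g' f, g X g', g Y g', det(g)^k H)`, polynomial in `(g, g')`; so `P(g y) Q(y) = P(y) Q(g y)` for all `g ∈ GL(K)`, hence (`S_DEN`,
multiply by powers of the determinant, or use `g' = adj(g)/det(g)`) for all `g ∈ GL(Ω)`. For `g = B'`: `g y` is
`(f̂, diag(l), Ŷ, 1)`. If `Q(B' y) = 0` replace `B'` by `h B'` with `h ∈ GL(K)`: `h (B' y)` is polynomial in `h`, `h⁻¹` with
values in `K(f̂, l, Ŷ, Z)`, and for `h = B` it is `y` with `Q(y) ≠ 0`, so there is `h ∈ GL(K)` with `Q(h B' y) ≠ 0` (density). -/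
def S_INZ : Prop := ∀ (k r : ℕ) (K M : Type) [Field K] [CharZero K] [Field M] [Algebra K M] (D : DZ k r K M)
  (Ω : Type) [Field Ω] [Algebra M Ω] [Algebra K Ω] [IsScalarTower K M Ω] [IsAlgClosed Ω] [Algebra.IsAlgebraic M Ω] (F : FZ D Ω)
  (x : M), (∀ g, D.φ g x = x) → algebraMap M Ω x ∈ IntermediateField.adjoin K
    (Set.range F.l ∪ (Set.range fun p : Fin 3 × Fin 3 => F.Yh p.1 p.2) ∪ Set.range F.fh ∪ Set.range fun i => algebraMap M Ω (D.Z i))

/-- (GEZ) generators of the field of invariants.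

Proof. Let `N` be the right hand side. By INZ, DES, FMK `x ∈ N(l)`, by SPJ `x = ∑ n a * mu l a`, and by SIX `x = n (0, 0) ∈ N`. -/
def S_GEZ : Prop := ∀ (k r : ℕ) (K M : Type) [Field K] [CharZero K] [Field M] [Algebra K M] (D : DZ k r K M),
  ∃ (e : Fin 10 → M) (v : Fin (Nat.card (J2 2 (3 * k))) → M), (∀ i g, D.φ g (e i) = e i) ∧ (∀ i g, D.φ g (v i) = v i) ∧
    (∀ x : M, (∀ g, D.φ g x = x) → x ∈ IntermediateField.adjoin K (Set.range e ∪ Set.range v ∪ Set.range D.Z)) ∧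
    AlgebraicIndependent K (Sum.elim e (Sum.elim v D.Z))

/-- (TDZ) algebraic independence (the last clause of GEZ, from the data of DES and FMK).

Proof. Let `N = K(e, v, Z)`. `l`, `Ŷ`, `f̂` are algebraic over `N` (FMK: `l` by the characteristic polynomial, `J`, DES). The generators of
`M` are in the field generated by `N`, `l`, `Ŷ`, `f̂` and the nine entries of `B`: `f = act B B' f̂`, `X = B diag(l) B'`, `Y = B Ŷ B'`,
`H = det(B)^k`. So `card (IZ k r) = card J2 + 19 + r` (the transcendence degree of `M` over `K`) is at most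
`trdeg N + 9 ≤ 10 + card J2 + r + 9`, hence equality and the independence (compare `T_TDB` of ME). -/
def S_TDZ : Prop := ∀ (k r : ℕ) (K M : Type) [Field K] [CharZero K] [Field M] [Algebra K M] (D : DZ k r K M)
  (Ω : Type) [Field Ω] [Algebra M Ω] [Algebra K Ω] [IsScalarTower K M Ω] [IsAlgClosed Ω] [Algebra.IsAlgebraic M Ω] (F : FZ D Ω)
  (e : Fin 10 → M) (v : Fin (Nat.card (J2 2 (3 * k))) → M),
  (∀ i, D.X.charpoly.coeff i ∈ IntermediateField.adjoin K (Set.range e)) →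
  (∀ i j, F.Yh i j ∈ IntermediateField.adjoin K ((Set.range fun i => algebraMap M Ω (e i)) ∪ Set.range F.l)) →
  (∀ p, F.fh p ∈ Submodule.span (F.J (K := K)) (Set.range fun i => algebraMap M Ω (v i))) →
  AlgebraicIndependent K (Sum.elim e (Sum.elim v D.Z))

/-- (RAZ) the invariant field is purely transcendental: GEZ, reindexed. -/
def S_RAZ : Prop := ∀ (k r : ℕ) (K M : Type) [Field K] [CharZero K] [Field M] [Algebra K M] (D : DZ k r K M),
  ∃ (q : ℕ) (x : Fin q → M), AlgebraicIndependent K x ∧ ∀ y : M, (∀ g, D.φ g y = y) ↔ y ∈ IntermediateField.adjoin K (Set.range x)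

end Pool.Agent.Z15.MH
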