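import Pool.Agent.Z15.MH.Stm

set_option autoImplicit false

/-! Project MH (owner helper15), task AIZ. -/

namespace Pool.Agent.Z15.MH

open MvPolynomial Matrix Pool.Agent.Z15.ME

theorem AIZ.ai_eq {K M J : Type} [Field K] [Field M] [Algebra K M] {E E' : IntermediateField K M}
    (h : E = E') {v : J → M} (hv : AlgebraicIndependent E v) : AlgebraicIndependent E' v := by
  subst h
  exact hv

/-- base change: the coefficients of `emb F` lie in the field generated by the ones of `F` -/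
theorem AIZ.emb_mem (hEMB : S_EMB) {N m : ℕ} {K M : Type} [Field K] [Field M] [Algebra K M]
    (E : IntermediateField K M) (F : Mon (N + 1) m → M) (hF : ∀ β, F β ∈ E) (p : Ix N m) :
    emb F p ∈ E := by
  have h := (hEMB (N + 1) m E).2.2.2 M (algebraMap E M) fun β => ⟨F β, hF β⟩
  have h2 := congrFun h p
  have h3 : (fun β => algebraMap E M ((fun β => (⟨F β, hF β⟩ : E)) β)) = F := rfl
  rw [h3] at h2
  rw [h2]
  exact (emb (fun β => (⟨F β, hF β⟩ : E)) p).2

theorem t_AIZ (hPOL : ME.S_POL) (hACT : ME.S_ACT) (hDVA : ME.S_DVA) (hEMB : ME.S_EMB) (hSEC : ME.S_SEC)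
    (hCRD : ME.S_CRD) (hTRD : ME.S_TRD) : S_AIZ := by
  intro N m _ _ K M _ _ _ _ f ind φ hφ
  have : CharZero M := charZero_of_injective_algebraMap (algebraMap K M).injective
  obtain ⟨s, hs⟩ : ∃ s : M, s = ((N + 1 + m : ℕ) : M)⁻¹ := ⟨_, rfl⟩
  have hs0 : s * ((N + 1 + m : ℕ) : M) = 1 := by
    rw [hs]
    refine inv_mul_cancel₀ ?_
    exact Nat.cast_ne_zero.2 (by omega)
  have hp2 : part2 f = fun p => 1 * f p + (-s) * emb (dv f) p := by
    funext p
    unfold part2
    rw [← hs]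
    ring
  -- divergence
  have hdv : dv (part2 f) = 0 := by
    rw [hp2, (hDVA (N + 1) m M).2.1, (hEMB (N + 1) m M).1]
    funext β
    show 1 * dv f β + -s * (((N + 1 + m : ℕ) : M) * dv f β) = 0
    have : -s * (((N + 1 + m : ℕ) : M) * dv f β) = -(s * ((N + 1 + m : ℕ) : M)) * dv f β := by
      ring
    rw [this, hs0]
    ring
  obtain ⟨T, -, hT⟩ := hSEC N m
  have hT1 : ∀ p, part2 f p = ∑ j, (T p j : M) * part2 f j.1 := (hT M (part2 f)).1 hdv
  -- the field generated by the J2 coordinates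
  have hFJ : IntermediateField.adjoin K (Set.range fun j : J2 N m => part2 f j.1) = IntermediateField.adjoin K (Set.range (part2 f)) := by
    apply le_antisymm
    · refine IntermediateField.adjoin_le_iff.2 ?_
      rintro _ ⟨j, rfl⟩
      exact IntermediateField.subset_adjoin K _ ⟨j.1, rfl⟩
    · refine IntermediateField.adjoin_le_iff.2 ?_
      rintro _ ⟨p, rfl⟩
      rw [hT1 p]
      refine sum_mem fun j _ => mul_mem ?_ (IntermediateField.subset_adjoin K _ ⟨j, rfl⟩)
      have h1 : ((T p j : ℚ) : M) = algebraMap K M ((T p j : ℚ) : K) := by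
        rw [map_ratCast]
      rw [h1]
      exact IntermediateField.algebraMap_mem _ _
  obtain ⟨x, hx⟩ : ∃ x : Mon (N + 1) m ⊕ J2 N m → M,
      x = Sum.elim (dv f) fun j : J2 N m => part2 f j.1 := ⟨_, rfl⟩
  have hx1 : ∀ β, dv f β ∈ IntermediateField.adjoin K (Set.range x) := fun β =>
    IntermediateField.subset_adjoin K _ ⟨Sum.inl β, by rw [hx]; rfl⟩
  have hx2 : ∀ j : J2 N m, part2 f j.1 ∈ IntermediateField.adjoin K (Set.range x) := fun j =>
    IntermediateField.subset_adjoin K _ ⟨Sum.inr j, by rw [hx]; rfl⟩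
  have hx3 : ∀ p, part2 f p ∈ IntermediateField.adjoin K (Set.range x) := by
    have h1 : IntermediateField.adjoin K (Set.range (part2 f)) ≤ IntermediateField.adjoin K (Set.range x) := by
      rw [← hFJ]
      refine IntermediateField.adjoin_le_iff.2 ?_
      rintro _ ⟨j, rfl⟩
      exact hx2 j
    exact fun p => h1 (IntermediateField.subset_adjoin K _ ⟨p, rfl⟩)
  have hf : ∀ p, f p ∈ IntermediateField.adjoin K (Set.range x) := by
    intro p
    have h1 : f p = part2 f p + s * emb (dv f) p := by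
      rw [hp2]
      ring
    rw [h1]
    refine add_mem (hx3 p) (mul_mem ?_ (AIZ.emb_mem hEMB _ _ hx1 p))
    rw [hs]
    exact inv_mem (natCast_mem _ _)
  have hcard : Nat.card (Mon (N + 1) m ⊕ J2 N m) ≤ Nat.card (Ix N m) := by
    rw [Nat.card_sum, hCRD.1 N m]
    omega
  have hind := (hTRD K M (Mon (N + 1) m ⊕ J2 N m) (Ix N m) x f ind hf hcard).1
  rw [hx] at hind
  have hind2 := AlgebraicIndependent.sumElim_iff.1 hind
  have hmat : ∀ g : GP N K, ext M g.1.1 * ext M g.1.2 = 1 := by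
    intro g
    unfold ME.ext
    rw [← Matrix.map_mul, g.2, Matrix.map_one _ (map_zero _) (map_one _)]
  have hmat' : ∀ g : GP N K, ext M g.1.2 * ext M g.1.1 = 1 := fun g =>
    mul_eq_one_comm.1 (hmat g)
  have hdvg : ∀ g β, φ g (dv f β) = act1 (ext M g.1.2) (dv f) β := by
    intro g β
    have h1 := (hDVA (N + 1) m M).2.2 M (φ g : M →+* M) f
    have h2 := (hDVA (N + 1) m M).1 (ext M g.1.1) (ext M g.1.2) f (hmat' g)
    have h3 : (fun p => (φ g : M →+* M) (f p)) = act (ext M g.1.1) (ext M g.1.2) f := by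
      funext p
      exact hφ g p
    rw [h3, h2] at h1
    exact (congrFun h1 β).symm
  refine ⟨⟨hdv, hind2.1⟩, AIZ.ai_eq hFJ (IntermediateField.algebraicIndependent_adjoin_iff.2 hind2.2),
    ?_, hdvg⟩
  intro g p
  have h1 := (hEMB (N + 1) m M).2.2.2 M (φ g : M →+* M) (dv f)
  have h2 := (hEMB (N + 1) m M).2.1 (ext M g.1.1) (ext M g.1.2) (dv f) (hmat g)
  have h3 : (fun β => (φ g : M →+* M) (dv f β)) = act1 (ext M g.1.2) (dv f) := by
    funext β
    exact hdvg g β
  rw [h3, ← h2] at h1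
  have h4 : φ g s = s := by
    rw [hs, map_inv₀, map_natCast]
  rw [hp2]
  have h5 := (hACT (N + 1) (m + 1) M).2.2.2.2.2.2.2.2.2.1 (ext M g.1.1) (ext M g.1.2) f
    (emb (dv f)) 1 (-s)
  rw [h5]
  show φ g (1 * f p + -s * emb (dv f) p) = 1 * act (ext M g.1.1) (ext M g.1.2) f p +
    -s * act (ext M g.1.1) (ext M g.1.2) (emb (dv f)) p
  rw [map_add, map_mul, map_mul, map_neg, map_one, h4, hφ g p, h1]
  rfl

end Pool.Agent.Z15.MH
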