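import Pool.Agent.Z15.MH.T_PRM

/-! Task COF: coefficients from conjugates. -/

set_option autoImplicit false
set_option linter.all false

namespace Pool.Agent.Z15.MH

open MvPolynomial Matrix Pool.Agent.Z15.ME

namespace COF

/-- a quadratic polynomial with three roots -/
theorem quad {J : Type} [Field J] (x : Fin 3 → J) (hx : Function.Injective x) (a b c : J)
    (h : ∀ i, a + b * x i + c * x i ^ 2 = 0) : a = 0 ∧ b = 0 ∧ c = 0 := by
  have h01 : x 0 - x 1 ≠ 0 := sub_ne_zero.2 fun h => by simpa using hx h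
  have h02 : x 0 - x 2 ≠ 0 := sub_ne_zero.2 fun h => by simpa using hx h
  have h12 : x 1 - x 2 ≠ 0 := sub_ne_zero.2 fun h => by simpa using hx h
  have e0 := h 0
  have e1 := h 1
  have e2 := h 2
  have f1 : b + c * (x 0 + x 1) = 0 := by
    apply (mul_eq_zero.1 (_ : (x 0 - x 1) * (b + c * (x 0 + x 1)) = 0)).resolve_left h01
    linear_combination e0 - e1
  have f2 : b + c * (x 0 + x 2) = 0 := by
    apply (mul_eq_zero.1 (_ : (x 0 - x 2) * (b + c * (x 0 + x 2)) = 0)).resolve_left h02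
    linear_combination e0 - e2
  have hc : c = 0 := by
    apply (mul_eq_zero.1 (_ : (x 1 - x 2) * c = 0)).resolve_left h12
    linear_combination f1 - f2
  have hb : b = 0 := by
    rw [hc] at f1
    linear_combination f1
  have ha : a = 0 := by
    rw [hc, hb] at e0
    linear_combination e0
  exact ⟨ha, hb, hc⟩

theorem perm_ex : ∀ i j : Fin 3, i ≠ j → ∃ π : Equiv.Perm (Fin 3), π 0 = i ∧ π 1 = j := by
  decide

/-- the rows of the values of the six monomials span everything -/
theorem span_rows {J : Type} [Field J] (x : Fin 3 → J) (hx : Function.Injective x) :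
    Submodule.span J (Set.range fun π : Equiv.Perm (Fin 3) => fun b : Fin 3 × Fin 2 =>
      x (π 0) ^ (b.1 : ℕ) * x (π 1) ^ (b.2 : ℕ)) = ⊤ := by
  by_contra hne
  obtain ⟨f, hf0, hf⟩ := Submodule.exists_le_ker_of_lt_top _ (lt_top_iff_ne_top.2 hne)
  apply hf0
  set c : Fin 3 × Fin 2 → J := fun b => f (Pi.single b 1) with hc
  have hfv : ∀ v : Fin 3 × Fin 2 → J, f v = ∑ b, v b * c b := by
    intro v
    rw [LinearMap.pi_apply_eq_sum_univ f v]
    refine Finset.sum_congr rfl fun b _ => ?_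
    rw [smul_eq_mul]
    congr 2
    funext j
    rw [Pi.single_apply]
    simp [eq_comm]
  have h1 : ∀ i j : Fin 3, i ≠ j →
      (c (0, 0) + c (1, 0) * x i + c (2, 0) * x i ^ 2) +
        (c (0, 1) + c (1, 1) * x i + c (2, 1) * x i ^ 2) * x j = 0 := by
    intro i j hij
    obtain ⟨π, h0, h1⟩ := perm_ex i j hij
    have h2 := hf (Submodule.subset_span ⟨π, rfl⟩)
    rw [LinearMap.mem_ker, hfv, Fintype.sum_prod_type, Fin.sum_univ_three] at h2
    simp only [Fin.sum_univ_two, h0, h1] at h2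
    simp at h2
    linear_combination h2
  have h2 : ∀ i, c (0, 1) + c (1, 1) * x i + c (2, 1) * x i ^ 2 = 0 ∧
      c (0, 0) + c (1, 0) * x i + c (2, 0) * x i ^ 2 = 0 := by
    intro i
    obtain ⟨j, k, hj, hk, hjk⟩ : ∃ j k : Fin 3, i ≠ j ∧ i ≠ k ∧ j ≠ k := by
      revert i
      decide
    have e1 := h1 i j hj
    have e2 := h1 i k hk
    have hd : x j - x k ≠ 0 := sub_ne_zero.2 fun h => hjk (hx h)
    have e3 : c (0, 1) + c (1, 1) * x i + c (2, 1) * x i ^ 2 = 0 := by
      apply (mul_eq_zero.1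
        (_ : (x j - x k) * (c (0, 1) + c (1, 1) * x i + c (2, 1) * x i ^ 2) = 0)).resolve_left hd
      linear_combination e1 - e2
    refine ⟨e3, ?_⟩
    rw [e3, zero_mul, add_zero] at e1
    exact e1
  obtain ⟨a1, a2, a3⟩ := quad x hx _ _ _ fun i => (h2 i).1
  obtain ⟨b1, b2, b3⟩ := quad x hx _ _ _ fun i => (h2 i).2
  apply LinearMap.ext
  intro v
  rw [hfv, Fintype.sum_prod_type, Fin.sum_univ_three]
  simp only [Fin.sum_univ_two, a1, a2, a3, b1, b2, b3]
  simp

end COF

open COF in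
theorem t_COF : S_COF := by
  intro K M Ω _ _ _ _ _ _ _ _ p l hp hl J hJ σ hσ w a
  have hinj := PRM.inj hp hl
  set x : Fin 3 → J := fun i => ⟨l i, hJ i⟩ with hx
  have hxi : Function.Injective x := fun i j h => hinj (congrArg Subtype.val h)
  have h1 : (Pi.single a 1 : Fin 3 × Fin 2 → J) ∈ Submodule.span J
      (Set.range fun π : Equiv.Perm (Fin 3) => fun b : Fin 3 × Fin 2 =>
      x (π 0) ^ (b.1 : ℕ) * x (π 1) ^ (b.2 : ℕ)) := by
    rw [span_rows x hxi]
    exact Submodule.mem_top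
  rw [Submodule.mem_span_range_iff_exists_fun] at h1
  obtain ⟨c, hc⟩ := h1
  rw [Submodule.mem_span_range_iff_exists_fun]
  refine ⟨c, ?_⟩
  have h2 : ∀ b : Fin 3 × Fin 2, ∑ π : Equiv.Perm (Fin 3),
      (c π : Ω) * (l (π 0) ^ (b.1 : ℕ) * l (π 1) ^ (b.2 : ℕ)) = if b = a then 1 else 0 := by
    intro b
    have h3 := congrArg (fun v : Fin 3 × Fin 2 → J => ((v b : J) : Ω)) hc
    simp only [Finset.sum_apply, Pi.smul_apply, smul_eq_mul, Pi.single_apply] at h3
    rw [AddSubmonoidClass.coe_finset_sum] at h3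
    rw [← Finset.sum_congr rfl fun π _ => rfl, show (if b = a then (1 : Ω) else 0) =
      (((if b = a then (1 : J) else 0) : J) : Ω) from by split_ifs <;> simp, ← h3]
    refine Finset.sum_congr rfl fun π _ => ?_
    simp [hx]
  have h3 : ∀ π : Equiv.Perm (Fin 3), σ π (∑ b, algebraMap M Ω (w b) * mu l b) =
      ∑ b : Fin 3 × Fin 2, algebraMap M Ω (w b) * (l (π 0) ^ (b.1 : ℕ) * l (π 1) ^ (b.2 : ℕ)) := by
    intro π
    rw [map_sum]
    refine Finset.sum_congr rfl fun b _ => ?_
    unfold mu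
    rw [map_mul, map_mul, map_pow, map_pow, hσ, hσ, AlgEquiv.commutes]
  calc ∑ π, c π • σ π (∑ b, algebraMap M Ω (w b) * mu l b)
      = ∑ π : Equiv.Perm (Fin 3), ∑ b : Fin 3 × Fin 2, algebraMap M Ω (w b) *
        ((c π : Ω) * (l (π 0) ^ (b.1 : ℕ) * l (π 1) ^ (b.2 : ℕ))) := by
        refine Finset.sum_congr rfl fun π _ => ?_
        rw [h3, Finset.smul_sum]
        refine Finset.sum_congr rfl fun b _ => ?_
        rw [IntermediateField.smul_def, smul_eq_mul]
        ring
    _ = ∑ b : Fin 3 × Fin 2, algebraMap M Ω (w b) * (if b = a then 1 else 0) := by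
        rw [Finset.sum_comm]
        refine Finset.sum_congr rfl fun b _ => ?_
        rw [← Finset.mul_sum, h2]
    _ = algebraMap M Ω (w a) := by simp

end Pool.Agent.Z15.MH
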