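import Pool.Agent.Z15.MH.Stm

set_option autoImplicit false

namespace Pool.Agent.Z15.MH

open MvPolynomial Matrix Pool.Agent.Z15.ME

namespace DES

section aux

variable {k r : ℕ} {K M : Type} [Field K] [CharZero K] [Field M] [Algebra K M] {D : DZ k r K M} {Ω : Type} [Field Ω]
  [Algebra M Ω] [Algebra K Ω] [IsScalarTower K M Ω]

/-- multiplication by an element of `J` -/
theorem smul_mem' (J : IntermediateField K Ω) (S : Set Ω) (a x : Ω) (ha : a ∈ J)
    (hx : x ∈ Submodule.span J S) : a * x ∈ Submodule.span J S := by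
  have := Submodule.smul_mem (Submodule.span J S) (⟨a, ha⟩ : J) hx
  exact this

theorem l_mem (F : FZ D Ω) (i : Fin 3) : F.l i ∈ F.J (K := K) :=
  IntermediateField.subset_adjoin _ _ (Or.inl ⟨i, rfl⟩)

theorem mu_mem (F : FZ D Ω) (a : Fin 3 × Fin 2) : mu F.l a ∈ F.J (K := K) :=
  mul_mem (pow_mem (l_mem F 0) _) (pow_mem (l_mem F 1) _)

/-- the elements of `K(e)` are fixed -/
theorem fix_adjoin (φ : M →ₐ[K] M) {n : ℕ} (e : Fin n → M) (he : ∀ i, φ (e i) = e i) (x : M)
    (hx : x ∈ IntermediateField.adjoin K (Set.range e)) : φ x = x := by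
  induction hx using IntermediateField.adjoin_induction with
  | mem x hx =>
    obtain ⟨i, rfl⟩ := hx
    exact he i
  | algebraMap x => exact φ.commutes x
  | add x y _ _ h1 h2 => rw [map_add, h1, h2]
  | inv x _ h => rw [map_inv₀, h]
  | mul x y _ _ h1 h2 => rw [map_mul, h1, h2]

theorem fix_span (φ : M →ₐ[K] M) {n : ℕ} (e : Fin n → M) (he : ∀ i, φ (e i) = e i) {I : Type} (w : I → M)
    (hw : ∀ i, φ (w i) = w i) (x : M)
    (hx : x ∈ Submodule.span (IntermediateField.adjoin K (Set.range e)) (Set.range w)) : φ x = x := by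
  induction hx using Submodule.span_induction with
  | mem x hx =>
    obtain ⟨i, rfl⟩ := hx
    exact hw i
  | zero => exact map_zero _
  | add x y _ _ h1 h2 => rw [map_add, h1, h2]
  | smul a x _ h =>
    have h1 : a • x = (a : M) * x := rfl
    rw [h1, map_mul, h, fix_adjoin φ e he _ a.2]

theorem map_adjoin (J : IntermediateField K Ω) {n : ℕ} (e : Fin n → M) (he : ∀ i, algebraMap M Ω (e i) ∈ J) (x : M)
    (hx : x ∈ IntermediateField.adjoin K (Set.range e)) : algebraMap M Ω x ∈ J := by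
  induction hx using IntermediateField.adjoin_induction with
  | mem x hx =>
    obtain ⟨i, rfl⟩ := hx
    exact he i
  | algebraMap x =>
    rw [← IsScalarTower.algebraMap_apply]
    exact J.algebraMap_mem x
  | add x y _ _ h1 h2 => rw [map_add]; exact add_mem h1 h2
  | inv x _ h => rw [map_inv₀]; exact inv_mem h
  | mul x y _ _ h1 h2 => rw [map_mul]; exact mul_mem h1 h2

theorem map_span (J : IntermediateField K Ω) {n d : ℕ} (e : Fin n → M) (he : ∀ i, algebraMap M Ω (e i) ∈ J)
    (v : Fin d → M) (x : M)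
    (hx : x ∈ Submodule.span (IntermediateField.adjoin K (Set.range e)) (Set.range v)) :
    algebraMap M Ω x ∈ Submodule.span J (Set.range fun i => algebraMap M Ω (v i)) := by
  induction hx using Submodule.span_induction with
  | mem x hx =>
    obtain ⟨i, rfl⟩ := hx
    exact Submodule.subset_span ⟨i, rfl⟩
  | zero => rw [map_zero]; exact Submodule.zero_mem _
  | add x y _ _ h1 h2 => rw [map_add]; exact Submodule.add_mem _ h1 h2
  | smul a x _ h =>
    have h1 : a • x = (a : M) * x := rfl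
    rw [h1, map_mul]
    exact smul_mem' J _ _ _ (map_adjoin J e he _ a.2) h

end aux

end DES

open DES in
theorem t_DES (hMEM : S_MEM) (hSPJ : S_SPJ) (hEXT : S_EXT) (hSIX : S_SIX) (hCOF : S_COF) (hROT : S_ROT) (hFMK : S_FMK)
    (hLAD : S_LAD) (hACT : ME.S_ACT) (hDVA : ME.S_DVA) (hSEC : ME.S_SEC) : S_DES := by
  intro k r K M _ _ _ _ D Ω _ _ _ _ _ _ F
  haveI : CharZero M := charZero_of_injective_algebraMap (algebraMap K M).injective
  haveI : CharZero Ω := charZero_of_injective_algebraMap (algebraMap M Ω).injective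
  obtain ⟨hli, -, hperm⟩ := hSIX k r K M D Ω F.l F.hl
  -- the coefficients
  have hw : ∀ p, ∃ w : Fin 3 × Fin 2 → M, F.fh p = ∑ a, algebraMap M Ω (w a) * mu F.l a := by
    intro p
    obtain ⟨n, hn⟩ := hSPJ M M Ω D.X.charpoly F.l F.hl ⊤ (fun _ => trivial) (F.fh p)
      (IntermediateField.adjoin.mono M _ _ Set.subset_union_right ((hMEM k r K M D Ω F).2 p))
    exact ⟨fun a => (n a : M), hn⟩
  choose w hw using hw
  -- invariance
  have hinv : ∀ p a g, D.φ g (w p a) = w p a := by
    intro p a g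
    obtain ⟨ψ, h1, h2, -, h4⟩ := hEXT k r K M D Ω F g
    have hmu : ∀ a, ψ (mu F.l a) = mu F.l a := by
      intro a
      unfold mu
      rw [map_mul, map_pow, map_pow, h2, h2]
    have h5 := h4 p
    rw [hw p, map_sum] at h5
    have h6 : ∑ a, (D.φ g (w p a) - w p a) • mu F.l a = 0 := by
      have : ∑ a, algebraMap M Ω (D.φ g (w p a)) * mu F.l a = ∑ a, algebraMap M Ω (w p a) * mu F.l a := by
        rw [← h5]
        refine Finset.sum_congr rfl fun a _ => ?_
        rw [map_mul, h1, hmu]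
      rw [← sub_eq_zero, ← Finset.sum_sub_distrib] at this
      rw [← this]
      refine Finset.sum_congr rfl fun a _ => ?_
      rw [Algebra.smul_def, map_sub, sub_mul]
    exact sub_eq_zero.1 ((Fintype.linearIndependent_iff.1 hli) _ h6 a)
  -- the span of the `fh j`, `j ∈ J2`
  obtain ⟨T, -, hT⟩ := hSEC 2 (3 * k)
  have hdv : dv F.fh = 0 := by
    have h1 := (hDVA 3 (3 * k) Ω).1 F.B' F.B (fun p => algebraMap M Ω (D.f p)) F.fr.1
    have h2 := (hDVA 3 (3 * k) M).2.2 Ω (algebraMap M Ω) D.f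
    have h3 : dv F.fh = act1 F.B (dv fun p => algebraMap M Ω (D.f p)) := h1
    have h4 : (dv fun p => algebraMap M Ω (D.f p)) = fun _ => 0 := by
      have : (fun p => algebraMap M Ω (D.f p)) = fun p => (algebraMap M Ω : M →+* Ω) (D.f p) := rfl
      rw [this, h2, D.div]
      funext β
      exact map_zero _
    have h5 := (hACT 3 (3 * k) Ω).2.2.2.2.1 F.B (fun _ => 0) (fun _ => 0) 0 0
    rw [h3, h4]
    have h6 : (fun _ : Mon 3 (3 * k) => (0 : Ω)) = fun α => 0 * (fun _ : Mon 3 (3 * k) => (0 : Ω)) α +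
        0 * (fun _ : Mon 3 (3 * k) => (0 : Ω)) α := by
      funext α
      simp
    rw [h6, h5]
    funext α
    simp
  have hfh := (hT Ω F.fh).1 hdv
  let z : Fin (Nat.card (J2 2 (3 * k))) → Ω := fun i => F.fh ((Finite.equivFin (J2 2 (3 * k))).symm i).1
  have hz : ∀ j : J2 2 (3 * k), F.fh j.1 ∈ Set.range z := fun j =>
    ⟨Finite.equivFin (J2 2 (3 * k)) j, by simp only [z, Equiv.symm_apply_apply]⟩
  have hspan : ∀ p, F.fh p ∈ Submodule.span (F.J (K := K)) (Set.range z) := by
    intro p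
    rw [hfh p]
    refine Submodule.sum_mem _ fun j _ => ?_
    exact smul_mem' _ _ _ _ (SubfieldClass.ratCast_mem _ _) (Submodule.subset_span (hz j))
  have hle : Submodule.span (F.J (K := K)) (Set.range F.fh) ≤ Submodule.span (F.J (K := K)) (Set.range z) := by
    rw [Submodule.span_le]
    rintro _ ⟨p, rfl⟩
    exact hspan p
  -- the coefficients are in the span
  choose σ hσ using hperm
  have hwz : ∀ p a, algebraMap M Ω (w p a) ∈ Submodule.span (F.J (K := K)) (Set.range z) := by
    intro p a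
    have h1 := hCOF K M Ω D.X.charpoly F.l F.hl hli (F.J (K := K)) (l_mem F) σ hσ (w p) a
    refine (Submodule.span_le.2 ?_ : _ ≤ Submodule.span (F.J (K := K)) (Set.range z)) h1
    rintro _ ⟨π, rfl⟩
    have h2 : (fun π : Equiv.Perm (Fin 3) => σ π (∑ b, algebraMap M Ω (w p b) * mu F.l b)) π = σ π (F.fh p) := by
      rw [hw p]
    rw [h2]
    obtain ⟨_, _, -, -, -, -, h3, -⟩ := hROT k r K M D Ω F (σ π)
    exact hle (h3 p)
  -- the ten invariants
  obtain ⟨e, he1, he2, he3, he4⟩ := hFMK k r K M D Ω F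
  have hJ : ∀ y ∈ F.J (K := K), ∃ n : Fin 3 × Fin 2 → IntermediateField.adjoin K (Set.range e),
      y = ∑ a, algebraMap M Ω (n a) * mu F.l a := by
    intro y hy
    refine hSPJ K M Ω D.X.charpoly F.l F.hl (IntermediateField.adjoin K (Set.range e)) he2 y ?_
    have h1 : F.J (K := K) ≤ IntermediateField.adjoin K
        (algebraMap M Ω '' (IntermediateField.adjoin K (Set.range e) : Set M) ∪ Set.range F.l) := by
      unfold FZ.J
      rw [IntermediateField.adjoin_le_iff]
      rintro x (hx | ⟨p, rfl⟩)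
      · exact IntermediateField.subset_adjoin _ _ (Or.inr hx)
      · refine IntermediateField.adjoin.mono K _ _ ?_ (he4 p.1 p.2)
        rintro x (⟨i, rfl⟩ | hx)
        · exact Or.inl ⟨e i, IntermediateField.subset_adjoin _ _ ⟨i, rfl⟩, rfl⟩
        · exact Or.inr hx
    exact h1 hy
  obtain ⟨v, hv1, hv2⟩ := hLAD K M Ω F.l hli (F.J (K := K)) (IntermediateField.adjoin K (Set.range e)) hJ
    (Nat.card (J2 2 (3 * k))) z (Ix 2 (3 * k) × (Fin 3 × Fin 2)) (fun q => w q.1 q.2) (fun q => hwz q.1 q.2)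
  refine ⟨v, fun i g => fix_span (D.φ g) e (fun i => he1 i g) (fun q : Ix 2 (3 * k) × (Fin 3 × Fin 2) => w q.1 q.2)
    (fun q => hinv q.1 q.2 g) (v i) (hv1 i), fun p => ?_⟩
  rw [hw p]
  refine Submodule.sum_mem _ fun a _ => ?_
  rw [mul_comm (algebraMap M Ω (w p a))]
  exact smul_mem' _ _ _ _ (mu_mem F a) (map_span _ e he3 v _ (hv2 (p, a)))

end Pool.Agent.Z15.MH
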