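import Pool.Agent.Z15.MH.Stm

/-! Project MH, task EXF: existence of the frame. -/

set_option autoImplicit false

namespace Pool.Agent.Z15.MH

open MvPolynomial Matrix Pool.Agent.Z15.ME

namespace EXF

lemma roots {M Ω : Type} [Field M] [Field Ω] [Algebra M Ω] [IsAlgClosed Ω]
    (X : Matrix (Fin 3) (Fin 3) M) : ∃ l : Fin 3 → Ω, Roots X.charpoly l := by
  have hm : (X.charpoly.map (algebraMap M Ω)).Monic := (X.charpoly_monic).map _
  have hdeg : (X.charpoly.map (algebraMap M Ω)).natDegree = 3 := by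
    rw [(X.charpoly_monic).natDegree_map, X.charpoly_natDegree_eq_dim, Fintype.card_fin]
  have hs := IsAlgClosed.splits (X.charpoly.map (algebraMap M Ω))
  have hc : (X.charpoly.map (algebraMap M Ω)).roots.card = 3 := by
    exact hs.natDegree_eq_card_roots.symm.trans hdeg
  obtain ⟨x, y, z, h⟩ := Multiset.card_eq_three.1 hc
  refine ⟨![x, y, z], ?_⟩
  unfold Roots
  have h2 := hs.eq_prod_roots_of_monic hm
  rw [h] at h2
  rw [h2, Fin.prod_univ_three]
  simp [mul_assoc]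

end EXF

theorem t_EXF (hFRZ : S_FRZ) (hSIX : S_SIX) : S_EXF := by
  intro k r K M _ _ _ _ D Ω _ _ _ _
  obtain ⟨l, hl⟩ := EXF.roots (Ω := Ω) D.X
  obtain ⟨_, h2, _⟩ := hSIX k r K M D Ω l hl
  have hH : D.H ≠ 0 := D.ind.ne_zero (Sum.inr (Sum.inr (Sum.inr (Sum.inl ()))))
  have hi : AlgebraicIndependent K (Sum.elim (fun p : Fin 3 × Fin 3 => D.X p.1 p.2)
      fun p : Fin 3 × Fin 3 => D.Y p.1 p.2) := by
    have h3 := D.ind.comp (fun x : (Fin 3 × Fin 3) ⊕ (Fin 3 × Fin 3) => match x with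
      | Sum.inl p => (Sum.inr (Sum.inl p) : IZ k r)
      | Sum.inr p => Sum.inr (Sum.inr (Sum.inl p))) (by
        rintro (a | a) (b | b) h <;> simp at h ⊢ <;> exact h)
    refine Eq.mp ?_ h3
    congr 1
    funext x
    rcases x with a | a <;> rfl
  obtain ⟨B, B', hB, hu⟩ := hFRZ K M Ω D.X D.Y D.H k D.hk hH hi l hl h2
  exact ⟨⟨l, hl, B, B', hB, hu⟩⟩

end Pool.Agent.Z15.MH
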