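import Pool.Agent.Z15.MH.T_ROT

set_option autoImplicit false

/-!
# EXT: extension of `φ g`
-/

namespace Pool.Agent.Z15.MH

open MvPolynomial Matrix Pool.Agent.Z15.ME

namespace EXTaux

/-- extension of homomorphisms to algebraic extensions -/
theorem lift {M Ω Ω' : Type} [Field M] [Field Ω] [Field Ω'] [Algebra M Ω] [Algebra.IsAlgebraic M Ω]
    [IsAlgClosed Ω'] (f : M →+* Ω') : ∃ ψ : Ω →+* Ω', ∀ x, ψ (algebraMap M Ω x) = f x := by
  let _ := f.toAlgebra
  refine ⟨((IsAlgClosed.lift : Ω →ₐ[M] Ω') : Ω →+* Ω'), fun x => ?_⟩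
  exact (IsAlgClosed.lift : Ω →ₐ[M] Ω').commutes x

end EXTaux

open ROTaux EXTaux in
theorem t_EXT (hNOR : S_NOR) (hSIX : S_SIX) (hACT : ME.S_ACT) : S_EXT := by
  intro k r K M _ _ _ _ D Ω _ _ _ _ _ _ F g
  obtain ⟨-, hne, hperm⟩ := hSIX k r K M D Ω F.l F.hl
  have hH0 : D.H ≠ 0 := D.ind.ne_zero (Sum.inr (Sum.inr (Sum.inr (Sum.inl ()))))
  have hH : algebraMap M Ω D.H ≠ 0 := (map_ne_zero _).2 hH0
  obtain ⟨ψ₀, hψ₀⟩ := lift (Ω := Ω) ((algebraMap M Ω).comp (D.φ g : M →+* M))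
  -- the matrices of `g`
  have hgg : ext M g.1.1 * ext M g.1.2 = 1 := by
    rw [← Matrix.map_mul, g.2, Matrix.map_one _ (map_zero _) (map_one _)]
  have hgg' : ext M g.1.2 * ext M g.1.1 = 1 := mul_eq_one_comm.1 hgg
  have hchar : D.X.charpoly.map (D.φ g : M →+* M) = D.X.charpoly := by
    rw [← Matrix.charpoly_map]
    have h1 : D.X.map (D.φ g : M →+* M) = ext M g.1.1 * D.X * ext M g.1.2 := D.hX g
    rw [h1]
    have h2 := Matrix.charpoly_mul_comm (ext M g.1.1 * D.X) (ext M g.1.2)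
    rw [h2, ← Matrix.mul_assoc, hgg', Matrix.one_mul]
  have hfix : (D.X.charpoly.map (algebraMap M Ω)).map ψ₀ = D.X.charpoly.map (algebraMap M Ω) := by
    rw [Polynomial.map_map]
    have h1 : ψ₀.comp (algebraMap M Ω) = (algebraMap M Ω).comp (D.φ g : M →+* M) := by
      ext x
      exact hψ₀ x
    rw [h1, ← Polynomial.map_map, hchar]
  obtain ⟨π, hπ⟩ := perm _ F.l F.hl hne ψ₀ hfix
  obtain ⟨σ, hσ⟩ := hperm π⁻¹
  obtain ⟨ψ, hψ⟩ : ∃ ψ : Ω →+* Ω, ψ = ψ₀.comp (σ : Ω →+* Ω) := ⟨_, rfl⟩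
  have hψa : ∀ x : M, ψ (algebraMap M Ω x) = algebraMap M Ω (D.φ g x) := by
    intro x
    rw [hψ]
    show ψ₀ (σ (algebraMap M Ω x)) = _
    rw [σ.commutes]
    exact hψ₀ x
  have hψl : ∀ i, ψ (F.l i) = F.l i := by
    intro i
    rw [hψ]
    show ψ₀ (σ (F.l i)) = _
    rw [hσ, hπ]
    simp
  clear hψ hσ hπ hψ₀
  set G : Matrix (Fin 3) (Fin 3) Ω := (ext M g.1.1).map (algebraMap M Ω) with hG
  set G' : Matrix (Fin 3) (Fin 3) Ω := (ext M g.1.2).map (algebraMap M Ω) with hG'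
  have hGG : G * G' = 1 := by
    rw [hG, hG', ← Matrix.map_mul, hgg, Matrix.map_one _ (map_zero _) (map_one _)]
  have hG'G : G' * G = 1 := mul_eq_one_comm.1 hGG
  have hmψ : ∀ A : Matrix (Fin 3) (Fin 3) M, A.map (D.φ g) = ext M g.1.1 * A * ext M g.1.2 →
      (A.map (algebraMap M Ω)).map ψ = G * A.map (algebraMap M Ω) * G' := by
    intro A hA
    rw [hG, hG', ← Matrix.map_mul, ← Matrix.map_mul, ← hA]
    ext i j
    simp only [Matrix.map_apply]
    exact hψa _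
  have hfr := frMap ψ k F.l _ _ _ _ _ F.fr
  rw [hmψ _ (D.hX g), hmψ _ (D.hY g), hψa] at hfr
  simp only [hψl] at hfr
  -- the new frame
  set X := D.X.map (algebraMap M Ω) with hX
  set Y := D.Y.map (algebraMap M Ω) with hY
  have conj : ∀ A : Matrix (Fin 3) (Fin 3) Ω, (F.B'.map ψ * G) * A * (G' * F.B.map ψ) =
      F.B'.map ψ * (G * A * G') * F.B.map ψ := by
    intro A
    simp only [Matrix.mul_assoc]
  obtain ⟨f1, f2, f3, f4, f5, f6⟩ := hfr
  have hfr2 : Fr k F.l X Y (algebraMap M Ω D.H) (G' * F.B.map ψ) (F.B'.map ψ * G) := by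
    refine ⟨?_, ?_, ?_, ?_, ?_, ?_⟩
    · rw [Matrix.mul_assoc, ← Matrix.mul_assoc (F.B.map ψ), f1, Matrix.one_mul, hG'G]
    · rw [Matrix.det_mul, mul_pow, f2, D.hH g, map_mul, map_pow]
      have h1 : G.det = algebraMap M Ω (algebraMap K M g.1.1.det) := by
        rw [hG]
        have e1 : ((ext M g.1.1).map (algebraMap M Ω)).det = algebraMap M Ω (ext M g.1.1).det := by
          rw [RingHom.map_det]
          rfl
        have e2 : (ext M g.1.1).det = algebraMap K M g.1.1.det := by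
          rw [RingHom.map_det]
          rfl
        rw [e1, e2]
      rw [← h1, ← mul_assoc, ← mul_pow, ← Matrix.det_mul, hG'G, Matrix.det_one, one_pow, one_mul]
    · rw [conj, f3]
    · rw [conj, f4]
    · rw [conj, f5]
    · intro i j hij
      rw [conj]
      exact f6 i j hij
  obtain ⟨κ, t, hκ, ht, ht0, htj, hC, hdet⟩ := hNOR Ω k F.l hne _ _ _ F.B F.B' _ _ 1 hH F.fr hfr2
  have ht1 : ∀ j, t j = 1 := by
    intro j
    by_cases hj : j = 0
    · rw [hj, ht0]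
    · rw [htj j hj]
      fin_cases j
      · exact absurd rfl hj
      · exact F.fr.2.2.2.1
      · exact F.fr.2.2.2.2.1
  have hT1 : (Matrix.of fun i j => if i = (1 : Equiv.Perm (Fin 3)) j then t j else 0 :
      Matrix (Fin 3) (Fin 3) Ω) = 1 := by
    ext i j
    simp only [Matrix.of_apply, ht1, Matrix.one_apply, Equiv.Perm.one_apply]
  rw [hT1, Matrix.mul_one] at hC
  rw [hT1, Matrix.det_one, one_pow, mul_one] at hdet
  have hB'B : F.B' * F.B = 1 := mul_eq_one_comm.1 F.fr.1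
  have hC' : F.B'.map ψ * G = κ⁻¹ • F.B' := by
    symm
    refine left_inv_eq_right_inv (a := G' * F.B.map ψ) ?_ hfr2.1
    rw [hC, smul_mul_smul_comm, inv_mul_cancel₀ hκ, one_smul, hB'B]
  obtain ⟨-, -, -, -, -, -, a7, a8, -, -, a11⟩ := hACT 3 (3 * k + 1) Ω
  refine ⟨ψ, hψa, hψl, ?_, ?_⟩
  · intro i j
    have h1 : F.Yh.map ψ = F.Yh := by
      unfold FZ.Yh
      rw [Matrix.map_mul, Matrix.map_mul, hmψ _ (D.hY g), ← conj, hC, hC', smul_mul_assoc, smul_mul_smul_comm,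
        inv_mul_cancel₀ hκ, one_smul]
    have h2 : ψ (F.Yh i j) = (F.Yh.map ψ) i j := rfl
    rw [h2, h1]
  · intro p
    have h1 := congrFun (a11 Ω ψ F.B' F.B fun p => algebraMap M Ω (D.f p)) p
    have h2 : ψ (F.fh p) = act (F.B'.map ψ) (F.B.map ψ) (fun p => ψ (algebraMap M Ω (D.f p))) p := h1.symm
    have h3 : (fun p => ψ (algebraMap M Ω (D.f p))) = act G G' fun p => algebraMap M Ω (D.f p) := by
      funext q
      rw [hψa, D.hf g q]
      exact (congrFun ((hACT 3 (3 * k + 1) M).2.2.2.2.2.2.2.2.2.2 Ω (algebraMap M Ω) (ext M g.1.1) (ext M g.1.2) D.f) q).symm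
    rw [h2, h3, a7, hC, hC', act_smul hACT _ κ hκ]
    simp only
    rw [hdet, one_mul]
    rfl

end Pool.Agent.Z15.MH
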