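import Pool.Agent.Z15.MH.Stm
import Pool.Agent.Z15.ME.T_COV

set_option autoImplicit false

/-!
# Covariant rows for the generic self map of the plane
-/

namespace Pool.Agent.Z15.MH

open MvPolynomial Matrix Pool.Agent.Z15.ME

namespace FIA

/-- conjugation -/
def RAd (m : ℕ) : Rp 2 m (Fin 3 × Fin 3) where
  T := fun R _ A A' => Matrix.of fun p q => A p.1 q.1 * A' q.2 p.2
  nat := fun R S _ _ σ A A' => by
    ext p q
    simp [Matrix.map_apply]
  one := fun R _ => by
    ext ⟨i, j⟩ ⟨k, l⟩
    simp only [Matrix.of_apply, Matrix.one_apply, Prod.mk.injEq]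
    by_cases h1 : i = k
    · by_cases h2 : j = l
      · simp [h1, h2]
      · simp [h1, h2, Ne.symm h2]
    · simp [h1]
  mul := fun R _ A A' B B' _ _ => by
    ext ⟨i, j⟩ ⟨k, l⟩
    rw [Matrix.mul_apply, Matrix.of_apply, Matrix.mul_apply, Matrix.mul_apply, Finset.sum_mul_sum,
      Fintype.sum_prod_type]
    refine Finset.sum_congr rfl fun x _ => Finset.sum_congr rfl fun y _ => ?_
    simp only [Matrix.of_apply]
    ring
  scal := fun R _ z z' h _ => by
    ext ⟨i, j⟩ ⟨k, l⟩
    simp only [Matrix.of_apply, Matrix.smul_apply, Matrix.one_apply, Prod.mk.injEq, smul_eq_mul]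
    by_cases h1 : i = k
    · by_cases h2 : j = l
      · simp [h1, h2, h]
      · simp [h1, h2, Ne.symm h2]
    · simp [h1]

/-- the determinant -/
def RDet (k : ℕ) : Rp 2 (3 * k) Unit where
  T := fun R _ A A' => Matrix.of fun _ _ => A.det ^ k
  nat := fun R S _ _ σ A A' => by
    ext p q
    simp only [Matrix.of_apply, Matrix.map_apply]
    rw [map_pow, RingHom.map_det]
    rfl
  one := fun R _ => by
    ext p q
    simp [Matrix.one_apply]
  mul := fun R _ A A' B B' _ _ => by
    ext p q
    simp only [Matrix.of_apply, Matrix.mul_apply, Matrix.det_mul, mul_pow, Finset.univ_unique,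
      Finset.sum_const, Finset.card_singleton, one_smul]
  scal := fun R _ z z' h h' => by
    ext p q
    simp only [Matrix.of_apply]
    rw [Matrix.det_smul, Matrix.det_one, mul_one, Fintype.card_fin, ← pow_mul]
    show z ^ (3 * k) = (1 : Matrix Unit Unit R) p q
    rw [h']
    simp [Matrix.one_apply]

/-- the trivial representation -/
def RTr (m : ℕ) : Rp 2 m Unit where
  T := fun R _ A A' => 1
  nat := fun R S _ _ σ A A' => by
    ext p q
    simp [Matrix.one_apply]
  one := fun R _ => rfl
  mul := fun R _ A A' B B' _ _ => by rw [Matrix.mul_one]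
  scal := fun R _ z z' h h' => rfl

section transfer

variable {N m : ℕ} {s : Type} [Fintype s] [DecidableEq s] (P : Rp N m s) {K M : Type} [Field K] [Field M] [Algebra K M]

/-- the covariant rows -/
def CS (φ : GP N K → M →ₐ[K] M) : Submodule K (s → Mon (N + 1) m → M) where
  carrier := {c | CovT P φ c}
  add_mem' := by
    intro c c' hc hc' g v i
    have h1 := hc g v i
    have h2 := hc' g v i
    have e1 : ∑ β, (φ g) ((c + c') i β) * act1 (ext M g.1.2) v β =
        ∑ β, (φ g) (c i β) * act1 (ext M g.1.2) v β +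
          ∑ β, (φ g) (c' i β) * act1 (ext M g.1.2) v β := by
      rw [← Finset.sum_add_distrib]
      refine Finset.sum_congr rfl fun β _ => ?_
      simp only [Pi.add_apply, map_add]; ring
    rw [e1, h1, h2, ← Finset.sum_add_distrib]
    refine Finset.sum_congr rfl fun k _ => ?_
    rw [← mul_add, ← Finset.sum_add_distrib]
    congr 1
    refine Finset.sum_congr rfl fun β _ => ?_
    simp only [Pi.add_apply]; ring
  zero_mem' := by
    intro g v i
    simp
  smul_mem' := by
    intro t c hc g v i
    have h1 := hc g v i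
    have e1 : ∑ β, (φ g) ((t • c) i β) * act1 (ext M g.1.2) v β =
        algebraMap K M t * ∑ β, (φ g) (c i β) * act1 (ext M g.1.2) v β := by
      rw [Finset.mul_sum]
      refine Finset.sum_congr rfl fun β _ => ?_
      simp only [Pi.smul_apply, Algebra.smul_def, map_mul, AlgHom.commutes]; ring
    rw [e1, h1, Finset.mul_sum]
    refine Finset.sum_congr rfl fun k _ => ?_
    rw [mul_left_comm, Finset.mul_sum]
    congr 1
    refine Finset.sum_congr rfl fun β _ => ?_
    simp only [Pi.smul_apply, Algebra.smul_def]; ring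

theorem transfer (hACT : S_ACT) (φ : GP N K → M →ₐ[K] M) (F : IntermediateField K M)
    (ψ : GP N K → F →ₐ[K] F) (hψ : ∀ g (x : F), algebraMap F M (ψ g x) = φ g x)
    (c : s → Mon (N + 1) m → F) (hc : CovT P ψ c) : CovT P φ fun i β => algebraMap F M (c i β) := by
  classical
  have hext : ∀ g : Matrix (Fin (N + 1)) (Fin (N + 1)) K, (ext F g).map (algebraMap F M) = ext M g := by
    intro g
    ext i j
    simp [ext, Matrix.map_apply, ← IsScalarTower.algebraMap_apply]
  obtain ⟨-, -, -, -, -, hmap1F, -⟩ := hACT (N + 1) m F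
  intro g v i
  have hcj : ∀ β0, ∑ β, φ g (algebraMap F M (c i β)) * act1 (ext M g.1.2) (Pi.single β0 1) β =
      ∑ k, P.T M (ext M g.1.1) (ext M g.1.2) i k * algebraMap F M (c k β0) := by
    intro β0
    have h1 := congrArg (algebraMap F M) (hc g (Pi.single β0 1) i)
    rw [map_sum, map_sum] at h1
    have h2 : ∀ β, algebraMap F M (ψ g (c i β) * act1 (ext F g.1.2) (Pi.single β0 1) β) =
        φ g (algebraMap F M (c i β)) * act1 (ext M g.1.2) (Pi.single β0 1) β := by
      intro β
      rw [map_mul, hψ]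
      congr 1
      have h3 := congrFun (hmap1F M (algebraMap F M) (ext F g.1.2) (Pi.single β0 1)) β
      rw [hext] at h3
      rw [← h3]
      congr 1
      funext γ
      by_cases hγ : γ = β0
      · subst hγ; simp
      · simp [Pi.single_eq_of_ne hγ]
    simp only [h2] at h1
    rw [h1]
    refine Finset.sum_congr rfl fun k _ => ?_
    rw [map_mul]
    have h4 := P.nat F M (algebraMap F M) (ext F g.1.1) (ext F g.1.2)
    rw [hext, hext] at h4
    rw [h4, Matrix.map_apply]
    congr 2
    rw [Finset.sum_eq_single β0]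
    · simp
    · intro γ _ hγ; rw [Pi.single_eq_of_ne hγ, mul_zero]
    · intro hγ; exact absurd (Finset.mem_univ _) hγ
  have e1 : ∀ β, act1 (ext M g.1.2) v β =
      ∑ γ, v γ * act1 (ext M g.1.2) (Pi.single γ 1) β := COV.act1_sum hACT _ v
  calc ∑ β, φ g (algebraMap F M (c i β)) * act1 (ext M g.1.2) v β
      = ∑ β, ∑ γ, v γ * (φ g (algebraMap F M (c i β)) *
          act1 (ext M g.1.2) (Pi.single γ 1) β) := by
        refine Finset.sum_congr rfl fun β _ => ?_
        rw [e1, Finset.mul_sum]
        refine Finset.sum_congr rfl fun γ _ => ?_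
        ring
    _ = ∑ γ, v γ * ∑ k, P.T M (ext M g.1.1) (ext M g.1.2) i k * algebraMap F M (c k γ) := by
        rw [Finset.sum_comm]
        refine Finset.sum_congr rfl fun γ _ => ?_
        rw [← Finset.mul_sum, hcj]
    _ = _ := by
        simp only [Finset.mul_sum]
        rw [Finset.sum_comm]
        refine Finset.sum_congr rfl fun k _ => ?_
        refine Finset.sum_congr rfl fun γ _ => ?_
        ring

end transfer

/-- the blocks of rows -/
def sS (r : ℕ) : Bool ⊕ Option (Fin r) → Type
  | Sum.inl _ => Fin 3 × Fin 3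
  | Sum.inr _ => Unit

instance ftS (r : ℕ) : ∀ t, Fintype (sS r t)
  | Sum.inl _ => inferInstanceAs (Fintype (Fin 3 × Fin 3))
  | Sum.inr _ => inferInstanceAs (Fintype Unit)

instance deS (r : ℕ) : ∀ t, DecidableEq (sS r t)
  | Sum.inl _ => inferInstanceAs (DecidableEq (Fin 3 × Fin 3))
  | Sum.inr _ => inferInstanceAs (DecidableEq Unit)

/-- the representations -/
def pS (k r : ℕ) : ∀ t, Rp 2 (3 * k) (sS r t)
  | Sum.inl _ => RAd (3 * k)
  | Sum.inr none => RDet k
  | Sum.inr (some _) => RTr (3 * k)

theorem card_sS (r : ℕ) : Fintype.card (Σ t, sS r t) = r + 19 := by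
  rw [Fintype.card_sigma, Fintype.sum_sum_type, Fintype.sum_option, Fintype.sum_bool]
  have h1 : ∀ b, Fintype.card (sS r (Sum.inl b)) = 9 := fun b => by
    show Fintype.card (Fin 3 × Fin 3) = 9
    simp
  have h2 : ∀ b, Fintype.card (sS r (Sum.inr b)) = 1 := fun b => by
    show Fintype.card Unit = 1
    simp
  simp only [h1, h2]
  simp
  ring

theorem deg_add {n : ℕ} (α β : Fin n →₀ ℕ) : (α + β).degree = α.degree + β.degree := by
  exact map_add Finsupp.degree α β

/-- the number of monomials -/
theorem card_mon (k : ℕ) (hk : 2 ≤ k) : 19 ≤ Nat.card (Mon 3 (3 * k)) := by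
  have hd : ∀ p : {p : Fin 6 × Fin 6 // (p.1 : ℕ) + p.2 ≤ 5},
      (Finsupp.single (0 : Fin 3) (p.1.1 : ℕ) + (Finsupp.single 1 (p.1.2 : ℕ) +
        Finsupp.single 2 (3 * k - (p.1.1 : ℕ) - p.1.2))).degree = 3 * k := by
    intro p
    have h := p.2
    rw [map_add, map_add, Finsupp.degree_single, Finsupp.degree_single, Finsupp.degree_single]
    omega
  let e : {p : Fin 6 × Fin 6 // (p.1 : ℕ) + p.2 ≤ 5} → Mon 3 (3 * k) := fun p => ⟨_, hd p⟩
  have he : Function.Injective e := by
    intro p q h
    have h0 : (e p).1 = (e q).1 := congrArg Subtype.val h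
    have h1 := DFunLike.congr_fun h0 (0 : Fin 3)
    have h2 := DFunLike.congr_fun h0 (1 : Fin 3)
    simp [e, Finsupp.single_apply] at h1 h2
    apply Subtype.ext
    apply Prod.ext
    · exact Fin.ext (by simpa using h1)
    · exact Fin.ext (by simpa using h2)
  have h1 := Nat.card_le_card_of_injective e he
  have h2 : Nat.card {p : Fin 6 × Fin 6 // (p.1 : ℕ) + p.2 ≤ 5} = 21 := by
    rw [Nat.card_eq_fintype_card]
    decide
  omega

end FIA

open FIA in
theorem t_FIA (hSPX : S_SPX) (hSLG : S_SLG) (hAIZ : S_AIZ) (hACT : ME.S_ACT) (hDVA : ME.S_DVA) :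
    S_FIA := by
  classical
  intro k hk K M _ _ _ _ f0 hf0 φ hφ0
  obtain ⟨hf, -, hφ, -⟩ := hAIZ 2 (3 * k) le_rfl (by omega) K M f0 hf0 φ hφ0
  obtain ⟨f, hff⟩ : ∃ f : Ix 2 (3 * k) → M, f = part2 f0 := ⟨_, rfl⟩
  rw [← hff] at hf hφ
  simp only [← hff]
  set F := IntermediateField.adjoin K (Set.range f) with hF
  have hfF : ∀ p, f p ∈ F := fun p => IntermediateField.subset_adjoin K _ ⟨p, rfl⟩
  set fF : Ix 2 (3 * k) → F := fun p => ⟨f p, hfF p⟩ with hfFdef
  have hval : ∀ p, algebraMap F M (fF p) = f p := fun p => rfl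
  have hext : ∀ g : Matrix (Fin (2 + 1)) (Fin (2 + 1)) K, (ext F g).map (algebraMap F M) = ext M g := by
    intro g
    ext i j
    simp [Matrix.map_apply, ← IsScalarTower.algebraMap_apply]
  obtain ⟨-, -, -, -, -, -, -, -, -, -, hmapF⟩ := hACT (2 + 1) (3 * k + 1) F
  -- the action on `F`
  have hactF : ∀ (g : GP 2 K) p, algebraMap F M (act (ext F g.1.1) (ext F g.1.2) fF p) =
      act (ext M g.1.1) (ext M g.1.2) f p := by
    intro g p
    have := congrFun (hmapF M (algebraMap F M) (ext F g.1.1) (ext F g.1.2) fF) p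
    rw [hext, hext] at this
    exact this.symm
  have hφF : ∀ (g : GP 2 K) (x : F), φ g x ∈ F := by
    intro g x
    have h1 : F.map (φ g) ≤ F := by
      rw [hF, IntermediateField.adjoin_map, IntermediateField.adjoin_le_iff]
      rintro _ ⟨_, ⟨p, rfl⟩, rfl⟩
      have h2 : φ g (f p) ∈ F := by
        rw [hφ g p, ← hactF g p]
        exact (act (ext F g.1.1) (ext F g.1.2) fF p).2
      exact h2
    exact h1 ⟨x, x.2, rfl⟩
  let ψ : GP 2 K → F →ₐ[K] F := fun g => ((φ g).comp F.val).codRestrict F.toSubalgebra (hφF g)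
  have hψ : ∀ g (x : F), algebraMap F M (ψ g x) = φ g x := fun g x => rfl
  have hActs : Acts 2 (3 * k + 1) ψ fF := by
    intro g p
    apply (algebraMap F M).injective
    rw [hψ, hactF]
    exact hφ g p
  -- generic
  have hgen : Gen 2 (3 * k) K F fF := by
    constructor
    · have h1 := (hDVA (2 + 1) (3 * k) F).2.2 M (algebraMap F M) fF
      have h2 : (fun p => algebraMap F M (fF p)) = f := rfl
      rw [h2, hf.1] at h1
      funext β
      apply (algebraMap F M).injective
      have := congrFun h1 β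
      simp only [Pi.zero_apply] at this
      rw [← this]; simp
    · exact AlgebraicIndependent.of_comp F.val hf.2
  have htop : IntermediateField.adjoin K (Set.range fF) = ⊤ := by
    apply IntermediateField.lift_injective F
    rw [IntermediateField.lift_adjoin, IntermediateField.lift_top, ← Set.range_comp]
    rfl
  obtain ⟨r, hr⟩ : ∃ r : ℕ, r + 19 = Nat.card (Mon 3 (3 * k)) :=
    ⟨Nat.card (Mon 3 (3 * k)) - 19, by have := card_mon k hk; omega⟩
  have hspan : ∀ t, Submodule.span F ((CS (pS k r t) ψ : Submodule K (sS r t → Mon (2 + 1) (3 * k) → F)) :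
      Set (sS r t → Mon (2 + 1) (3 * k) → F)) = ⊤ := by
    intro t
    exact hSPX 2 (3 * k) (sS r t) (pS k r t) le_rfl (by omega) K F fF hgen htop ψ hActs
  have hcard : Fintype.card (Σ t, sS r t) ≤ Fintype.card (Mon (2 + 1) (3 * k)) := by
    rw [card_sS, ← Nat.card_eq_fintype_card]
    exact hr.le
  obtain ⟨c, hc, hli⟩ := hSLG K F (Bool ⊕ Option (Fin r)) (sS r) (Mon (2 + 1) (3 * k))
    (fun t => CS (pS k r t) ψ) hspan hcard
  have hcM : ∀ t, CovT (pS k r t) φ fun i β => algebraMap F M (c t i β) := fun t =>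
    transfer (pS k r t) hACT φ F ψ hψ (c t) (hc t)
  refine ⟨r, fun p β => algebraMap F M (c (Sum.inl false) p β),
    fun p β => algebraMap F M (c (Sum.inl true) p β),
    fun β => algebraMap F M (c (Sum.inr none) () β),
    fun t β => algebraMap F M (c (Sum.inr (some t)) () β),
    fun p β => (c (Sum.inl false) p β).2, fun p β => (c (Sum.inl true) p β).2,
    fun β => (c (Sum.inr none) () β).2, fun t β => (c (Sum.inr (some t)) () β).2, ?_, ?_, ?_, ?_, hr, ?_⟩
  · intro g v i j
    have h := hcM (Sum.inl false) g v (i, j)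
    refine h.trans ?_
    show ∑ q : Fin 3 × Fin 3, (ext M g.1.1 i q.1 * ext M g.1.2 q.2 j) *
      ∑ β, algebraMap F M (c (Sum.inl false) q β) * v β = _
    rw [Fintype.sum_prod_type]
    refine Finset.sum_congr rfl fun a _ => Finset.sum_congr rfl fun b _ => ?_
    ring
  · intro g v i j
    have h := hcM (Sum.inl true) g v (i, j)
    refine h.trans ?_
    show ∑ q : Fin 3 × Fin 3, (ext M g.1.1 i q.1 * ext M g.1.2 q.2 j) *
      ∑ β, algebraMap F M (c (Sum.inl true) q β) * v β = _
    rw [Fintype.sum_prod_type]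
    refine Finset.sum_congr rfl fun a _ => Finset.sum_congr rfl fun b _ => ?_
    ring
  · intro g v
    have h := hcM (Sum.inr none) g v ()
    refine h.trans ?_
    show ∑ q : Unit, ((ext M g.1.1).det ^ k) *
      ∑ β, algebraMap F M (c (Sum.inr none) q β) * v β = _
    rw [Fintype.sum_unique]
    have e1 : (ext M g.1.1).det = algebraMap K M g.1.1.det := (RingHom.map_det (algebraMap K M) g.1.1).symm
    rw [e1]
  · intro g v t
    have h := hcM (Sum.inr (some t)) g v ()
    refine h.trans ?_
    show ∑ q : Unit, ((1 : Matrix Unit Unit M) () q) *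
      ∑ β, algebraMap F M (c (Sum.inr (some t)) q β) * v β = _
    rw [Fintype.sum_unique]
    show ((1 : Matrix Unit Unit M) () ()) *
      ∑ β, algebraMap F M (c (Sum.inr (some t)) () β) * v β = _
    rw [Matrix.one_apply_eq, one_mul]
  · have h1 := COV.li_ext (M := M) _ hli
    let e : ((Fin 3 × Fin 3) ⊕ (Fin 3 × Fin 3) ⊕ Unit ⊕ Fin r) → (Σ t, sS r t) := fun x =>
      match x with
      | Sum.inl p => ⟨Sum.inl false, p⟩
      | Sum.inr (Sum.inl p) => ⟨Sum.inl true, p⟩
      | Sum.inr (Sum.inr (Sum.inl u)) => ⟨Sum.inr none, u⟩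
      | Sum.inr (Sum.inr (Sum.inr t)) => ⟨Sum.inr (some t), ()⟩
    have he : Function.Injective e := by
      rintro (p | p | u | t) (p' | p' | u' | t') h
      · have h2 := eq_of_heq (Sigma.mk.inj h).2
        rw [h2]
      · have h2 := (Sigma.mk.inj h).1
        simp at h2
      · have h2 := (Sigma.mk.inj h).1
        simp at h2
      · have h2 := (Sigma.mk.inj h).1
        simp at h2
      · have h2 := (Sigma.mk.inj h).1
        simp at h2
      · have h2 := eq_of_heq (Sigma.mk.inj h).2
        rw [h2]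
      · have h2 := (Sigma.mk.inj h).1
        simp at h2
      · have h2 := (Sigma.mk.inj h).1
        simp at h2
      · have h2 := (Sigma.mk.inj h).1
        simp at h2
      · have h2 := (Sigma.mk.inj h).1
        simp at h2
      · rfl
      · have h2 := (Sigma.mk.inj h).1
        simp at h2
      · have h2 := (Sigma.mk.inj h).1
        simp at h2
      · have h2 := (Sigma.mk.inj h).1
        simp at h2
      · have h2 := (Sigma.mk.inj h).1
        simp at h2
      · have h2 := (Sigma.mk.inj h).1
        simp at h2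
        rw [h2]
    have h2 := h1.comp e he
    have h3 : (Sum.elim (fun (p : Fin 3 × Fin 3) β => algebraMap F M (c (Sum.inl false) p β))
        (Sum.elim (fun (p : Fin 3 × Fin 3) β => algebraMap F M (c (Sum.inl true) p β))
          (Sum.elim (fun (_ : Unit) β => algebraMap F M (c (Sum.inr none) () β))
            fun (t : Fin r) β => algebraMap F M (c (Sum.inr (some t)) () β))) :
        ((Fin 3 × Fin 3) ⊕ (Fin 3 × Fin 3) ⊕ Unit ⊕ Fin r) → Mon (2 + 1) (3 * k) → M) =
        (fun (o : Σ t, sS r t) β => algebraMap F M (c o.1 o.2 β)) ∘ e := by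
      funext x
      rcases x with p | p | u | t <;> rfl
    exact h3 ▸ h2

end Pool.Agent.Z15.MH
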