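import Pool.Agent.Z15.MH.Stm

set_option autoImplicit false

/-! Project MH (owner helper15), task FIZ (helper18): the structure `DZ` for the generic self map. -/

namespace Pool.Agent.Z15.MH

open MvPolynomial Matrix Pool.Agent.Z15.ME

namespace FIZ

theorem dv_part2 {N m : ℕ} {M : Type} [Field M] (hDVA : ME.S_DVA) (hEMB : ME.S_EMB) [CharZero M]
    (f : Ix N m → M) : dv (part2 f) = 0 := by
  obtain ⟨-, hlin, -⟩ := hDVA (N + 1) m M
  obtain ⟨hemb, -⟩ := hEMB (N + 1) m M
  have h1 := hlin f (emb (dv f)) 1 (-((N + 1 + m : ℕ) : M)⁻¹)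
  have e : (fun p => 1 * f p + -((N + 1 + m : ℕ) : M)⁻¹ * emb (dv f) p) = part2 f := by
    funext p; simp only [part2]; ring
  rw [e, hemb] at h1
  rw [h1]
  funext β
  have : ((N + 1 + m : ℕ) : M) ≠ 0 := by
    rw [Nat.cast_ne_zero]; omega
  simp only [Pi.zero_apply]
  field_simp
  ring

/-- three by three matrix products -/
theorem mul3 {M : Type} [Field M] (A X B : Matrix (Fin 3) (Fin 3) M) (i j : Fin 3) :
    (A * X * B) i j = ∑ a, ∑ b, A i a * X a b * B b j := by
  rw [Matrix.mul_apply, Finset.sum_comm]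
  refine Finset.sum_congr rfl fun b _ => ?_
  rw [Matrix.mul_apply, Finset.sum_mul]

theorem phi_sum {J M : Type} [Fintype J] [Field M] {K : Type} [Field K] [Algebra K M] (φ : M →ₐ[K] M)
    (c v w : J → M) (h : ∀ β, φ (v β) = w β) : φ (∑ β, c β * v β) = ∑ β, φ (c β) * w β := by
  rw [map_sum]
  refine Finset.sum_congr rfl fun β _ => ?_
  rw [map_mul, h]

end FIZ

open FIZ in
theorem t_FIZ (hFIA : S_FIA) (hAIZ : S_AIZ) (hAIL : ME.S_AIL) (hSEC : ME.S_SEC) (hDVA : ME.S_DVA)
    (hEMB : ME.S_EMB) (_hACT : ME.S_ACT) : S_FIZ := by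
  intro k hk K M _ _ _ _ f hf htop φ hφ
  have : CharZero M := charZero_of_injective_algebraMap (algebraMap K M).injective
  obtain ⟨r, cX, cY, cH, cZ, mX, mY, mH, mZ, tX, tY, tH, tZ, hcard, hli⟩ := hFIA k hk K M f hf φ hφ
  obtain ⟨hgen, hind, hacts, hdvφ⟩ := hAIZ 2 (3 * k) le_rfl (by omega) K M f hf φ hφ
  have hdv2 := dv_part2 (M := M) hDVA hEMB f
  obtain ⟨T, -, hT⟩ := hSEC 2 (3 * k)
  -- the rows over `F`
  let w : (Fin 3 × Fin 3) ⊕ (Fin 3 × Fin 3) ⊕ Unit ⊕ Fin r → Mon 3 (3 * k) →
      IntermediateField.adjoin K (Set.range (part2 f)) :=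
    Sum.elim (fun p β => ⟨cX p β, mX p β⟩) (Sum.elim (fun p β => ⟨cY p β, mY p β⟩)
      (Sum.elim (fun _ β => ⟨cH β, mH β⟩) (fun t β => ⟨cZ t β, mZ t β⟩)))
  have hw : LinearIndependent (IntermediateField.adjoin K (Set.range (part2 f))) w := by
    have h1 := hli.restrict_scalars (R := IntermediateField.adjoin K (Set.range (part2 f)))
      (fun x y h => by simpa [Algebra.smul_def] using h)
    let L : (Mon 3 (3 * k) → IntermediateField.adjoin K (Set.range (part2 f)))
        →ₗ[IntermediateField.adjoin K (Set.range (part2 f))] (Mon 3 (3 * k) → M) :=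
      { toFun := fun w β => (w β : M)
        map_add' := fun _ _ => rfl
        map_smul' := fun _ _ => rfl }
    refine LinearIndependent.of_comp L ?_
    have h2 : (⇑L ∘ w) = Sum.elim cX (Sum.elim cY (Sum.elim (fun _ : Unit => cH) cZ)) := by
      funext o β
      rcases o with o | o | o | o <;> rfl
    rw [h2]
    exact h1
  -- the values
  obtain ⟨val, hval⟩ : ∃ val : (Fin 3 × Fin 3) ⊕ (Fin 3 × Fin 3) ⊕ Unit ⊕ Fin r → M,
      val = fun o => ∑ β, algebraMap (IntermediateField.adjoin K (Set.range (part2 f))) M (w o β) *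
        dv f β := ⟨_, rfl⟩
  have hvi : AlgebraicIndependent (IntermediateField.adjoin K (Set.range (part2 f))) val := by
    rw [hval]
    exact hAIL _ M (Mon 3 (3 * k)) _ (dv f) w hind hw
  let X : Matrix (Fin 3) (Fin 3) M := Matrix.of fun i j => ∑ β, cX (i, j) β * dv f β
  let Y : Matrix (Fin 3) (Fin 3) M := Matrix.of fun i j => ∑ β, cY (i, j) β * dv f β
  let H : M := ∑ β, cH β * dv f β
  let Z : Fin r → M := fun t => ∑ β, cZ t β * dv f β
  have hvale : val = Sum.elim (fun p : Fin 3 × Fin 3 => X p.1 p.2)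
      (Sum.elim (fun p : Fin 3 × Fin 3 => Y p.1 p.2) (Sum.elim (fun _ => H) Z)) := by
    rw [hval]
    funext o
    rcases o with o | o | o | o <;> rfl
  -- independence
  have htow : AlgebraicIndependent K (Sum.elim val fun j : J2 2 (3 * k) => part2 f j.1) := by
    refine hgen.2.sumElim_of_tower ?_ hvi
    rintro _ ⟨j, rfl⟩
    exact ⟨⟨part2 f j.1, IntermediateField.subset_adjoin K _ ⟨j.1, rfl⟩⟩, rfl⟩
  have hcoo : coo (part2 f) X Y H Z = (Sum.elim val fun j : J2 2 (3 * k) => part2 f j.1) ∘ Sum.swap := by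
    funext o
    rcases o with o | o
    · rfl
    · rw [hvale]
      rfl
  have hi : AlgebraicIndependent K (coo (part2 f) X Y H Z) := by
    rw [hcoo]
    exact htow.comp _ Sum.swap_leftInverse.injective
  -- generation
  have hg : IntermediateField.adjoin K (Set.range (coo (part2 f) X Y H Z)) = ⊤ := by
    obtain ⟨A, hA⟩ : ∃ A : IntermediateField K M,
      A = IntermediateField.adjoin K (Set.range (coo (part2 f) X Y H Z)) := ⟨_, rfl⟩
    rw [← hA]
    have a1 : ∀ j : J2 2 (3 * k), part2 f j.1 ∈ A := fun j => by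
      rw [hA]
      exact IntermediateField.subset_adjoin K _ ⟨Sum.inl j, rfl⟩
    have a2 : ∀ o, val o ∈ A := fun o => by
      rw [hA]
      refine IntermediateField.subset_adjoin K _ ⟨Sum.inr o, ?_⟩
      rw [hvale]
      rfl
    have a3 : ∀ p, part2 f p ∈ A := by
      intro p
      rw [(hT M (part2 f)).1 hdv2 p]
      exact sum_mem fun j _ => mul_mem (SubfieldClass.ratCast_mem A (T p j)) (a1 j)
    have a4 : IntermediateField.adjoin K (Set.range (part2 f)) ≤ A := by
      rw [IntermediateField.adjoin_le_iff]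
      rintro _ ⟨p, rfl⟩
      exact a3 p
    have a5 : Submodule.span (IntermediateField.adjoin K (Set.range (part2 f))) (Set.range w) = ⊤ := by
      refine hw.span_eq_top_of_card_eq_finrank' ?_
      rw [Module.finrank_fintype_fun_eq_card, ← Nat.card_eq_fintype_card (α := Mon 3 (3 * k)), ← hcard]
      simp only [Fintype.card_sum, Fintype.card_prod, Fintype.card_fin, Fintype.card_unit]
      omega
    have a6 : ∀ u : Mon 3 (3 * k) → IntermediateField.adjoin K (Set.range (part2 f)),
        ∑ β, (u β : M) * dv f β ∈ A := by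
      intro u
      have hu : u ∈ Submodule.span (IntermediateField.adjoin K (Set.range (part2 f))) (Set.range w) := by
        rw [a5]
        exact Submodule.mem_top
      induction hu using Submodule.span_induction with
      | mem x hx =>
        obtain ⟨o, rfl⟩ := hx
        have := a2 o
        rw [hval] at this
        exact this
      | zero => simp
      | add x y _ _ hx hy =>
        have e : ∑ β, (((x + y) β : IntermediateField.adjoin K (Set.range (part2 f))) : M) * dv f β =
            ∑ β, (x β : M) * dv f β + ∑ β, (y β : M) * dv f β := by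
          rw [← Finset.sum_add_distrib]
          refine Finset.sum_congr rfl fun β _ => ?_
          rw [← add_mul]
          rfl
        rw [e]
        exact add_mem hx hy
      | smul c x _ hx =>
        have e : ∑ β, (((c • x) β : IntermediateField.adjoin K (Set.range (part2 f))) : M) * dv f β =
            (c : M) * ∑ β, (x β : M) * dv f β := by
          rw [Finset.mul_sum]
          refine Finset.sum_congr rfl fun β _ => ?_
          rw [← mul_assoc]
          rfl
        rw [e]
        exact mul_mem (a4 c.2) hx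
    have a7 : ∀ β, dv f β ∈ A := by
      intro β
      classical
      have h1 := a6 (Pi.single β 1)
      have e : ∑ β', ((Pi.single β (1 : IntermediateField.adjoin K (Set.range (part2 f))) :
          Mon 3 (3 * k) → IntermediateField.adjoin K (Set.range (part2 f))) β' : M) * dv f β' = dv f β := by
        rw [Finset.sum_eq_single β]
        · rw [Pi.single_eq_same]
          simp
        · intro b _ hb
          rw [Pi.single_eq_of_ne hb]
          simp
        · intro h
          exact absurd (Finset.mem_univ _) h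
      rw [e] at h1
      exact h1
    have a8 : ∀ p, emb (dv f) p ∈ A := by
      intro p
      have h1 := (hEMB (2 + 1) (3 * k) A).2.2.2 M (algebraMap A M) (fun β => ⟨dv f β, a7 β⟩)
      have h2 := congrFun h1 p
      have h3 : (fun β => algebraMap A M (⟨dv f β, a7 β⟩ : A)) = dv f := rfl
      rw [h3] at h2
      rw [h2]
      exact (emb (fun β => (⟨dv f β, a7 β⟩ : A)) p).2
    have a9 : ∀ p, f p ∈ A := by
      intro p
      have e : f p = part2 f p + ((2 + 1 + 3 * k : ℕ) : M)⁻¹ * emb (dv f) p := by
        simp only [part2]; ring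
      rw [e]
      exact add_mem (a3 p) (mul_mem (inv_mem (natCast_mem A _)) (a8 p))
    rw [eq_top_iff, ← htop, IntermediateField.adjoin_le_iff]
    rintro _ ⟨p, rfl⟩
    exact a9 p
  refine ⟨r, ⟨by omega, part2 f, X, Y, H, Z, hdv2, hi, hg, φ, hacts, ?_, ?_, ?_, ?_⟩, rfl⟩
  · intro g
    ext i j
    rw [Matrix.map_apply, mul3]
    show φ g (∑ β, cX (i, j) β * dv f β) = _
    rw [phi_sum (φ g) _ _ _ (hdvφ g), tX g (dv f) i j]
    rfl
  · intro g
    ext i j
    rw [Matrix.map_apply, mul3]
    show φ g (∑ β, cY (i, j) β * dv f β) = _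
    rw [phi_sum (φ g) _ _ _ (hdvφ g), tY g (dv f) i j]
    rfl
  · intro g
    show φ g (∑ β, cH β * dv f β) = _
    rw [phi_sum (φ g) _ _ _ (hdvφ g), tH g (dv f)]
  · intro g t
    show φ g (∑ β, cZ t β * dv f β) = _
    rw [phi_sum (φ g) _ _ _ (hdvφ g), tZ g (dv f) t]

end Pool.Agent.Z15.MH
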