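import Pool.Agent.Z15.MH.Stm

set_option autoImplicit false

/-!
# Self maps of the plane of degree `3 k + 1`: task FMA
-/

namespace Pool.Agent.Z15.MH

open MvPolynomial Matrix Pool.Agent.Z15.ME

namespace FMA

theorem perm_cases (P : Fin 3 → Fin 3 → Fin 3 → Prop) (h1 : P 0 1 2) (h2 : P 0 2 1) (h3 : P 1 0 2)
    (h4 : P 1 2 0) (h5 : P 2 0 1) (h6 : P 2 1 0) (π : Equiv.Perm (Fin 3)) : P (π 0) (π 1) (π 2) := by
  have key : ∀ a b c : Fin 3, a ≠ b → a ≠ c → b ≠ c → P a b c := by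
    intro a b c h12 h13 h23
    fin_cases a <;> fin_cases b <;> fin_cases c <;>
      first
        | exact absurd rfl h12
        | exact absurd rfl h13
        | exact absurd rfl h23
        | exact h1
        | exact h2
        | exact h3
        | exact h4
        | exact h5
        | exact h6
  exact key _ _ _ (fun h => absurd (π.injective h) (by decide)) (fun h => absurd (π.injective h) (by decide))
    (fun h => absurd (π.injective h) (by decide))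

theorem desc (hEXT : S_EXT) (hGAL : ME.S_GAL) {k r : ℕ} {K M : Type} [Field K] [CharZero K] [Field M]
    [Algebra K M] (D : DZ k r K M) (Ω : Type) [Field Ω] [Algebra M Ω] [Algebra K Ω] [IsScalarTower K M Ω]
    [IsAlgClosed Ω] [Algebra.IsAlgebraic M Ω] (F : FZ D Ω) (w : Ω) (hσ : ∀ σ : Ω ≃ₐ[M] Ω, σ w = w)
    (hψ : ∀ ψ : Ω →+* Ω, (∀ i, ψ (F.l i) = F.l i) → (∀ i j, ψ (F.Yh i j) = F.Yh i j) → ψ w = w) :
    ∃ x : M, algebraMap M Ω x = w ∧ ∀ g, D.φ g x = x := by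
  have : CharZero M := charZero_of_injective_algebraMap (algebraMap K M).injective
  obtain ⟨x, hx⟩ := hGAL M Ω w hσ
  refine ⟨x, hx, fun g => ?_⟩
  obtain ⟨ψ, h1, h2, h3, h4⟩ := hEXT k r K M D Ω F g
  apply (algebraMap M Ω).injective
  rw [← h1, hx, hψ ψ h2 h3]

end FMA

theorem t_FMA (hROT : S_ROT) (hEXT : S_EXT) (hGAL : ME.S_GAL) (hSIX : S_SIX) : S_FMA := by
  intro k r K M _ _ _ _ D Ω _ _ _ _ _ _ F
  obtain ⟨-, hne, -⟩ := hSIX k r K M D Ω F.l F.hl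
  have hact : ∀ σ : Ω ≃ₐ[M] Ω, ∃ π : Equiv.Perm (Fin 3), (∀ i, σ (F.l i) = F.l (π i)) ∧
      (∀ i, σ (F.Yh i i) = F.Yh (π i) (π i)) ∧
      (∀ i j, σ (F.Yh i j) * σ (F.Yh j i) = F.Yh (π i) (π j) * F.Yh (π j) (π i)) ∧
      (∀ i j m, σ (F.Yh i j) * σ (F.Yh j m) * σ (F.Yh m i) =
        F.Yh (π i) (π j) * F.Yh (π j) (π m) * F.Yh (π m) (π i)) := by
    intro σ
    obtain ⟨π, t, h1, -, ht, h2, -⟩ := hROT k r K M D Ω F σ
    refine ⟨π, h1, fun i => ?_, fun i j => ?_, fun i j m => ?_⟩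
    · have := ht i
      rw [h2]; field_simp
    · have := ht i
      have := ht j
      rw [h2, h2]; field_simp
    · have := ht i
      have := ht j
      have := ht m
      rw [h2, h2, h2]; field_simp
  have hT : ∀ a : ℕ, ∃ x : M, algebraMap M Ω x = ∑ i, F.l i ^ a * F.Yh i i ∧ ∀ g, D.φ g x = x := by
    intro a
    apply FMA.desc hEXT hGAL D Ω F
    · intro σ
      obtain ⟨π, h1, h2, -, -⟩ := hact σ
      rw [map_sum]
      simp only [map_mul, map_pow, h1, h2]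
      exact Equiv.sum_comp π (fun i => F.l i ^ a * F.Yh i i)
    · intro ψ h1 h2
      simp only [map_sum, map_mul, map_pow, h1, h2]
  have hU : ∀ a : ℕ, ∃ x : M, algebraMap M Ω x = F.l 0 ^ a * (F.Yh 1 2 * F.Yh 2 1) +
      F.l 1 ^ a * (F.Yh 2 0 * F.Yh 0 2) + F.l 2 ^ a * (F.Yh 0 1 * F.Yh 1 0) ∧ ∀ g, D.φ g x = x := by
    intro a
    apply FMA.desc hEXT hGAL D Ω F
    · intro σ
      obtain ⟨π, h1, -, h2, -⟩ := hact σ
      simp only [map_add, map_mul, map_pow, h1, h2]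
      refine FMA.perm_cases (fun x y z => F.l x ^ a * (F.Yh y z * F.Yh z y) +
        F.l y ^ a * (F.Yh z x * F.Yh x z) + F.l z ^ a * (F.Yh x y * F.Yh y x) =
        F.l 0 ^ a * (F.Yh 1 2 * F.Yh 2 1) + F.l 1 ^ a * (F.Yh 2 0 * F.Yh 0 2) +
        F.l 2 ^ a * (F.Yh 0 1 * F.Yh 1 0)) ?_ ?_ ?_ ?_ ?_ ?_ π <;> (beta_reduce; ring)
    · intro ψ h1 h2
      simp only [map_add, map_mul, map_pow, h1, h2]
  have hW0 : ∃ x : M, algebraMap M Ω x = F.Yh 0 1 * F.Yh 1 2 * F.Yh 2 0 + F.Yh 0 2 * F.Yh 2 1 * F.Yh 1 0 ∧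
      ∀ g, D.φ g x = x := by
    apply FMA.desc hEXT hGAL D Ω F
    · intro σ
      obtain ⟨π, -, -, -, h2⟩ := hact σ
      simp only [map_add, map_mul, h2]
      refine FMA.perm_cases (fun x y z => F.Yh x y * F.Yh y z * F.Yh z x + F.Yh x z * F.Yh z y * F.Yh y x =
        F.Yh 0 1 * F.Yh 1 2 * F.Yh 2 0 + F.Yh 0 2 * F.Yh 2 1 * F.Yh 1 0) ?_ ?_ ?_ ?_ ?_ ?_ π <;>
        (beta_reduce; ring)
    · intro ψ h1 h2
      simp only [map_add, map_mul, h2]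
  have hW1 : ∃ x : M, algebraMap M Ω x = (F.Yh 0 1 * F.Yh 1 2 * F.Yh 2 0 - F.Yh 0 2 * F.Yh 2 1 * F.Yh 1 0) /
      ((F.l 0 - F.l 1) * (F.l 1 - F.l 2) * (F.l 2 - F.l 0)) ∧ ∀ g, D.φ g x = x := by
    apply FMA.desc hEXT hGAL D Ω F
    · intro σ
      obtain ⟨π, h1, -, -, h2⟩ := hact σ
      simp only [map_div₀, map_sub, map_mul, h1, h2]
      have hd : ∀ i j : Fin 3, i ≠ j → F.l i - F.l j ≠ 0 := fun i j h => sub_ne_zero.2 (hne i j h)
      refine FMA.perm_cases (fun x y z => (F.Yh x y * F.Yh y z * F.Yh z x - F.Yh x z * F.Yh z y * F.Yh y x) /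
        ((F.l x - F.l y) * (F.l y - F.l z) * (F.l z - F.l x)) =
        (F.Yh 0 1 * F.Yh 1 2 * F.Yh 2 0 - F.Yh 0 2 * F.Yh 2 1 * F.Yh 1 0) /
          ((F.l 0 - F.l 1) * (F.l 1 - F.l 2) * (F.l 2 - F.l 0))) ?_ ?_ ?_ ?_ ?_ ?_ π <;>
        (beta_reduce
         rw [div_eq_div_iff (mul_ne_zero (mul_ne_zero (hd _ _ (by decide)) (hd _ _ (by decide))) (hd _ _ (by decide)))
          (mul_ne_zero (mul_ne_zero (hd _ _ (by decide)) (hd _ _ (by decide))) (hd _ _ (by decide)))]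
         try ring)
    · intro ψ h1 h2
      simp only [map_div₀, map_sub, map_mul, h1, h2]
  choose T hT1 hT2 using hT
  choose U hU1 hU2 using hU
  obtain ⟨W0, hW01, hW02⟩ := hW0
  obtain ⟨W1, hW11, hW12⟩ := hW1
  refine ⟨fun a => T a, fun a => U a, ![W0, W1], fun a g => hT2 a g, fun a g => hU2 a g, ?_, fun a => hT1 a,
    fun a => hU1 a, ?_, ?_⟩
  · intro a g
    fin_cases a
    · exact hW02 g
    · exact hW12 g
  · exact hW01
  · have h0 : (F.l 0 - F.l 1) * (F.l 1 - F.l 2) * (F.l 2 - F.l 0) ≠ 0 :=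
      mul_ne_zero (mul_ne_zero (sub_ne_zero.2 (hne _ _ (by decide))) (sub_ne_zero.2 (hne _ _ (by decide))))
        (sub_ne_zero.2 (hne _ _ (by decide)))
    have : algebraMap M Ω (![W0, W1] 1) = (F.Yh 0 1 * F.Yh 1 2 * F.Yh 2 0 - F.Yh 0 2 * F.Yh 2 1 * F.Yh 1 0) /
      ((F.l 0 - F.l 1) * (F.l 1 - F.l 2) * (F.l 2 - F.l 0)) := hW11
    rw [this, div_mul_cancel₀ _ h0]

end Pool.Agent.Z15.MH
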