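import Pool.Agent.Z15.MH.Stm

set_option autoImplicit false

/-!
# Ten invariants (Formanek)
-/

namespace Pool.Agent.Z15.MH

open MvPolynomial Matrix Pool.Agent.Z15.ME

namespace FMKx

/-- the coefficients of a cubic polynomial with given roots -/
lemma coeffs {Ω : Type} [Field Ω] (l : Fin 3 → Ω) :
    (∏ i, (Polynomial.X - Polynomial.C (l i)) : Polynomial Ω) =
      Polynomial.X ^ 3 + Polynomial.C (-(l 0 + l 1 + l 2)) * Polynomial.X ^ 2 +
        Polynomial.C (l 0 * l 1 + l 1 * l 2 + l 0 * l 2) * Polynomial.X + Polynomial.C (-(l 0 * l 1 * l 2)) := by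
  rw [Fin.prod_univ_three]
  simp only [map_neg, map_add, map_mul]
  ring

lemma coeff0 {Ω : Type} [Field Ω] (l : Fin 3 → Ω) :
    (∏ i, (Polynomial.X - Polynomial.C (l i)) : Polynomial Ω).coeff 0 = -(l 0 * l 1 * l 2) := by
  rw [coeffs]
  simp [Polynomial.coeff_X]

lemma coeff1 {Ω : Type} [Field Ω] (l : Fin 3 → Ω) :
    (∏ i, (Polynomial.X - Polynomial.C (l i)) : Polynomial Ω).coeff 1 = l 0 * l 1 + l 1 * l 2 + l 0 * l 2 := by
  rw [coeffs]
  simp only [Polynomial.coeff_add, Polynomial.coeff_C_mul, Polynomial.coeff_X_pow, Polynomial.coeff_C, Polynomial.coeff_X]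
  norm_num

lemma coeff2 {Ω : Type} [Field Ω] (l : Fin 3 → Ω) :
    (∏ i, (Polynomial.X - Polynomial.C (l i)) : Polynomial Ω).coeff 2 = -(l 0 + l 1 + l 2) := by
  rw [coeffs]
  simp only [Polynomial.coeff_add, Polynomial.coeff_C_mul, Polynomial.coeff_X_pow, Polynomial.coeff_C, Polynomial.coeff_X]
  norm_num

/-- the coefficients of the characteristic polynomial are invariant -/
lemma inv {k r : ℕ} {K M : Type} [Field K] [CharZero K] [Field M] [Algebra K M] (D : DZ k r K M) (g : GP 2 K) (i : ℕ) :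
    D.φ g (D.X.charpoly.coeff i) = D.X.charpoly.coeff i := by
  have h1 : (D.X.map (D.φ g)).charpoly = D.X.charpoly.map (D.φ g : M →+* M) :=
    Matrix.charpoly_map D.X (D.φ g : M →+* M)
  have h2 : ext M g.1.1 * ext M g.1.2 = 1 := by
    rw [← Matrix.map_mul, g.2]
    simp
  have h3 : ext M g.1.2 * ext M g.1.1 = 1 := _root_.mul_eq_one_comm.1 h2
  have h4 : (D.X.map (D.φ g)).charpoly = D.X.charpoly := by
    rw [D.hX g, Matrix.charpoly_mul_comm, ← Matrix.mul_assoc, h3, Matrix.one_mul]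
  rw [h1] at h4
  calc D.φ g (D.X.charpoly.coeff i) = (D.X.charpoly.map (D.φ g : M →+* M)).coeff i := by
        rw [Polynomial.coeff_map]; rfl
    _ = _ := by rw [h4]

/-- solution of a Vandermonde system -/
lemma vand {Ω : Type} [Field Ω] {S : Type} [SetLike S Ω] [SubfieldClass S Ω] (E : S) (a b c x y z : Ω)
    (ha : a ∈ E) (hb : b ∈ E) (hc : c ∈ E) (h0 : x + y + z ∈ E) (h1 : a * x + b * y + c * z ∈ E)
    (h2 : a ^ 2 * x + b ^ 2 * y + c ^ 2 * z ∈ E) (hab : a ≠ b) (hac : a ≠ c) : x ∈ E := by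
  have h3 : x = ((a ^ 2 * x + b ^ 2 * y + c ^ 2 * z) - (b + c) * (a * x + b * y + c * z) + b * c * (x + y + z)) /
      ((a - b) * (a - c)) := by
    have e1 : a - b ≠ 0 := sub_ne_zero.2 hab
    have e2 : a - c ≠ 0 := sub_ne_zero.2 hac
    field_simp
    ring
  rw [h3]
  exact div_mem (add_mem (sub_mem h2 (mul_mem (add_mem hb hc) h1)) (mul_mem (mul_mem hb hc) h0))
    (mul_mem (sub_mem ha hb) (sub_mem ha hc))

end FMKx

open FMKx

theorem t_FMK (hFMA : S_FMA) (hSIX : S_SIX) (_hEXT : S_EXT) : S_FMK := by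
  intro k r K M _ _ _ _ D Ω _ _ _ _ _ _ F
  obtain ⟨t, U, W, ht, hU, hW, et, eU, eW0, eW1⟩ := hFMA k r K M D Ω F
  obtain ⟨-, hl, -⟩ := hSIX k r K M D Ω F.l F.hl
  haveI : CharZero Ω := charZero_of_injective_algebraMap (algebraMap K Ω).injective
  have h01 : F.l 0 ≠ F.l 1 := hl 0 1 (by decide)
  have h02 : F.l 0 ≠ F.l 2 := hl 0 2 (by decide)
  have h12 : F.l 1 ≠ F.l 2 := hl 1 2 (by decide)
  obtain ⟨-, -, -, y10, y20, yne⟩ := F.fr
  change F.Yh 1 0 = 1 at y10
  change F.Yh 2 0 = 1 at y20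
  change ∀ i j, i ≠ j → F.Yh i j ≠ 0 at yne
  have hu0 : F.Yh 1 2 * F.Yh 2 1 + F.Yh 2 0 * F.Yh 0 2 + F.Yh 0 1 * F.Yh 1 0 ≠ 0 := F.u0
  -- the coefficients
  have hroots : D.X.charpoly.map (algebraMap M Ω) = ∏ i, (Polynomial.X - Polynomial.C (F.l i)) := F.hl
  have c0 : algebraMap M Ω (D.X.charpoly.coeff 0) = -(F.l 0 * F.l 1 * F.l 2) := by
    rw [← Polynomial.coeff_map, hroots, coeff0]
  have c1 : algebraMap M Ω (D.X.charpoly.coeff 1) = F.l 0 * F.l 1 + F.l 1 * F.l 2 + F.l 0 * F.l 2 := by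
    rw [← Polynomial.coeff_map, hroots, coeff1]
  have c2 : algebraMap M Ω (D.X.charpoly.coeff 2) = -(F.l 0 + F.l 1 + F.l 2) := by
    rw [← Polynomial.coeff_map, hroots, coeff2]
  have eU0 : algebraMap M Ω (U 0) = F.Yh 1 2 * F.Yh 2 1 + F.Yh 2 0 * F.Yh 0 2 + F.Yh 0 1 * F.Yh 1 0 := by
    rw [eU 0]; simp
  have hU0 : algebraMap M Ω (U 0) ≠ 0 := by rw [eU0]; exact hu0
  obtain ⟨e, he⟩ : ∃ e : Fin 10 → M, e = ![D.X.charpoly.coeff 0, D.X.charpoly.coeff 1, D.X.charpoly.coeff 2,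
    t 0, t 1, t 2, U 1 / U 0, U 2 / U 0, W 0 / U 0, W 1 / U 0] := ⟨_, rfl⟩
  have e0 : e 0 = D.X.charpoly.coeff 0 := by rw [he]; rfl
  have e1 : e 1 = D.X.charpoly.coeff 1 := by rw [he]; rfl
  have e2 : e 2 = D.X.charpoly.coeff 2 := by rw [he]; rfl
  have e3 : e 3 = t 0 := by rw [he]; rfl
  have e4 : e 4 = t 1 := by rw [he]; rfl
  have e5 : e 5 = t 2 := by rw [he]; rfl
  have e6 : e 6 = U 1 / U 0 := by rw [he]; rfl
  have e7 : e 7 = U 2 / U 0 := by rw [he]; rfl
  have e8 : e 8 = W 0 / U 0 := by rw [he]; rfl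
  have e9 : e 9 = W 1 / U 0 := by rw [he]; rfl
  have hall : ∀ P : M → Prop, P (D.X.charpoly.coeff 0) → P (D.X.charpoly.coeff 1) → P (D.X.charpoly.coeff 2) →
      P (t 0) → P (t 1) → P (t 2) → P (U 1 / U 0) → P (U 2 / U 0) → P (W 0 / U 0) → P (W 1 / U 0) → ∀ i, P (e i) := by
    intro P p0 p1 p2 p3 p4 p5 p6 p7 p8 p9 i
    fin_cases i
    · exact e0 ▸ p0
    · exact e1 ▸ p1
    · exact e2 ▸ p2
    · exact e3 ▸ p3
    · exact e4 ▸ p4
    · exact e5 ▸ p5
    · exact e6 ▸ p6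
    · exact e7 ▸ p7
    · exact e8 ▸ p8
    · exact e9 ▸ p9
  refine ⟨e, ?_, ?_, ?_, ?_⟩
  · intro i g
    refine hall (fun x => D.φ g x = x) (inv D g 0) (inv D g 1) (inv D g 2) (ht 0 g) (ht 1 g) (ht 2 g) ?_ ?_ ?_ ?_ i
    · simp only [map_div₀, hU]
    · simp only [map_div₀, hU]
    · simp only [map_div₀, hU, hW]
    · simp only [map_div₀, hU, hW]
  · intro i
    have hmem : ∀ j, e j ∈ IntermediateField.adjoin K (Set.range e) := fun j =>
      IntermediateField.subset_adjoin K _ ⟨j, rfl⟩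
    have hdeg : D.X.charpoly.natDegree = 3 := by
      rw [Matrix.charpoly_natDegree_eq_dim]; rfl
    rcases Nat.lt_or_ge i 3 with h | h
    · interval_cases i
      · rw [← e0]; exact hmem 0
      · rw [← e1]; exact hmem 1
      · rw [← e2]; exact hmem 2
    · rcases Nat.eq_or_lt_of_le h with h | h
      · have h5 : D.X.charpoly.coeff 3 = 1 := by
          have h6 := (Matrix.charpoly_monic D.X).coeff_natDegree
          rwa [hdeg] at h6
        rw [← h, h5]
        exact one_mem _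
      · rw [Polynomial.coeff_eq_zero_of_natDegree_lt (by omega)]
        exact zero_mem _
  · have ml : ∀ i, F.l i ∈ F.J (K := K) := fun i =>
      IntermediateField.subset_adjoin K _ (Or.inl ⟨i, rfl⟩)
    have my : ∀ i j, F.Yh i j ∈ F.J (K := K) := fun i j =>
      IntermediateField.subset_adjoin K _ (Or.inr ⟨(i, j), rfl⟩)
    have mt : ∀ a, algebraMap M Ω (t a) ∈ F.J (K := K) := by
      intro a
      rw [et a]
      exact sum_mem fun i _ => mul_mem (pow_mem (ml i) _) (my i i)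
    have mU : ∀ a, algebraMap M Ω (U a) ∈ F.J (K := K) := by
      intro a
      rw [eU a]
      exact add_mem (add_mem (mul_mem (pow_mem (ml 0) _) (mul_mem (my _ _) (my _ _)))
        (mul_mem (pow_mem (ml 1) _) (mul_mem (my _ _) (my _ _)))) (mul_mem (pow_mem (ml 2) _) (mul_mem (my _ _) (my _ _)))
    have mW0 : algebraMap M Ω (W 0) ∈ F.J (K := K) := by
      rw [eW0]
      exact add_mem (mul_mem (mul_mem (my _ _) (my _ _)) (my _ _)) (mul_mem (mul_mem (my _ _) (my _ _)) (my _ _))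
    have mδ : (F.l 0 - F.l 1) * (F.l 1 - F.l 2) * (F.l 2 - F.l 0) ∈ F.J (K := K) :=
      mul_mem (mul_mem (sub_mem (ml _) (ml _)) (sub_mem (ml _) (ml _))) (sub_mem (ml _) (ml _))
    have hδ : (F.l 0 - F.l 1) * (F.l 1 - F.l 2) * (F.l 2 - F.l 0) ≠ 0 :=
      mul_ne_zero (mul_ne_zero (sub_ne_zero.2 h01) (sub_ne_zero.2 h12)) (sub_ne_zero.2 h02.symm)
    have mW1 : algebraMap M Ω (W 1) ∈ F.J (K := K) := by
      rw [eq_div_of_mul_eq hδ eW1]
      exact div_mem (sub_mem (mul_mem (mul_mem (my _ _) (my _ _)) (my _ _))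
        (mul_mem (mul_mem (my _ _) (my _ _)) (my _ _))) mδ
    intro i
    refine hall (fun x => algebraMap M Ω x ∈ F.J (K := K)) ?_ ?_ ?_ (mt 0) (mt 1) (mt 2) ?_ ?_ ?_ ?_ i
    · simp only [c0]
      exact neg_mem (mul_mem (mul_mem (ml _) (ml _)) (ml _))
    · simp only [c1]
      exact add_mem (add_mem (mul_mem (ml _) (ml _)) (mul_mem (ml _) (ml _))) (mul_mem (ml _) (ml _))
    · simp only [c2]
      exact neg_mem (add_mem (add_mem (ml _) (ml _)) (ml _))
    · simp only [map_div₀]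
      exact div_mem (mU _) (mU _)
    · simp only [map_div₀]
      exact div_mem (mU _) (mU _)
    · simp only [map_div₀]
      exact div_mem mW0 (mU _)
    · simp only [map_div₀]
      exact div_mem mW1 (mU _)
  · obtain ⟨E, hE⟩ : ∃ E : IntermediateField K Ω,
      E = IntermediateField.adjoin K ((Set.range fun i => algebraMap M Ω (e i)) ∪ Set.range F.l) := ⟨_, rfl⟩
    rw [← hE]
    have me : ∀ i, algebraMap M Ω (e i) ∈ E := by
      intro i; rw [hE]
      exact IntermediateField.subset_adjoin K _ (Or.inl ⟨i, rfl⟩)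
    have ml : ∀ i, F.l i ∈ E := by
      intro i; rw [hE]
      exact IntermediateField.subset_adjoin K _ (Or.inr ⟨i, rfl⟩)
    -- the diagonal
    have mt0 : F.Yh 0 0 + F.Yh 1 1 + F.Yh 2 2 ∈ E := by
      have h := me 3
      rw [e3, et 0, Fin.sum_univ_three] at h
      simpa using h
    have mt1 : F.l 0 * F.Yh 0 0 + F.l 1 * F.Yh 1 1 + F.l 2 * F.Yh 2 2 ∈ E := by
      have h := me 4
      rw [e4, et 1, Fin.sum_univ_three] at h
      simpa using h
    have mt2 : F.l 0 ^ 2 * F.Yh 0 0 + F.l 1 ^ 2 * F.Yh 1 1 + F.l 2 ^ 2 * F.Yh 2 2 ∈ E := by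
      have h := me 5
      rw [e5, et 2, Fin.sum_univ_three] at h
      simpa using h
    have y00 : F.Yh 0 0 ∈ E := vand E _ _ _ _ _ _ (ml 0) (ml 1) (ml 2) mt0 mt1 mt2 h01 h02
    have y11 : F.Yh 1 1 ∈ E := by
      refine vand E (F.l 1) (F.l 0) (F.l 2) _ (F.Yh 0 0) (F.Yh 2 2) (ml 1) (ml 0) (ml 2) ?_ ?_ ?_ h01.symm h12
      · convert mt0 using 1; ring
      · convert mt1 using 1; ring
      · convert mt2 using 1; ring
    have y22 : F.Yh 2 2 ∈ E := by
      refine vand E (F.l 2) (F.l 0) (F.l 1) _ (F.Yh 0 0) (F.Yh 1 1) (ml 2) (ml 0) (ml 1) ?_ ?_ ?_ h02.symm h12.symm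
      · convert mt0 using 1; ring
      · convert mt1 using 1; ring
      · convert mt2 using 1; ring
    -- the products
    obtain ⟨V, hV⟩ : ∃ V, V = algebraMap M Ω (U 0) := ⟨_, rfl⟩
    have hV0 : V ≠ 0 := by rw [hV]; exact hU0
    have s0 : F.Yh 1 2 * F.Yh 2 1 / V + F.Yh 2 0 * F.Yh 0 2 / V + F.Yh 0 1 * F.Yh 1 0 / V ∈ E := by
      have h : F.Yh 1 2 * F.Yh 2 1 / V + F.Yh 2 0 * F.Yh 0 2 / V + F.Yh 0 1 * F.Yh 1 0 / V = 1 := by
        rw [← add_div, ← add_div, ← eU0, ← hV, div_self hV0]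
      rw [h]
      exact one_mem _
    have s1 : F.l 0 * (F.Yh 1 2 * F.Yh 2 1 / V) + F.l 1 * (F.Yh 2 0 * F.Yh 0 2 / V) +
        F.l 2 * (F.Yh 0 1 * F.Yh 1 0 / V) ∈ E := by
      have h := me 6
      rw [e6, map_div₀, eU 1, ← hV] at h
      convert h using 1
      simp only [Fin.val_one, pow_one]
      ring
    have s2 : F.l 0 ^ 2 * (F.Yh 1 2 * F.Yh 2 1 / V) + F.l 1 ^ 2 * (F.Yh 2 0 * F.Yh 0 2 / V) +
        F.l 2 ^ 2 * (F.Yh 0 1 * F.Yh 1 0 / V) ∈ E := by
      have h := me 7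
      rw [e7, map_div₀, eU 2, ← hV] at h
      convert h using 1
      simp only [Fin.val_two]
      ring
    have u0 : F.Yh 1 2 * F.Yh 2 1 / V ∈ E := vand E _ _ _ _ _ _ (ml 0) (ml 1) (ml 2) s0 s1 s2 h01 h02
    have u1 : F.Yh 2 0 * F.Yh 0 2 / V ∈ E := by
      refine vand E (F.l 1) (F.l 0) (F.l 2) _ (F.Yh 1 2 * F.Yh 2 1 / V) (F.Yh 0 1 * F.Yh 1 0 / V)
        (ml 1) (ml 0) (ml 2) ?_ ?_ ?_ h01.symm h12
      · convert s0 using 1; ring
      · convert s1 using 1; ring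
      · convert s2 using 1; ring
    have u2 : F.Yh 0 1 * F.Yh 1 0 / V ∈ E := by
      refine vand E (F.l 2) (F.l 0) (F.l 1) _ (F.Yh 1 2 * F.Yh 2 1 / V) (F.Yh 2 0 * F.Yh 0 2 / V)
        (ml 2) (ml 0) (ml 1) ?_ ?_ ?_ h02.symm h12.symm
      · convert s0 using 1; ring
      · convert s1 using 1; ring
      · convert s2 using 1; ring
    -- the products of three
    have w8 : (F.Yh 0 1 * F.Yh 1 2 * F.Yh 2 0 + F.Yh 0 2 * F.Yh 2 1 * F.Yh 1 0) / V ∈ E := by
      have h := me 8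
      rwa [e8, map_div₀, eW0, ← hV] at h
    have mδ : (F.l 0 - F.l 1) * (F.l 1 - F.l 2) * (F.l 2 - F.l 0) ∈ E :=
      mul_mem (mul_mem (sub_mem (ml _) (ml _)) (sub_mem (ml _) (ml _))) (sub_mem (ml _) (ml _))
    have w9 : (F.Yh 0 1 * F.Yh 1 2 * F.Yh 2 0 - F.Yh 0 2 * F.Yh 2 1 * F.Yh 1 0) / V ∈ E := by
      have h := mul_mem (me 9) mδ
      rw [e9, map_div₀, ← hV] at h
      rw [← eW1]
      convert h using 1
      ring
    have two : (2 : Ω) ∈ E := by
      have h : (1 : Ω) + 1 ∈ E := add_mem (one_mem _) (one_mem _)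
      rwa [one_add_one_eq_two] at h
    have w1 : F.Yh 0 1 * F.Yh 1 2 * F.Yh 2 0 / V ∈ E := by
      have h := div_mem (add_mem w8 w9) two
      convert h using 1
      field_simp
      ring
    have w2 : F.Yh 0 2 * F.Yh 2 1 * F.Yh 1 0 / V ∈ E := by
      have h := div_mem (sub_mem w8 w9) two
      convert h using 1
      field_simp
      ring
    have n01 := yne 0 1 (by decide)
    have n02 := yne 0 2 (by decide)
    have n10 := yne 1 0 (by decide)
    have n12 := yne 1 2 (by decide)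
    have n20 := yne 2 0 (by decide)
    have n21 := yne 2 1 (by decide)
    have mV : V ∈ E := by
      have h := div_mem (mul_mem w1 w2) (mul_mem (mul_mem u0 u1) u2)
      convert h using 1
      field_simp
    have y01 : F.Yh 0 1 ∈ E := by
      have h := mul_mem u2 mV
      rwa [div_mul_cancel₀ _ hV0, y10, mul_one] at h
    have y02 : F.Yh 0 2 ∈ E := by
      have h := mul_mem u1 mV
      rwa [div_mul_cancel₀ _ hV0, y20, one_mul] at h
    have y12 : F.Yh 1 2 ∈ E := by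
      have h := div_mem (mul_mem w1 mV) y01
      rw [div_mul_cancel₀ _ hV0, y20, mul_one] at h
      convert h using 1
      field_simp
    have y21 : F.Yh 2 1 ∈ E := by
      have h := div_mem (mul_mem w2 mV) y02
      rw [div_mul_cancel₀ _ hV0, y10, mul_one] at h
      convert h using 1
      field_simp
    have m10 : F.Yh 1 0 ∈ E := by rw [y10]; exact one_mem _
    have m20 : F.Yh 2 0 ∈ E := by rw [y20]; exact one_mem _
    intro i j
    fin_cases i <;> fin_cases j <;> assumption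

end Pool.Agent.Z15.MH
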