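import Pool.Agent.Z15.MH.Stm

set_option autoImplicit false

/-! (IN6) the six monomials are linearly independent -/

namespace Pool.Agent.Z15.MH

open MvPolynomial Matrix Pool.Agent.Z15.ME

theorem IN6_co {Ω : Type} [Field Ω] (a b c : Ω) :
    (Polynomial.X ^ 3 + Polynomial.C a * Polynomial.X ^ 2 + Polynomial.C b * Polynomial.X + Polynomial.C c :
      Polynomial Ω).coeff 2 = a ∧
    (Polynomial.X ^ 3 + Polynomial.C a * Polynomial.X ^ 2 + Polynomial.C b * Polynomial.X + Polynomial.C c :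
      Polynomial Ω).coeff 1 = b ∧
    (Polynomial.X ^ 3 + Polynomial.C a * Polynomial.X ^ 2 + Polynomial.C b * Polynomial.X + Polynomial.C c :
      Polynomial Ω).coeff 0 = c := by
  refine ⟨?_, ?_, ?_⟩ <;> simp [Polynomial.coeff_X, Polynomial.coeff_C, Polynomial.coeff_X_pow]

theorem IN6_coeffs {M Ω : Type} [Field M] [Field Ω] [Algebra M Ω] (p : Polynomial M) (l : Fin 3 → Ω)
    (hR : Roots p l) : p.Monic ∧ p.natDegree = 3 ∧ algebraMap M Ω (p.coeff 2) = -(l 0 + l 1 + l 2) ∧
      algebraMap M Ω (p.coeff 1) = l 0 * l 1 + l 1 * l 2 + l 2 * l 0 ∧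
      algebraMap M Ω (p.coeff 0) = -(l 0 * l 1 * l 2) := by
  have hinj : Function.Injective (algebraMap M Ω) := (algebraMap M Ω).injective
  have h3 : p.map (algebraMap M Ω) = (Polynomial.X - Polynomial.C (l 0)) *
      (Polynomial.X - Polynomial.C (l 1)) * (Polynomial.X - Polynomial.C (l 2)) := by
    unfold Roots at hR
    rw [hR, Fin.prod_univ_three]
  have h4 : p.map (algebraMap M Ω) = Polynomial.X ^ 3 + Polynomial.C (-(l 0 + l 1 + l 2)) * Polynomial.X ^ 2 +
      Polynomial.C (l 0 * l 1 + l 1 * l 2 + l 2 * l 0) * Polynomial.X + Polynomial.C (-(l 0 * l 1 * l 2)) := by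
    rw [h3]
    simp only [map_neg, map_add, map_mul]
    ring
  have m0 := Polynomial.monic_X_sub_C (l 0)
  have m1 := Polynomial.monic_X_sub_C (l 1)
  have m2 := Polynomial.monic_X_sub_C (l 2)
  refine ⟨?_, ?_, ?_, ?_, ?_⟩
  · apply Polynomial.monic_of_injective hinj
    rw [h3]
    exact (m0.mul m1).mul m2
  · rw [← Polynomial.natDegree_map_eq_of_injective hinj p, h3, (m0.mul m1).natDegree_mul m2, m0.natDegree_mul m1,
      Polynomial.natDegree_X_sub_C, Polynomial.natDegree_X_sub_C, Polynomial.natDegree_X_sub_C]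
  · rw [← Polynomial.coeff_map, h4]
    exact (IN6_co _ _ _).1
  · rw [← Polynomial.coeff_map, h4]
    exact (IN6_co _ _ _).2.1
  · rw [← Polynomial.coeff_map, h4]
    exact (IN6_co _ _ _).2.2

theorem t_IN6 : S_IN6 := by
  intro M Ω _ _ _ _ p l hR hroot hδ
  obtain ⟨hmon, hdeg, ha, hb, hc⟩ := IN6_coeffs p l hR
  have hp0 : p ≠ 0 := hmon.ne_zero
  have hirr : Irreducible p := by
    rw [Polynomial.irreducible_iff_roots_eq_zero_of_degree_le_three (by omega) (by omega)]
    rw [Multiset.eq_zero_iff_forall_notMem]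
    intro x hx
    exact hroot x ((Polynomial.mem_roots hp0).1 hx)
  have hl0 : Polynomial.aeval (l 0) p = 0 := by
    rw [Polynomial.aeval_def, ← Polynomial.eval_map]
    unfold Roots at hR
    rw [hR, Fin.prod_univ_three]
    simp
  have hmin : p = minpoly M (l 0) := minpoly.eq_of_irreducible_of_monic hirr hl0 hmon
  have hint : IsIntegral M (l 0) := ⟨p, hmon, by rw [← Polynomial.aeval_def]; exact hl0⟩
  -- no relation of degree 2
  have V : ∀ a0 a1 a2 : M, algebraMap M Ω a0 + algebraMap M Ω a1 * l 0 + algebraMap M Ω a2 * l 0 ^ 2 = 0 →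
      a0 = 0 ∧ a1 = 0 ∧ a2 = 0 := by
    intro a0 a1 a2 h
    set q : Polynomial M := Polynomial.C a0 + Polynomial.C a1 * Polynomial.X + Polynomial.C a2 * Polynomial.X ^ 2 with hq
    have hq0 : Polynomial.aeval (l 0) q = 0 := by
      rw [hq]
      simp only [map_add, map_mul, map_pow, Polynomial.aeval_C, Polynomial.aeval_X]
      exact h
    have hdvd : p ∣ q := by
      rw [hmin]
      exact minpoly.dvd M (l 0) hq0
    have hqdeg : q.natDegree ≤ 2 := by
      rw [hq]
      compute_degree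
    have hq1 : q = 0 := by
      by_contra hne
      have := Polynomial.natDegree_le_of_dvd hdvd hne
      omega
    have c0 := congrArg (fun r => r.coeff 0) hq1
    have c1 := congrArg (fun r => r.coeff 1) hq1
    have c2 := congrArg (fun r => r.coeff 2) hq1
    simp [hq, Polynomial.coeff_X, Polynomial.coeff_C, Polynomial.coeff_X_pow] at c0 c1 c2
    exact ⟨c0, c1, c2⟩
  -- the second root is not in the field generated by the first
  have h0 : l 0 ∈ IntermediateField.adjoin M {l 0} := IntermediateField.mem_adjoin_simple_self M (l 0)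
  have hfin : Module.finrank M (IntermediateField.adjoin M {l 0}) = 3 := by
    rw [IntermediateField.adjoin.finrank hint, ← hmin, hdeg]
  have key : l 1 ∉ IntermediateField.adjoin M {l 0} := by
    intro h1
    have h2 : l 2 ∈ IntermediateField.adjoin M {l 0} := by
      have : l 2 = algebraMap M Ω (-(p.coeff 2)) - l 0 - l 1 := by rw [map_neg, ha]; ring
      rw [this]
      exact sub_mem (sub_mem (algebraMap_mem _ _) h0) h1
    have hd : (l 0 - l 1) * (l 1 - l 2) * (l 2 - l 0) ∈ IntermediateField.adjoin M {l 0} :=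
      mul_mem (mul_mem (sub_mem h0 h1) (sub_mem h1 h2)) (sub_mem h2 h0)
    obtain ⟨D, hD⟩ : ∃ D : M, algebraMap M Ω D = ((l 0 - l 1) * (l 1 - l 2) * (l 2 - l 0)) ^ 2 := by
      refine ⟨p.coeff 2 ^ 2 * p.coeff 1 ^ 2 - 4 * p.coeff 1 ^ 3 - 4 * p.coeff 2 ^ 3 * p.coeff 0 +
        18 * p.coeff 2 * p.coeff 1 * p.coeff 0 - 27 * p.coeff 0 ^ 2, ?_⟩
      simp only [map_sub, map_add, map_mul, map_pow, map_ofNat]
      rw [ha, hb, hc]
      ring
    have hfd : FiniteDimensional M (IntermediateField.adjoin M {l 0}) :=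
      IntermediateField.adjoin.finiteDimensional hint
    obtain ⟨x, hx⟩ : ∃ x : IntermediateField.adjoin M {l 0}, (x : Ω) = (l 0 - l 1) * (l 1 - l 2) * (l 2 - l 0) :=
      ⟨⟨_, hd⟩, rfl⟩
    have hxi : IsIntegral M x := IsIntegral.of_finite M x
    have hx2 : Polynomial.aeval x (Polynomial.X ^ 2 - Polynomial.C D) = 0 := by
      apply Subtype.ext
      simp only [map_sub, map_pow, Polynomial.aeval_X, Polynomial.aeval_C]
      push_cast
      rw [hx]
      rw [hD, sub_self]
    have hdv1 : (minpoly M x).natDegree ≤ 2 := by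
      have hne : (Polynomial.X ^ 2 - Polynomial.C D : Polynomial M) ≠ 0 :=
        (Polynomial.monic_X_pow_sub_C D (by norm_num)).ne_zero
      have h5 := Polynomial.natDegree_le_of_dvd (minpoly.dvd M x hx2) hne
      rw [Polynomial.natDegree_X_pow_sub_C] at h5
      exact h5
    have hdv2 : (minpoly M x).natDegree ∣ 3 := by
      have h7 := minpoly.degree_dvd hxi
      rw [hfin] at h7
      exact h7
    have hdv3 : (minpoly M x).natDegree = 1 := by
      rcases (Nat.dvd_prime Nat.prime_three).1 hdv2 with h | h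
      · exact h
      · omega
    have h6 : x ∈ (algebraMap M (IntermediateField.adjoin M {l 0})).range := minpoly.natDegree_eq_one_iff.1 hdv3
    obtain ⟨y, hy⟩ := h6
    apply hδ
    refine ⟨y, ?_⟩
    rw [← hx, ← hy]
    rfl
  rw [Fintype.linearIndependent_iff]
  intro g hg
  rw [Fintype.sum_prod_type, Fin.sum_univ_three] at hg
  simp only [Fin.sum_univ_two, mu, Algebra.smul_def] at hg
  have hg' : (algebraMap M Ω (g (0, 0)) + algebraMap M Ω (g (1, 0)) * l 0 + algebraMap M Ω (g (2, 0)) * l 0 ^ 2) +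
      (algebraMap M Ω (g (0, 1)) + algebraMap M Ω (g (1, 1)) * l 0 + algebraMap M Ω (g (2, 1)) * l 0 ^ 2) * l 1 = 0 := by
    rw [← hg]
    simp
    ring
  have mem3 : ∀ a0 a1 a2 : M, algebraMap M Ω a0 + algebraMap M Ω a1 * l 0 + algebraMap M Ω a2 * l 0 ^ 2 ∈
      IntermediateField.adjoin M {l 0} := fun a0 a1 a2 =>
    add_mem (add_mem (algebraMap_mem _ _) (mul_mem (algebraMap_mem _ _) h0)) (mul_mem (algebraMap_mem _ _) (pow_mem h0 2))
  have hB : algebraMap M Ω (g (0, 1)) + algebraMap M Ω (g (1, 1)) * l 0 + algebraMap M Ω (g (2, 1)) * l 0 ^ 2 = 0 := by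
    by_contra hne
    apply key
    have : l 1 = -(algebraMap M Ω (g (0, 0)) + algebraMap M Ω (g (1, 0)) * l 0 + algebraMap M Ω (g (2, 0)) * l 0 ^ 2) /
        (algebraMap M Ω (g (0, 1)) + algebraMap M Ω (g (1, 1)) * l 0 + algebraMap M Ω (g (2, 1)) * l 0 ^ 2) := by
      rw [eq_div_iff hne]
      linear_combination hg'
    rw [this]
    exact div_mem (neg_mem (mem3 _ _ _)) (mem3 _ _ _)
  rw [hB, zero_mul, add_zero] at hg'
  obtain ⟨a0, a1, a2⟩ := V _ _ _ hg'
  obtain ⟨b0, b1, b2⟩ := V _ _ _ hB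
  rintro ⟨i, j⟩
  fin_cases i <;> fin_cases j <;> assumption

end Pool.Agent.Z15.MH
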