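import Pool.Agent.Z15.MH.Stm

set_option autoImplicit false

/-! (INZ) the invariants are in `K(l, Ŷ, f̂, Z)`. -/

namespace Pool.Agent.Z15.MH

open MvPolynomial Matrix Pool.Agent.Z15.ME

namespace INZ

variable {k r : ℕ}

/-- all coordinates -/
abbrev IA (k r : ℕ) : Type := Ix 2 (3 * k) ⊕ (Fin 3 × Fin 3) ⊕ (Fin 3 × Fin 3) ⊕ Unit ⊕ Fin r

/-- the first matrix -/
def tX {R : Type} (y : IA k r → R) : Matrix (Fin 3) (Fin 3) R :=
  Matrix.of fun i j => y (Sum.inr (Sum.inl (i, j)))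

/-- the second matrix -/
def tY {R : Type} (y : IA k r → R) : Matrix (Fin 3) (Fin 3) R :=
  Matrix.of fun i j => y (Sum.inr (Sum.inr (Sum.inl (i, j))))

/-- the action on the coordinates -/
noncomputable def tt {R : Type} [CommRing R] (g g' : Matrix (Fin 3) (Fin 3) R) (y : IA k r → R) :
    IA k r → R
  | Sum.inl p => act g g' (fun q => y (Sum.inl q)) p
  | Sum.inr (Sum.inl p) => (g * tX y * g') p.1 p.2
  | Sum.inr (Sum.inr (Sum.inl p)) => (g * tY y * g') p.1 p.2
  | Sum.inr (Sum.inr (Sum.inr (Sum.inl u))) => g.det ^ k * y (Sum.inr (Sum.inr (Sum.inr (Sum.inl u))))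
  | Sum.inr (Sum.inr (Sum.inr (Sum.inr t))) => y (Sum.inr (Sum.inr (Sum.inr (Sum.inr t))))

theorem tX_tt {R : Type} [CommRing R] (g g' : Matrix (Fin 3) (Fin 3) R) (y : IA k r → R) :
    tX (tt g g' y) = g * tX y * g' := rfl

theorem tY_tt {R : Type} [CommRing R] (g g' : Matrix (Fin 3) (Fin 3) R) (y : IA k r → R) :
    tY (tt g g' y) = g * tY y * g' := rfl

theorem tt_map (hACT : ME.S_ACT) {R S : Type} [CommRing R] [CommRing S] (σ : R →+* S)
    (g g' : Matrix (Fin 3) (Fin 3) R) (y : IA k r → R) :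
    tt (g.map σ) (g'.map σ) (fun i => σ (y i)) = fun i => σ (tt g g' y i) := by
  funext i
  have hX : tX (fun i => σ (y i)) = (tX y).map σ := rfl
  have hY : tY (fun i => σ (y i)) = (tY y).map σ := rfl
  rcases i with p | p | p | u | t
  · exact congrFun ((hACT 3 (3 * k + 1) R).2.2.2.2.2.2.2.2.2.2 S σ g g' fun q => y (Sum.inl q)) p
  · show (g.map σ * tX (fun i => σ (y i)) * g'.map σ) p.1 p.2 = σ ((g * tX y * g') p.1 p.2)
    rw [hX, ← Matrix.map_mul, ← Matrix.map_mul]
    rfl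
  · show (g.map σ * tY (fun i => σ (y i)) * g'.map σ) p.1 p.2 = σ ((g * tY y * g') p.1 p.2)
    rw [hY, ← Matrix.map_mul, ← Matrix.map_mul]
    rfl
  · show (g.map σ).det ^ k * σ _ = σ (g.det ^ k * _)
    have hd : σ g.det = (g.map σ).det := RingHom.map_det σ g
    rw [map_mul, map_pow, hd]
  · rfl

theorem tt_mul (hACT : ME.S_ACT) {R : Type} [CommRing R] (g g' h h' : Matrix (Fin 3) (Fin 3) R)
    (y : IA k r → R) : tt g g' (tt h h' y) = tt (g * h) (h' * g') y := by
  funext i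
  rcases i with p | p | p | u | t
  · exact congrFun ((hACT 3 (3 * k + 1) R).2.2.2.2.2.2.1 g g' h h' fun q => y (Sum.inl q)) p
  · show (g * tX (tt h h' y) * g') p.1 p.2 = (g * h * tX y * (h' * g')) p.1 p.2
    rw [tX_tt]
    simp only [Matrix.mul_assoc]
  · show (g * tY (tt h h' y) * g') p.1 p.2 = (g * h * tY y * (h' * g')) p.1 p.2
    rw [tY_tt]
    simp only [Matrix.mul_assoc]
  · show g.det ^ k * (h.det ^ k * y _) = (g * h).det ^ k * y _
    rw [Matrix.det_mul]
    ring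
  · rfl

theorem tt_one (hACT : ME.S_ACT) {R : Type} [CommRing R] (y : IA k r → R) : tt 1 1 y = y := by
  funext i
  rcases i with p | p | p | u | t
  · exact congrFun ((hACT 3 (3 * k + 1) R).2.2.2.2.2.2.2.1 fun q => y (Sum.inl q)) p
  · show ((1 : Matrix (Fin 3) (Fin 3) R) * tX y * (1 : Matrix (Fin 3) (Fin 3) R)) p.1 p.2 = _
    rw [Matrix.one_mul, Matrix.mul_one]
    rfl
  · show ((1 : Matrix (Fin 3) (Fin 3) R) * tY y * (1 : Matrix (Fin 3) (Fin 3) R)) p.1 p.2 = _
    rw [Matrix.one_mul, Matrix.mul_one]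
    rfl
  · show (1 : Matrix (Fin 3) (Fin 3) R).det ^ k * y _ = y _
    rw [Matrix.det_one, one_pow, one_mul]
  · rfl

/-- the degree in the second matrix -/
def ed : IA k r → ℕ
  | Sum.inl _ => 3 * k + 1
  | Sum.inr (Sum.inl _) => 1
  | Sum.inr (Sum.inr (Sum.inl _)) => 1
  | Sum.inr (Sum.inr (Sum.inr _)) => 0

theorem tt_smul (hACT : ME.S_ACT) {R : Type} [CommRing R] (g g' : Matrix (Fin 3) (Fin 3) R) (s : R)
    (y : IA k r → R) (i : IA k r) : tt g (s • g') y i = s ^ ed i * tt g g' y i := by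
  rcases i with p | p | p | u | t
  · have h1 := (hACT 3 (3 * k + 1) R).2.2.2.2.2.2.1 ((1 : R) • 1) (s • 1) g g' fun q => y (Sum.inl q)
    have h2 := (hACT 3 (3 * k + 1) R).2.2.2.2.2.2.2.2.1 1 s (act g g' fun q => y (Sum.inl q))
    rw [h2, one_smul, one_mul, Matrix.mul_smul, Matrix.mul_one] at h1
    have h3 := congrFun h1 p
    show act g (s • g') (fun q => y (Sum.inl q)) p = s ^ (3 * k + 1) * act g g' (fun q => y (Sum.inl q)) p
    rw [Matrix.one_mul] at h3
    exact h3.symm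
  · show (g * tX y * (s • g')) p.1 p.2 = s ^ 1 * (g * tX y * g') p.1 p.2
    rw [Matrix.mul_smul, Matrix.smul_apply, smul_eq_mul, pow_one]
  · show (g * tY y * (s • g')) p.1 p.2 = s ^ 1 * (g * tY y * g') p.1 p.2
    rw [Matrix.mul_smul, Matrix.smul_apply, smul_eq_mul, pow_one]
  · show _ = s ^ 0 * _
    rw [pow_zero, one_mul]
    rfl
  · show _ = s ^ 0 * _
    rw [pow_zero, one_mul]
    rfl

/-- the generic matrix -/
noncomputable abbrev GG (E : Type) [Field E] : Matrix (Fin 3) (Fin 3) (MvPolynomial (Fin 3 × Fin 3) E) :=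
  Matrix.of fun i j => X (i, j)

theorem GG_det {E S : Type} [Field E] [Field S] [Algebra E S] (g : Matrix (Fin 3) (Fin 3) S) :
    aeval (fun p : Fin 3 × Fin 3 => g p.1 p.2) (GG E).det = g.det := by
  rw [AlgHom.map_det]
  congr 1
  ext i j
  simp

theorem pol1 (hACT : ME.S_ACT) {E : Type} [Field E] (c : IA k r → E) (i : IA k r) {S : Type} [Field S]
    [Algebra E S] (g g' : Matrix (Fin 3) (Fin 3) S) (hg : g * g' = 1) :
    aeval (fun p : Fin 3 × Fin 3 => g p.1 p.2) (tt (GG E) (GG E).adjugate (fun q => C (c q)) i) =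
      g.det ^ ed i * tt g g' (fun q => algebraMap E S (c q)) i := by
  have hX : ((GG E).map
      ((aeval (fun p : Fin 3 × Fin 3 => g p.1 p.2) : MvPolynomial (Fin 3 × Fin 3) E →ₐ[E] S) :
        MvPolynomial (Fin 3 × Fin 3) E →+* S)) = g := by
    ext i j
    simp
  have hA : ((GG E).adjugate.map
      ((aeval (fun p : Fin 3 × Fin 3 => g p.1 p.2) : MvPolynomial (Fin 3 × Fin 3) E →ₐ[E] S) :
        MvPolynomial (Fin 3 × Fin 3) E →+* S)) = g.det • g' := by
    have h1 := RingHom.map_adjugate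
      ((aeval (fun p : Fin 3 × Fin 3 => g p.1 p.2) : MvPolynomial (Fin 3 × Fin 3) E →ₐ[E] S) :
        MvPolynomial (Fin 3 × Fin 3) E →+* S) (GG E)
    have h4 : (RingHom.mapMatrix ((aeval (fun p : Fin 3 × Fin 3 => g p.1 p.2) :
        MvPolynomial (Fin 3 × Fin 3) E →ₐ[E] S) : MvPolynomial (Fin 3 × Fin 3) E →+* S)
        (GG E)) = g := hX
    rw [h4] at h1
    have h2 : g.adjugate = g.det • g' := by
      have h3 : g' * g = 1 := mul_eq_one_comm.mp hg
      calc g.adjugate = g' * g * g.adjugate := by rw [h3, one_mul]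
        _ = g.det • g' := by
          rw [mul_assoc, Matrix.mul_adjugate, Matrix.mul_smul, Matrix.mul_one]
    rw [← h2]
    exact h1
  have h5 := congrFun (tt_map (k := k) (r := r) hACT
    ((aeval (fun p : Fin 3 × Fin 3 => g p.1 p.2) : MvPolynomial (Fin 3 × Fin 3) E →ₐ[E] S) :
        MvPolynomial (Fin 3 × Fin 3) E →+* S) (GG E) (GG E).adjugate fun q => C (c q)) i
  rw [hX, hA, tt_smul hACT] at h5
  have h6 : (fun i => ((aeval (fun p : Fin 3 × Fin 3 => g p.1 p.2) :
      MvPolynomial (Fin 3 × Fin 3) E →ₐ[E] S) : MvPolynomial (Fin 3 × Fin 3) E →+* S) (C (c i))) =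
      fun q => algebraMap E S (c q) := by
    funext q
    simp
  rw [h6] at h5
  exact h5.symm

/-- a polynomial in the coordinates of the conjugates is, up to a power of the determinant, a
polynomial in the entries of the matrix -/
theorem polyact (hACT : ME.S_ACT) (K E : Type) [Field K] [Field E] [Algebra K E] (c : IA k r → E)
    (P : MvPolynomial (IA k r) K) :
    ∃ (e : ℕ) (W : MvPolynomial (Fin 3 × Fin 3) E), ∀ (S : Type) [Field S] [Algebra E S]
      [Algebra K S] [IsScalarTower K E S] (g g' : Matrix (Fin 3) (Fin 3) S), g * g' = 1 →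
      aeval (fun p : Fin 3 × Fin 3 => g p.1 p.2) W =
        g.det ^ e * aeval (tt g g' fun q => algebraMap E S (c q)) P := by
  induction P using MvPolynomial.induction_on with
  | C a =>
    refine ⟨0, C (algebraMap K E a), ?_⟩
    intro S _ _ _ _ g g' _
    rw [aeval_C, aeval_C, pow_zero, one_mul, ← IsScalarTower.algebraMap_apply]
  | add P Q hP hQ =>
    obtain ⟨e, W, hW⟩ := hP
    obtain ⟨e', W', hW'⟩ := hQ
    refine ⟨e + e', (GG E).det ^ e' * W + (GG E).det ^ e * W', ?_⟩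
    intro S _ _ _ _ g g' hg
    rw [map_add, map_mul, map_mul, map_pow, map_pow, GG_det, hW S g g' hg, hW' S g g' hg, map_add]
    ring
  | mul_X P i hP =>
    obtain ⟨e, W, hW⟩ := hP
    refine ⟨e + ed i, W * tt (GG E) (GG E).adjugate (fun q => C (c q)) i, ?_⟩
    intro S _ _ _ _ g g' hg
    rw [map_mul, pol1 hACT c i g g' hg, hW S g g' hg, map_mul, aeval_X]
    ring

theorem ext_mul_ext {K M : Type} [Field K] [Field M] [Algebra K M]
    (g g' : Matrix (Fin 3) (Fin 3) K) (h : g * g' = 1) :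
    ME.ext (N := 2) M g * ME.ext (N := 2) M g' = 1 := by
  unfold ME.ext
  rw [← Matrix.map_mul, h]
  exact Matrix.map_one _ (map_zero _) (map_one _)

/-- the coordinates -/
def yy {K M : Type} [Field K] [CharZero K] [Field M] [Algebra K M] (D : DZ k r K M) : IA k r → M
  | Sum.inl p => D.f p
  | Sum.inr (Sum.inl p) => D.X p.1 p.2
  | Sum.inr (Sum.inr (Sum.inl p)) => D.Y p.1 p.2
  | Sum.inr (Sum.inr (Sum.inr (Sum.inl _))) => D.H
  | Sum.inr (Sum.inr (Sum.inr (Sum.inr t))) => D.Z t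

theorem yy_gen {K M : Type} [Field K] [CharZero K] [Field M] [Algebra K M] (D : DZ k r K M) :
    IntermediateField.adjoin K (Set.range (yy D)) = ⊤ := by
  rw [eq_top_iff, ← D.gen, IntermediateField.adjoin_le_iff]
  rintro _ ⟨i, rfl⟩
  apply IntermediateField.subset_adjoin K _
  rcases i with p | p | p | u | t
  · exact ⟨Sum.inl p.1, rfl⟩
  · exact ⟨Sum.inr (Sum.inl p), rfl⟩
  · exact ⟨Sum.inr (Sum.inr (Sum.inl p)), rfl⟩
  · exact ⟨Sum.inr (Sum.inr (Sum.inr (Sum.inl u))), rfl⟩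
  · exact ⟨Sum.inr (Sum.inr (Sum.inr (Sum.inr t))), rfl⟩

theorem yy_phi {K M : Type} [Field K] [CharZero K] [Field M] [Algebra K M] (D : DZ k r K M)
    (g : GP 2 K) (i : IA k r) : D.φ g (yy D i) = tt (ext M g.1.1) (ext M g.1.2) (yy D) i := by
  rcases i with p | p | p | u | t
  · exact D.hf g p
  · exact congrFun (congrFun (D.hX g) p.1) p.2
  · exact congrFun (congrFun (D.hY g) p.1) p.2
  · show D.φ g D.H = (ext M g.1.1).det ^ k * D.H
    have hd : (ext M g.1.1).det = algebraMap K M g.1.1.det := (RingHom.map_det _ _).symm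
    rw [D.hH, hd]
  · exact D.hZ g t

end INZ

open INZ

theorem t_INZ (hACT : ME.S_ACT) (hDEN : ME.S_DEN) : S_INZ := by
  intro k r K M _ _ _ _ D Ω _ _ _ _ _ _ F x hx
  have : Infinite K := inferInstance
  set y := yy D with hy
  have hxv : x ∈ IntermediateField.adjoin K (Set.range y) := by
    rw [hy, yy_gen]
    exact IntermediateField.mem_top
  set N := IntermediateField.adjoin K
    (Set.range F.l ∪ (Set.range fun p : Fin 3 × Fin 3 => F.Yh p.1 p.2) ∪ Set.range F.fh ∪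
      Set.range fun i => algebraMap M Ω (D.Z i)) with hN
  obtain ⟨P, Q, hPQ⟩ := (IntermediateField.mem_adjoin_range_iff K y x).1 hxv
  by_cases hQ : aeval y Q = 0
  · rw [hPQ, hQ, div_zero, map_zero]
    exact N.zero_mem
  -- the identity for `g` over `K`
  have hv : ∀ (g : GP 2 K) (R : MvPolynomial (IA k r) K),
      D.φ g (aeval y R) = aeval (tt (ext M g.1.1) (ext M g.1.2) y) R := by
    intro g R
    have h1 := MvPolynomial.comp_aeval_apply (f := y) (D.φ g) R
    have h2 : (fun o => D.φ g (y o)) = tt (ext M g.1.1) (ext M g.1.2) y :=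
      funext fun p => yy_phi D g p
    rw [h2] at h1
    exact h1
  have hid : ∀ g : GP 2 K, aeval (tt (ext M g.1.1) (ext M g.1.2) y) P * aeval y Q =
      aeval y P * aeval (tt (ext M g.1.1) (ext M g.1.2) y) Q := by
    intro g
    have h3 : aeval (tt (ext M g.1.1) (ext M g.1.2) y) Q ≠ 0 := by
      rw [← hv]
      exact (map_ne_zero (D.φ g)).2 hQ
    have h4 := hx g
    rw [hPQ, map_div₀, hv, hv] at h4
    exact (div_eq_div_iff h3 hQ).1 h4
  -- polynomials
  obtain ⟨e, W, hW⟩ := polyact hACT K M y P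
  obtain ⟨e', W', hW'⟩ := polyact hACT K M y Q
  have hfM : (fun q => algebraMap M M (y q)) = y := rfl
  have hZ : (GG M).det ^ e' * W * C (aeval y Q) - (GG M).det ^ e * C (aeval y P) * W' = 0 := by
    apply hDEN K M 3
    intro g hg
    have hg' : g * g⁻¹ = 1 := Matrix.mul_nonsing_inv g (isUnit_iff_ne_zero.2 hg)
    have h1 := hid ⟨(g, g⁻¹), hg'⟩
    have hgM : ext (N := 2) M g * ext (N := 2) M g⁻¹ = 1 := ext_mul_ext g g⁻¹ hg'
    have h2 := hW M (ext (N := 2) M g) (ext (N := 2) M g⁻¹) hgM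
    have h3 := hW' M (ext (N := 2) M g) (ext (N := 2) M g⁻¹) hgM
    have h4 := GG_det (E := M) (S := M) (ext (N := 2) M g)
    rw [hfM] at h2 h3
    have h5 : (fun p : Fin 3 × Fin 3 => algebraMap K M (g p.1 p.2)) =
        fun p => (ext (N := 2) M g) p.1 p.2 := rfl
    rw [MvPolynomial.aeval_eq_eval] at h2 h3 h4
    rw [h5, map_sub, map_mul, map_mul, map_mul, map_mul, map_pow, map_pow, eval_C, eval_C]
    have h2' : eval (fun p : Fin 3 × Fin 3 => (ext (N := 2) M g) p.1 p.2) W =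
      (ext (N := 2) M g).det ^ e * aeval (tt (ext (N := 2) M g) (ext (N := 2) M g⁻¹) y) P := h2
    have h3' : eval (fun p : Fin 3 × Fin 3 => (ext (N := 2) M g) p.1 p.2) W' =
      (ext (N := 2) M g).det ^ e' * aeval (tt (ext (N := 2) M g) (ext (N := 2) M g⁻¹) y) Q := h3
    have h4' : eval (fun p : Fin 3 × Fin 3 => (ext (N := 2) M g) p.1 p.2) (GG M).det =
        (ext (N := 2) M g).det := h4
    rw [h2', h3', h4']
    have h1' : aeval (tt (ext (N := 2) M g) (ext (N := 2) M g⁻¹) y) P * aeval y Q =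
      aeval y P * aeval (tt (ext (N := 2) M g) (ext (N := 2) M g⁻¹) y) Q := h1
    linear_combination (ext (N := 2) M g).det ^ e * (ext (N := 2) M g).det ^ e' * h1'
  obtain ⟨hBB, hBH, hBX, -, -, -⟩ := F.fr
  have hBB' : F.B' * F.B = 1 := mul_eq_one_comm.1 hBB
  have hBd : F.B.det ≠ 0 := by
    intro h0
    have h3 := congrArg Matrix.det hBB
    rw [Matrix.det_mul, h0, zero_mul, Matrix.det_one] at h3
    exact zero_ne_one h3
  have hΩ : ∀ g g' : Matrix (Fin 3) (Fin 3) Ω, g * g' = 1 →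
      aeval (tt g g' fun q => algebraMap M Ω (y q)) P * algebraMap M Ω (aeval y Q) =
      algebraMap M Ω (aeval y P) * aeval (tt g g' fun q => algebraMap M Ω (y q)) Q := by
    intro g g' hg
    have hgd : g.det ≠ 0 := by
      intro h0
      have h3 := congrArg Matrix.det hg
      rw [Matrix.det_mul, h0, zero_mul, Matrix.det_one] at h3
      exact zero_ne_one h3
    have h1 := congrArg (aeval (fun p : Fin 3 × Fin 3 => g p.1 p.2)) hZ
    rw [map_sub, map_mul, map_mul, map_mul, map_mul, map_pow, map_pow, GG_det g, hW Ω g g' hg,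
      hW' Ω g g' hg, map_zero, sub_eq_zero, aeval_C, aeval_C] at h1
    have h2 : g.det ^ e * g.det ^ e' ≠ 0 := mul_ne_zero (pow_ne_zero _ hgd) (pow_ne_zero _ hgd)
    apply mul_left_cancel₀ h2
    linear_combination h1
  -- the special point
  have hmem : ∀ i : IA k r, tt F.B' F.B (fun q => algebraMap M Ω (y q)) i ∈ N := by
    have hsub := IntermediateField.subset_adjoin K
      (Set.range F.l ∪ (Set.range fun p : Fin 3 × Fin 3 => F.Yh p.1 p.2) ∪ Set.range F.fh ∪
        Set.range fun i => algebraMap M Ω (D.Z i))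
    intro i
    rcases i with p | p | p | u | t
    · exact hsub (Or.inl (Or.inr ⟨p, rfl⟩))
    · have h1 : tt F.B' F.B (fun q => algebraMap M Ω (y q)) (Sum.inr (Sum.inl p)) =
          (F.B' * D.X.map (algebraMap M Ω) * F.B) p.1 p.2 := rfl
      rw [h1, hBX, Matrix.diagonal_apply]
      split_ifs
      · exact hsub (Or.inl (Or.inl (Or.inl ⟨_, rfl⟩)))
      · exact N.zero_mem
    · exact hsub (Or.inl (Or.inl (Or.inr ⟨p, rfl⟩)))
    · have h1 : tt F.B' F.B (fun q => algebraMap M Ω (y q)) (Sum.inr (Sum.inr (Sum.inr (Sum.inl u)))) =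
          F.B'.det ^ k * algebraMap M Ω D.H := rfl
      rw [h1, ← hBH, ← mul_pow, ← Matrix.det_mul, hBB', Matrix.det_one, one_pow]
      exact N.one_mem
    · exact hsub (Or.inr ⟨t, rfl⟩)
  obtain ⟨uE, huE⟩ : ∃ uE : IA k r → N, ∀ p, algebraMap N Ω (uE p) =
      tt F.B' F.B (fun q => algebraMap M Ω (y q)) p := ⟨fun p => ⟨_, hmem p⟩, fun p => rfl⟩
  have huE' : (fun q => algebraMap N Ω (uE q)) = tt F.B' F.B (fun q => algebraMap M Ω (y q)) :=
    funext huE
  have hf' : tt F.B F.B' (fun q => algebraMap N Ω (uE q)) = fun q => algebraMap M Ω (y q) := by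
    rw [huE', tt_mul hACT, hBB, tt_one hACT]
  -- a point with `Q ≠ 0`
  obtain ⟨g0, hg0, hQ0⟩ : ∃ g0 : Matrix (Fin 3) (Fin 3) K, g0.det ≠ 0 ∧
      aeval (tt (ext (N := 2) N g0) (ext (N := 2) N g0⁻¹) uE) Q ≠ 0 := by
    by_contra hcon
    push Not at hcon
    obtain ⟨e1, W1, hW1⟩ := polyact hACT K N uE Q
    have h1 : W1 = 0 := by
      apply hDEN K N 3
      intro g hg
      have hg' : g * g⁻¹ = 1 := Matrix.mul_nonsing_inv g (isUnit_iff_ne_zero.2 hg)
      have hgE : ext (N := 2) N g * ext (N := 2) N g⁻¹ = 1 := ext_mul_ext g g⁻¹ hg'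
      have h3 := hW1 N (ext (N := 2) N g) (ext (N := 2) N g⁻¹) hgE
      have h4 := hcon g hg
      have h5 : (fun q => algebraMap N N (uE q)) = uE := rfl
      rw [h5, h4, mul_zero, MvPolynomial.aeval_eq_eval] at h3
      exact h3
    have h2 := hW1 Ω F.B F.B' hBB
    rw [h1, map_zero, hf'] at h2
    have h3 : aeval (fun q => algebraMap M Ω (y q)) Q = 0 := by
      rcases mul_eq_zero.mp h2.symm with h | h
      · exact absurd h (pow_ne_zero _ hBd)
      · exact h
    have h6 := MvPolynomial.comp_aeval_apply (f := y) (IsScalarTower.toAlgHom K M Ω) Q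
    have h7 : algebraMap M Ω (aeval y Q) = 0 := h6.trans h3
    exact hQ ((map_eq_zero _).1 h7)
  -- the conclusion
  have hg0' : g0 * g0⁻¹ = 1 := Matrix.mul_nonsing_inv g0 (isUnit_iff_ne_zero.2 hg0)
  have hg0Ω : ext (N := 2) Ω g0 * ext (N := 2) Ω g0⁻¹ = 1 := ext_mul_ext g0 g0⁻¹ hg0'
  have hsp : tt (ext (N := 2) Ω g0 * F.B') (F.B * ext (N := 2) Ω g0⁻¹)
      (fun q => algebraMap M Ω (y q)) =
      fun p => algebraMap N Ω (tt (ext (N := 2) N g0) (ext (N := 2) N g0⁻¹) uE p) := by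
    have h12 := tt_map hACT (algebraMap N Ω) (ext (N := 2) N g0) (ext (N := 2) N g0⁻¹) uE
    rw [← h12, ← tt_mul hACT, ← huE']
    rfl
  have h1 := hΩ (ext (N := 2) Ω g0 * F.B') (F.B * ext (N := 2) Ω g0⁻¹) (by
    rw [mul_assoc, ← mul_assoc F.B', hBB', one_mul, hg0Ω])
  rw [hsp] at h1
  have h2 : ∀ R : MvPolynomial (IA k r) K,
      aeval (fun p => algebraMap N Ω (tt (ext (N := 2) N g0) (ext (N := 2) N g0⁻¹) uE p)) R =
        algebraMap N Ω (aeval (tt (ext (N := 2) N g0) (ext (N := 2) N g0⁻¹) uE) R) := by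
    intro R
    exact (MvPolynomial.comp_aeval_apply (f := tt (ext (N := 2) N g0) (ext (N := 2) N g0⁻¹) uE)
      (IsScalarTower.toAlgHom K N Ω) R).symm
  rw [h2, h2] at h1
  have h5 : algebraMap N Ω (aeval (tt (ext (N := 2) N g0) (ext (N := 2) N g0⁻¹) uE) Q) ≠ 0 :=
    (map_ne_zero _).2 hQ0
  have hQ' : algebraMap M Ω (aeval y Q) ≠ 0 := (map_ne_zero _).2 hQ
  have h6 : algebraMap M Ω x = algebraMap N Ω
      (aeval (tt (ext (N := 2) N g0) (ext (N := 2) N g0⁻¹) uE) P /
        aeval (tt (ext (N := 2) N g0) (ext (N := 2) N g0⁻¹) uE) Q) := by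
    rw [hPQ, map_div₀, map_div₀, div_eq_div_iff hQ' h5]
    exact h1.symm
  rw [h6]
  exact (aeval (tt (ext (N := 2) N g0) (ext (N := 2) N g0⁻¹) uE) P /
        aeval (tt (ext (N := 2) N g0) (ext (N := 2) N g0⁻¹) uE) Q : N).2

end Pool.Agent.Z15.MH
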