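import Pool.Agent.Z15.MH.Stm

set_option autoImplicit false

namespace Pool.Agent.Z15.MH

open MvPolynomial Matrix Pool.Agent.Z15.ME

namespace IRD

lemma no_cube {K : Type} [Field K] (b : Polynomial K) (h : b ^ 3 = Polynomial.X) : False := by
  have h1 := congrArg Polynomial.natDegree h
  rw [Polynomial.natDegree_pow, Polynomial.natDegree_X] at h1
  omega

lemma no_sq {K : Type} [Field K] [CharZero K] (b : Polynomial K)
    (h : b ^ 2 = 4 * Polynomial.X ^ 3) : False := by
  have h1 := congrArg Polynomial.natDegree h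
  have h2 : (4 * Polynomial.X ^ 3 : Polynomial K) = Polynomial.C 4 * Polynomial.X ^ 3 := by
    rw [map_ofNat]
  rw [Polynomial.natDegree_pow, h2, Polynomial.natDegree_C_mul_X_pow 3 (4 : K) (by norm_num)] at h1
  omega

/-- discriminant of `T³ + b T² + c T + e` -/
def dsc {R : Type} [CommRing R] (b c e : R) : R :=
  b ^ 2 * c ^ 2 - 4 * c ^ 3 - 4 * b ^ 3 * e - 27 * e ^ 2 + 18 * b * c * e

lemma dsc_map {R S : Type} [CommRing R] [CommRing S] (f : R →+* S) (b c e : R) :
    f (dsc b c e) = dsc (f b) (f c) (f e) := by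
  simp only [dsc, map_add, map_sub, map_mul, map_pow, map_ofNat]

lemma coeffs {R : Type} [CommRing R] (x y z : R) :
    ((Polynomial.X - Polynomial.C x) * (Polynomial.X - Polynomial.C y) *
      (Polynomial.X - Polynomial.C z)).coeff 2 = -(x + y + z) ∧
    ((Polynomial.X - Polynomial.C x) * (Polynomial.X - Polynomial.C y) *
      (Polynomial.X - Polynomial.C z)).coeff 1 = x * y + x * z + y * z ∧
    ((Polynomial.X - Polynomial.C x) * (Polynomial.X - Polynomial.C y) *
      (Polynomial.X - Polynomial.C z)).coeff 0 = -(x * y * z) := by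
  have h := Cubic.prod_X_sub_C_eq (x := x) (y := y) (z := z)
  rw [h]
  refine ⟨?_, ?_, ?_⟩
  · rw [Cubic.coeff_eq_b]
  · rw [Cubic.coeff_eq_c]
  · rw [Cubic.coeff_eq_d]

end IRD

open IRD

theorem t_IRD : S_IRD := by
  intro K₁ M _ _ _ _ X hX hgen
  let f : MvPolynomial (Fin 3 × Fin 3) K₁ →ₐ[K₁] M := aeval fun p : Fin 3 × Fin 3 => X p.1 p.2
  have hf : Function.Injective f := hX
  letI : Algebra (MvPolynomial (Fin 3 × Fin 3) K₁) M := f.toRingHom.toAlgebra
  have hfa : ∀ a, algebraMap (MvPolynomial (Fin 3 × Fin 3) K₁) M a = f a := fun a => rfl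
  have hfs : FaithfulSMul (MvPolynomial (Fin 3 × Fin 3) K₁) M :=
    (faithfulSMul_iff_algebraMap_injective _ _).2 hf
  haveI : IsFractionRing (MvPolynomial (Fin 3 × Fin 3) K₁) M := by
    refine IsFractionRing.of_field _ _ fun z => ?_
    have hz : z ∈ IntermediateField.adjoin K₁ (Set.range fun p : Fin 3 × Fin 3 => X p.1 p.2) := by
      rw [hgen]
      exact IntermediateField.mem_top
    obtain ⟨r, s, h⟩ := (IntermediateField.mem_adjoin_range_iff _ _ _).1 hz
    exact ⟨r, s, h⟩
  haveI : IsIntegrallyClosed (MvPolynomial (Fin 3 × Fin 3) K₁) := inferInstance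
  let Gm : Matrix (Fin 3) (Fin 3) (MvPolynomial (Fin 3 × Fin 3) K₁) :=
    Matrix.of fun i j => MvPolynomial.X (i, j)
  have hGX : Gm.map (algebraMap _ M) = X := by
    ext i j
    change f (MvPolynomial.X (i, j)) = X i j
    simp [f]
  have hchar : X.charpoly = Gm.charpoly.map (algebraMap _ M) := by
    rw [← hGX]
    exact (Matrix.charpoly_map Gm (algebraMap _ M)).symm ▸ rfl
  -- specialisations
  have hspec : ∀ (S : Matrix (Fin 3) (Fin 3) (Polynomial K₁)),
      ∃ φ : MvPolynomial (Fin 3 × Fin 3) K₁ →+* Polynomial K₁,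
        S.charpoly = Gm.charpoly.map φ := by
    intro S
    let φ : MvPolynomial (Fin 3 × Fin 3) K₁ →ₐ[K₁] Polynomial K₁ :=
      aeval fun p : Fin 3 × Fin 3 => S p.1 p.2
    refine ⟨φ.toRingHom, ?_⟩
    have h1 : Gm.map φ.toRingHom = S := by
      ext1 i j
      change φ (MvPolynomial.X (i, j)) = S i j
      simp [φ]
    rw [← Matrix.charpoly_map, h1]
  refine ⟨fun x hx => ?_, fun Ω _ _ l hl => ?_⟩
  · have hint : IsIntegral (MvPolynomial (Fin 3 × Fin 3) K₁) x := by
      refine ⟨Gm.charpoly, Matrix.charpoly_monic _, ?_⟩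
      rw [hchar, Polynomial.eval_map] at hx
      exact hx
    obtain ⟨y, hy⟩ := IsIntegrallyClosed.algebraMap_eq_of_integral hint
    have hy0 : Gm.charpoly.eval y = 0 := by
      apply hf
      rw [map_zero, ← hfa, ← hx, hchar, Polynomial.eval_map, ← hy]
      exact (Polynomial.eval₂_at_apply _ _).symm
    obtain ⟨φ, hφ⟩ := hspec !![0, 0, Polynomial.X; 1, 0, 0; 0, 1, 0]
    have h1 : (!![0, 0, Polynomial.X; 1, 0, 0; 0, 1, 0] :
        Matrix (Fin 3) (Fin 3) (Polynomial K₁)).charpoly.eval (φ y) = 0 := by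
      rw [hφ, Polynomial.eval_map, Polynomial.eval₂_at_apply, hy0, map_zero]
    refine no_cube (φ y) ?_
    rw [Matrix.eval_charpoly, Matrix.det_fin_three] at h1
    simp at h1
    linear_combination h1
  · rintro ⟨d, hd⟩
    have hl' : Gm.charpoly.map ((algebraMap M Ω).comp (algebraMap _ M)) =
        (Polynomial.X - Polynomial.C (l 0)) * (Polynomial.X - Polynomial.C (l 1)) *
          (Polynomial.X - Polynomial.C (l 2)) := by
      rw [← Polynomial.map_map, ← hchar, hl, Fin.prod_univ_three]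
    set F := (algebraMap M Ω).comp (algebraMap (MvPolynomial (Fin 3 × Fin 3) K₁) M) with hF
    obtain ⟨c2, c1, c0⟩ := coeffs (l 0) (l 1) (l 2)
    rw [← hl', Polynomial.coeff_map] at c2 c1 c0
    set D0 := dsc (Gm.charpoly.coeff 2) (Gm.charpoly.coeff 1) (Gm.charpoly.coeff 0) with hD0
    have hdd : F D0 = algebraMap M Ω (d ^ 2) := by
      rw [hD0, dsc_map, c2, c1, c0, map_pow, hd]
      simp only [dsc]
      ring
    have hd2 : algebraMap (MvPolynomial (Fin 3 × Fin 3) K₁) M D0 = d ^ 2 :=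
      (algebraMap M Ω).injective hdd
    have hint : IsIntegral (MvPolynomial (Fin 3 × Fin 3) K₁) d := by
      refine IsIntegral.of_pow (n := 2) (by norm_num) ?_
      rw [← hd2]
      exact isIntegral_algebraMap
    obtain ⟨y, hy⟩ := IsIntegrallyClosed.algebraMap_eq_of_integral hint
    have hy2 : y ^ 2 = D0 := by
      apply hf
      rw [← hfa, ← hfa, hd2, map_pow, hy]
    obtain ⟨φ, hφ⟩ := hspec !![0, 0, 0; 0, 0, Polynomial.X; 0, 1, 0]
    have hS : (!![0, 0, 0; 0, 0, Polynomial.X; 0, 1, 0] :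
        Matrix (Fin 3) (Fin 3) (Polynomial K₁)).charpoly =
        Polynomial.X ^ 3 + Polynomial.C (-Polynomial.X) * Polynomial.X := by
      rw [Matrix.charpoly, Matrix.det_fin_three]
      simp
      ring
    rw [hS] at hφ
    have e2 := congrArg (fun q => q.coeff 2) hφ
    have e1 := congrArg (fun q => q.coeff 1) hφ
    have e0 := congrArg (fun q => q.coeff 0) hφ
    simp only [Polynomial.coeff_map, Polynomial.coeff_add, Polynomial.coeff_X_pow,
      Polynomial.coeff_C_mul, Polynomial.coeff_X] at e2 e1 e0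
    norm_num at e2 e1 e0
    refine no_sq (φ y) ?_
    rw [← map_pow, hy2, hD0, dsc_map, ← e2, ← e1, ← e0]
    simp only [dsc]
    ring

end Pool.Agent.Z15.MH
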