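import Pool.Agent.Z15.MH.Stm

set_option autoImplicit false

/-!
# Project MH, task LAD: linear algebra over `N₀` and `J`
-/

namespace Pool.Agent.Z15.MH

open MvPolynomial Matrix Pool.Agent.Z15.ME

theorem t_LAD : S_LAD := by
  intro K M Ω _ _ _ _ _ _ _ l hmu J N₀ hJ d z I _ w hw
  classical
  obtain ⟨b, hbw, hspan, hind⟩ := exists_linearIndependent N₀ (Set.range w)
  haveI : Finite b := Set.Finite.subset (Set.finite_range w) hbw
  haveI : Fintype b := Fintype.ofFinite b
  -- independence over `J`
  have hindJ : LinearIndependent J (fun x : b => algebraMap M Ω (x : M)) := by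
    rw [Fintype.linearIndependent_iff]
    intro y hy
    choose n hn using fun x : b => hJ (y x : Ω) (y x).2
    have h1 : ∑ a, (∑ x : b, (n x a : M) * (x : M)) • mu l a = 0 := by
      rw [← hy]
      have h2 : ∀ x : b, y x • algebraMap M Ω (x : M) =
          ∑ a, ((n x a : M) * (x : M)) • mu l a := by
        intro x
        have h3 : y x • algebraMap M Ω (x : M) = (y x : Ω) * algebraMap M Ω (x : M) := rfl
        rw [h3, hn x, Finset.sum_mul]
        apply Finset.sum_congr rfl
        intro a _
        rw [Algebra.smul_def, map_mul]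
        ring
      rw [Finset.sum_congr rfl fun x _ => h2 x, Finset.sum_comm]
      apply Finset.sum_congr rfl
      intro a _
      rw [Finset.sum_smul]
    have h4 := Fintype.linearIndependent_iff.1 hmu _ h1
    intro x
    have h5 : ∀ a, n x a = 0 := by
      intro a
      exact Fintype.linearIndependent_iff.1 hind (fun x => n x a) (h4 a) x
    have h6 : (y x : Ω) = 0 := by
      rw [hn x]
      apply Finset.sum_eq_zero
      intro a _
      rw [h5 a]
      simp
    exact Subtype.ext h6
  -- the number of elements
  have hcard : Fintype.card b ≤ d := by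
    have h1 : Submodule.span J (Set.range fun x : b => algebraMap M Ω (x : M)) ≤
        Submodule.span J (Set.range z) := by
      rw [Submodule.span_le]
      rintro _ ⟨x, rfl⟩
      obtain ⟨i, hi⟩ := hbw x.2
      change algebraMap M Ω (x : M) ∈ Submodule.span J (Set.range z)
      rw [← hi]
      exact hw i
    haveI : FiniteDimensional J (Submodule.span J (Set.range z)) :=
      FiniteDimensional.span_of_finite J (Set.finite_range z)
    have h2 := Submodule.finrank_mono h1
    rw [finrank_span_eq_card hindJ] at h2
    have h3 := finrank_range_le_card (R := J) z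
    rw [Fintype.card_fin] at h3
    exact h2.trans h3
  let E : b ≃ Fin (Fintype.card b) := Fintype.equivFin b
  refine ⟨fun i => if h : (i : ℕ) < Fintype.card b then ((E.symm ⟨i, h⟩ : b) : M) else 0, ?_, ?_⟩
  · intro i
    dsimp only
    split_ifs with h
    · exact Submodule.subset_span (hbw (E.symm ⟨i, h⟩).2)
    · exact Submodule.zero_mem _
  · intro i
    have h1 : w i ∈ Submodule.span N₀ (Set.range w) := Submodule.subset_span ⟨i, rfl⟩
    rw [← hspan] at h1
    refine Submodule.span_mono ?_ h1
    intro x hx
    have h2 : ((E ⟨x, hx⟩ : Fin (Fintype.card b)) : ℕ) < d := lt_of_lt_of_le (E ⟨x, hx⟩).2 hcard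
    refine ⟨⟨(E ⟨x, hx⟩ : Fin (Fintype.card b)), h2⟩, ?_⟩
    dsimp only
    rw [dif_pos (E ⟨x, hx⟩).2]
    simp

end Pool.Agent.Z15.MH
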