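import Pool.Agent.Z15.MH.Stm

set_option autoImplicit false

/-!
# (MEM): `Ŷ` and `f̂` are in `M(l)`
-/

namespace Pool.Agent.Z15.MH

open MvPolynomial Matrix Pool.Agent.Z15.ME

theorem t_MEM (hROT : S_ROT) (hGAL : ME.S_GAL) : S_MEM := by
  intro k r K M _ _ _ _ D Ω _ _ _ _ _ _ F
  have hc : CharZero M := charZero_of_injective_algebraMap (algebraMap K M).injective
  have key : ∀ σ : Ω ≃ₐ[IntermediateField.adjoin M (Set.range F.l)] Ω,
      (∀ i j, σ (F.Yh i j) = F.Yh i j) ∧ ∀ p, σ (F.fh p) = F.fh p := by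
    intro σ
    obtain ⟨π, t, -, -, -, -, -, h⟩ := hROT k r K M D Ω F (AlgEquiv.restrictScalars M σ)
    exact h (fun i => σ.commutes (⟨F.l i, IntermediateField.subset_adjoin M _ ⟨i, rfl⟩⟩ :
      IntermediateField.adjoin M (Set.range F.l)))
  have hal : Algebra.IsAlgebraic (IntermediateField.adjoin M (Set.range F.l)) Ω :=
    Algebra.IsAlgebraic.tower_top (K := M) _
  have hcL : CharZero (IntermediateField.adjoin M (Set.range F.l)) :=
    charZero_of_injective_algebraMap (algebraMap M (IntermediateField.adjoin M (Set.range F.l))).injective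
  refine ⟨fun i j => ?_, fun p => ?_⟩
  · obtain ⟨e, he⟩ := hGAL (IntermediateField.adjoin M (Set.range F.l)) Ω (F.Yh i j) fun σ => (key σ).1 i j
    rw [← he]
    exact e.2
  · obtain ⟨e, he⟩ := hGAL (IntermediateField.adjoin M (Set.range F.l)) Ω (F.fh p) fun σ => (key σ).2 p
    rw [← he]
    exact e.2

end Pool.Agent.Z15.MH
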