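import Pool.Agent.Z15.MH.Stm

set_option autoImplicit false

/-!
# S_NOR: uniqueness of the frame
-/

namespace Pool.Agent.Z15.MH

open MvPolynomial Matrix Pool.Agent.Z15.ME

theorem t_NOR : S_NOR := by
  intro Ω _ k l hl X Y H B B' C C' π hH hB hC
  obtain ⟨hB1, hB2, hB3, -, -, -⟩ := hB
  obtain ⟨hC1, hC2, hC3, hC4, hC5, -⟩ := hC
  have hB1' : B' * B = 1 := mul_eq_one_comm.1 hB1
  have hC1' : C' * C = 1 := mul_eq_one_comm.1 hC1
  obtain ⟨T, hT⟩ : ∃ T, T = B' * C := ⟨_, rfl⟩
  have hCT : C = B * T := by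
    rw [hT, ← Matrix.mul_assoc, hB1, Matrix.one_mul]
  have hinv : (C' * B) * T = 1 := by
    rw [Matrix.mul_assoc, ← hCT, hC1']
  -- the shape of `T`
  have hdiag : Matrix.diagonal l * T = T * Matrix.diagonal (fun i => l (π i)) := by
    calc Matrix.diagonal l * T = B' * X * B * T := by rw [hB3]
      _ = B' * X * C := by rw [Matrix.mul_assoc (B' * X), ← hCT]
      _ = B' * (C * C') * X * C := by rw [hC1, Matrix.mul_one]
      _ = T * (C' * X * C) := by rw [hT]; simp only [Matrix.mul_assoc]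
      _ = _ := by rw [hC3]
  have hz : ∀ i j, i ≠ π j → T i j = 0 := by
    intro i j hij
    have h1 := congrFun (congrFun hdiag i) j
    rw [Matrix.diagonal_mul, Matrix.mul_diagonal] at h1
    have h2 : (l i - l (π j)) * T i j = 0 := by
      rw [sub_mul, h1]
      ring
    rcases mul_eq_zero.1 h2 with h3 | h3
    · exact absurd (sub_eq_zero.1 h3) (hl i (π j) hij)
    · exact h3
  obtain ⟨τ, hτ⟩ : ∃ τ : Fin 3 → Ω, τ = fun j => T (π j) j := ⟨_, rfl⟩
  have hτ' : ∀ j, T (π j) j = τ j := fun j => by rw [hτ]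
  have hsum : ∀ (v : Fin 3 → Ω) (j : Fin 3), ∑ b, v b * T b j = v (π j) * τ j := by
    intro v j
    rw [Finset.sum_eq_single (π j), hτ']
    · intro b _ hb
      rw [hz b j hb, mul_zero]
    · intro h
      exact absurd (Finset.mem_univ _) h
  have hτ0 : ∀ j, τ j ≠ 0 := by
    intro j h0
    have h1 := congrFun (congrFun hinv j) j
    rw [Matrix.mul_apply, hsum, h0, mul_zero, Matrix.one_apply_eq] at h1
    exact zero_ne_one h1
  -- the matrix `Y`
  have hY : T * (C' * Y * C) = B' * Y * B * T := by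
    calc T * (C' * Y * C) = B' * (C * C') * Y * C := by rw [hT]; simp only [Matrix.mul_assoc]
      _ = B' * Y * C := by rw [hC1, Matrix.mul_one]
      _ = B' * Y * B * T := by rw [Matrix.mul_assoc (B' * Y), ← hCT]
  have hYe : ∀ j, τ j * (C' * Y * C) j 0 = (B' * Y * B) (π j) (π 0) * τ 0 := by
    intro j
    have h1 := congrFun (congrFun hY (π j)) 0
    rw [Matrix.mul_apply, Matrix.mul_apply (M := B' * Y * B), hsum,
      Finset.sum_eq_single j, hτ'] at h1
    · exact h1
    · intro b _ hb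
      rw [hz (π j) b fun h => hb (π.injective h).symm, zero_mul]
    · intro h
      exact absurd (Finset.mem_univ _) h
  have hC0 : ∀ j : Fin 3, j ≠ 0 → (C' * Y * C) j 0 = 1 := by
    intro j hj
    fin_cases j
    · exact absurd rfl hj
    · exact hC4
    · exact hC5
  have hTT : T = τ 0 • (Matrix.of fun i j => if i = π j then τ j / τ 0 else 0) := by
    ext i j
    rw [Matrix.smul_apply, Matrix.of_apply, smul_eq_mul]
    by_cases h : i = π j
    · rw [if_pos h, h, hτ', mul_div_cancel₀ _ (hτ0 0)]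
    · rw [if_neg h, hz i j h, mul_zero]
  refine ⟨τ 0, fun j => τ j / τ 0, hτ0 0, fun j => div_ne_zero (hτ0 j) (hτ0 0),
    div_self (hτ0 0), fun j hj => ?_, ?_, ?_⟩
  · have h1 := hYe j
    rw [hC0 j hj, mul_one] at h1
    simp only
    rw [h1, mul_div_assoc, div_self (hτ0 0), mul_one]
  · rw [← Matrix.mul_smul, ← hTT]
    exact hCT
  · have h1 : C.det = B.det * T.det := by rw [hCT, Matrix.det_mul]
    have h2 : T.det = τ 0 ^ 3 *
        (Matrix.of fun i j => if i = π j then τ j / τ 0 else 0 : Matrix (Fin 3) (Fin 3) Ω).det := by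
      conv_lhs => rw [hTT]
      rw [Matrix.det_smul, Fintype.card_fin]
    have h3 : B.det ^ k * T.det ^ k = B.det ^ k * 1 := by
      rw [mul_one, ← mul_pow, ← h1, hC2, hB2]
    have h4 : B.det ^ k ≠ 0 := by
      rw [hB2]
      exact hH
    have h5 := mul_left_cancel₀ h4 h3
    rw [h2, mul_pow, ← pow_mul] at h5
    exact h5

end Pool.Agent.Z15.MH
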