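import Pool.Agent.Z15.MH.Stm

/-! Task PRM: all permutations of the roots are realised. -/

set_option autoImplicit false
set_option linter.all false

namespace Pool.Agent.Z15.MH

open MvPolynomial Matrix Pool.Agent.Z15.ME

namespace PRM

/-- a relation between `1`, `l 0`, `l 1` is trivial -/
theorem ind3 {M Ω : Type} [Field M] [Field Ω] [Algebra M Ω] {l : Fin 3 → Ω}
    (hl : LinearIndependent M (mu l)) (a b c : M)
    (h : algebraMap M Ω a + algebraMap M Ω b * l 0 + algebraMap M Ω c * l 1 = 0) :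
    b = 0 ∧ c = 0 := by
  set g : Fin 3 × Fin 2 → M := fun p =>
    if p = (0, 0) then a else if p = (1, 0) then b else if p = (0, 1) then c else 0 with hg
  have h0 := Fintype.linearIndependent_iff.1 hl g (by
    rw [Fintype.sum_prod_type, Fin.sum_univ_three]
    simp only [Fin.sum_univ_two, mu, hg, Algebra.smul_def]
    simp
    rw [← h]
    ring)
  have h1 := h0 (1, 0)
  have h2 := h0 (0, 1)
  simp [hg] at h1 h2
  exact ⟨h1, h2⟩

theorem sum_roots {M Ω : Type} [Field M] [Field Ω] [Algebra M Ω] {p : Polynomial M} {l : Fin 3 → Ω}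
    (hp : Roots p l) : l 0 + l 1 + l 2 = - algebraMap M Ω (p.coeff 2) := by
  have h1 : (p.map (algebraMap M Ω)).coeff 2 = algebraMap M Ω (p.coeff 2) := Polynomial.coeff_map _ _
  rw [show p.map (algebraMap M Ω) = ∏ i, (Polynomial.X - Polynomial.C (l i)) from hp,
    Fin.prod_univ_three] at h1
  have h2 : (Polynomial.X - Polynomial.C (l 0)) * (Polynomial.X - Polynomial.C (l 1)) *
      (Polynomial.X - Polynomial.C (l 2)) = Polynomial.X ^ 3 -
      Polynomial.C (l 0 + l 1 + l 2) * Polynomial.X ^ 2 +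
      Polynomial.C (l 0 * l 1 + l 0 * l 2 + l 1 * l 2) * Polynomial.X -
      Polynomial.C (l 0 * l 1 * l 2) := by
    simp only [map_add, map_mul]
    ring
  rw [h2] at h1
  simp only [Polynomial.coeff_sub, Polynomial.coeff_add, Polynomial.coeff_C_mul,
    Polynomial.coeff_X_pow, Polynomial.coeff_X, Polynomial.coeff_C] at h1
  norm_num at h1
  rw [← h1]
  ring

theorem inj {M Ω : Type} [Field M] [CharZero M] [Field Ω] [Algebra M Ω] {p : Polynomial M}
    {l : Fin 3 → Ω} (hp : Roots p l) (hl : LinearIndependent M (mu l)) :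
    Function.Injective l := by
  have hs := sum_roots hp
  have h01 : l 0 ≠ l 1 := by
    intro h
    have h1 := (ind3 hl 0 1 (-1) (by simp [h])).1
    exact one_ne_zero h1
  have h02 : l 0 ≠ l 2 := by
    intro h
    have h1 := (ind3 hl (p.coeff 2) 2 1 (by
      rw [← h] at hs
      have h3 : algebraMap M Ω (p.coeff 2) = -(l 0 + l 1 + l 0) := by rw [hs, neg_neg]
      rw [h3, map_ofNat, map_one]
      ring)).2
    exact one_ne_zero h1
  have h12 : l 1 ≠ l 2 := by
    intro h
    have h1 := (ind3 hl (p.coeff 2) 1 2 (by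
      rw [← h] at hs
      have h3 : algebraMap M Ω (p.coeff 2) = -(l 0 + l 1 + l 1) := by rw [hs, neg_neg]
      rw [h3, map_ofNat, map_one]
      ring)).1
    exact one_ne_zero h1
  have key : ∀ i j : Fin 3, i < j → l i ≠ l j := by
    intro i j hlt
    have h : (i = 0 ∧ j = 1) ∨ (i = 0 ∧ j = 2) ∨ (i = 1 ∧ j = 2) := by
      revert i j
      decide
    rcases h with ⟨rfl, rfl⟩ | ⟨rfl, rfl⟩ | ⟨rfl, rfl⟩
    exacts [h01, h02, h12]
  intro i j hij
  rcases lt_trichotomy i j with h | h | h
  · exact absurd hij (key i j h)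
  · exact h
  · exact absurd hij.symm (key j i h)

end PRM

open PRM in
theorem t_PRM : S_PRM := by
  intro M Ω _ _ _ _ _ _ p l hp hl π
  have hinj := inj hp hl
  set L : IntermediateField M Ω := IntermediateField.adjoin M (Set.range l) with hL
  haveI hfd : FiniteDimensional M L := IntermediateField.finiteDimensional_adjoin fun x _ =>
    Algebra.IsIntegral.isIntegral x
  have hmem : ∀ i, l i ∈ L := fun i => IntermediateField.subset_adjoin _ _ ⟨i, rfl⟩
  -- the degree is at least 6
  have h6 : 6 ≤ Module.finrank M L := by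
    have h1 : LinearIndependent M (fun a : Fin 3 × Fin 2 =>
        ((⟨l 0, hmem 0⟩ : L) ^ (a.1 : ℕ) * (⟨l 1, hmem 1⟩ : L) ^ (a.2 : ℕ))) := by
      apply LinearIndependent.of_comp L.val.toLinearMap
      exact hl
    have h2 := h1.fintype_card_le_finrank
    simpa using h2
  have hcard : Fintype.card (L →ₐ[M] Ω) = Module.finrank M L := AlgHom.card M L Ω
  -- an embedding permutes the roots
  have hroot : ∀ (f : L →ₐ[M] Ω) (i : Fin 3), ∃ j, f ⟨l i, hmem i⟩ = l j := by
    intro f i
    have h1 : Polynomial.aeval (l i) p = 0 := by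
      rw [Polynomial.aeval_def, ← Polynomial.eval_map,
        show p.map (algebraMap M Ω) = ∏ i, (Polynomial.X - Polynomial.C (l i)) from hp,
        Polynomial.eval_prod]
      exact Finset.prod_eq_zero (Finset.mem_univ i) (by simp)
    have h2 : Polynomial.aeval (⟨l i, hmem i⟩ : L) p = 0 := by
      have h4 := Polynomial.aeval_algHom_apply L.val (⟨l i, hmem i⟩ : L) p
      have h5 : Polynomial.aeval (L.val (⟨l i, hmem i⟩ : L)) p = 0 := h1
      rw [h5] at h4
      exact Subtype.ext h4.symm
    have h3 : Polynomial.aeval (f ⟨l i, hmem i⟩) p = 0 := by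
      rw [Polynomial.aeval_algHom_apply, h2, map_zero]
    rw [Polynomial.aeval_def, ← Polynomial.eval_map,
      show p.map (algebraMap M Ω) = ∏ i, (Polynomial.X - Polynomial.C (l i)) from hp,
      Polynomial.eval_prod, Finset.prod_eq_zero_iff] at h3
    obtain ⟨j, -, hj⟩ := h3
    refine ⟨j, ?_⟩
    rw [Polynomial.eval_sub, Polynomial.eval_X, Polynomial.eval_C, sub_eq_zero] at hj
    exact hj
  choose τ hτ using hroot
  have hτi : ∀ f, Function.Injective (τ f) := by
    intro f i j hij
    have h1 : f ⟨l i, hmem i⟩ = f ⟨l j, hmem j⟩ := by rw [hτ, hτ, hij]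
    have h2 := f.injective h1
    exact hinj (congrArg Subtype.val h2)
  set Φ : (L →ₐ[M] Ω) → Equiv.Perm (Fin 3) := fun f =>
    Equiv.ofBijective (τ f) (Finite.injective_iff_bijective.1 (hτi f)) with hΦ
  have hΦi : Function.Injective Φ := by
    intro f g hfg
    apply IntermediateField.adjoin_algHom_ext M
    rintro x ⟨i, rfl⟩
    have h1 : τ f i = τ g i := congrArg (fun e : Equiv.Perm (Fin 3) => e i) hfg
    show f ⟨l i, hmem i⟩ = g ⟨l i, hmem i⟩
    rw [hτ, hτ, h1]
  have hΦb : Function.Bijective Φ := by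
    rw [Fintype.bijective_iff_injective_and_card]
    refine ⟨hΦi, le_antisymm (Fintype.card_le_of_injective Φ hΦi) ?_⟩
    rw [hcard, Fintype.card_perm, Fintype.card_fin]
    exact h6
  obtain ⟨f, hf⟩ := hΦb.2 π
  haveI : IsAlgClosure M Ω := ⟨inferInstance, inferInstance⟩
  haveI : Normal M Ω := IsAlgClosure.normal M Ω
  have hb := Algebra.IsAlgebraic.algHom_bijective (f.liftNormal Ω)
  refine ⟨AlgEquiv.ofBijective (f.liftNormal Ω) hb, fun i => ?_⟩
  have h1 : f.liftNormal Ω (algebraMap L Ω ⟨l i, hmem i⟩) = algebraMap Ω Ω (f ⟨l i, hmem i⟩) :=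
    AlgHom.liftNormal_commutes f Ω _
  have h2 : τ f i = π i := congrArg (fun e : Equiv.Perm (Fin 3) => e i) hf
  rw [← h2, ← hτ f i]
  exact h1

end Pool.Agent.Z15.MH
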