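import Pool.Agent.Z15.MH.Stm

/-!
# Project MH: task RAZ
-/

set_option autoImplicit false

namespace Pool.Agent.Z15.MH

open MvPolynomial Matrix Pool.Agent.Z15.ME

theorem t_RAZ (hGEZ : S_GEZ) : S_RAZ := by
  classical
  intro k r K M _ _ _ _ D
  obtain ⟨e, v, he, hv, hgen, hind⟩ := hGEZ k r K M D
  obtain ⟨x, hxd⟩ : ∃ x : Fin 10 ⊕ (Fin (Nat.card (J2 2 (3 * k))) ⊕ Fin r) → M,
    x = Sum.elim e (Sum.elim v D.Z) := ⟨_, rfl⟩
  have hx : Set.range x = Set.range e ∪ Set.range v ∪ Set.range D.Z := by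
    rw [hxd, Set.Sum.elim_range, Set.Sum.elim_range, Set.union_assoc]
  rw [← hxd] at hind
  obtain ⟨q, ⟨ε⟩⟩ := Finite.exists_equiv_fin (Fin 10 ⊕ (Fin (Nat.card (J2 2 (3 * k))) ⊕ Fin r))
  refine ⟨q, x ∘ ε.symm, hind.comp _ ε.symm.injective, fun y => ?_⟩
  have h5 : Set.range (x ∘ ε.symm) = Set.range x := by
    rw [Set.range_comp, ε.symm.surjective.range_eq, Set.image_univ]
  rw [h5, hx]
  constructor
  · exact hgen y
  · intro hy g
    have h6 : IntermediateField.adjoin K (Set.range e ∪ Set.range v ∪ Set.range D.Z) ≤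
        { carrier := {z | D.φ g z = z}
          mul_mem' := by intro a b ha hb; change D.φ g _ = _; rw [map_mul, ha, hb]
          add_mem' := by intro a b ha hb; change D.φ g _ = _; rw [map_add, ha, hb]
          algebraMap_mem' := by intro c; change D.φ g _ = _; rw [AlgHom.commutes]
          inv_mem' := by intro a ha; change D.φ g _ = _; rw [map_inv₀, ha] } := by
      rw [IntermediateField.adjoin_le_iff]
      rintro _ ((⟨p, rfl⟩ | ⟨p, rfl⟩) | ⟨p, rfl⟩)
      · exact he p g
      · exact hv p g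
      · exact D.hZ g p
    exact h6 hy

end Pool.Agent.Z15.MH
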