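import Pool.Agent.Z15.MH.Stm

set_option autoImplicit false

/-!
# ROT: the automorphisms over `M`
-/

namespace Pool.Agent.Z15.MH

open MvPolynomial Matrix Pool.Agent.Z15.ME

namespace ROTaux

/-- a ring homomorphism which fixes the polynomial permutes the roots -/
theorem perm {M Ω : Type} [Field M] [Field Ω] [Algebra M Ω] (p : Polynomial M) (l : Fin 3 → Ω) (hl : Roots p l)
    (hne : ∀ i j, i ≠ j → l i ≠ l j) (ψ : Ω →+* Ω)
    (hψ : (p.map (algebraMap M Ω)).map ψ = p.map (algebraMap M Ω)) :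
    ∃ π : Equiv.Perm (Fin 3), ∀ i, ψ (l i) = l (π i) := by
  have hl' : p.map (algebraMap M Ω) = ∏ i, (Polynomial.X - Polynomial.C (l i)) := hl
  have h1 : ∀ i, ∃ j, ψ (l i) = l j := by
    intro i
    have h2 : (p.map (algebraMap M Ω)).eval (ψ (l i)) = 0 := by
      rw [← hψ, Polynomial.eval_map, Polynomial.eval₂_hom, hl', Polynomial.eval_prod,
        Finset.prod_eq_zero (Finset.mem_univ i) (by simp), map_zero]
    rw [hl', Polynomial.eval_prod, Finset.prod_eq_zero_iff] at h2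
    obtain ⟨j, -, hj⟩ := h2
    refine ⟨j, ?_⟩
    simpa [sub_eq_zero] using hj
  choose π hπ using h1
  have hinj : Function.Injective π := by
    intro i j hij
    by_contra h
    exact hne i j h (ψ.injective (by rw [hπ i, hπ j, hij]))
  exact ⟨Equiv.ofBijective π (Finite.injective_iff_bijective.1 hinj), hπ⟩

/-- images of frames -/
theorem frMap {Ω Ω' : Type} [Field Ω] [Field Ω'] (ψ : Ω →+* Ω') (k : ℕ) (l : Fin 3 → Ω)
    (X Y : Matrix (Fin 3) (Fin 3) Ω) (H : Ω) (B B' : Matrix (Fin 3) (Fin 3) Ω) (h : Fr k l X Y H B B') :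
    Fr k (fun i => ψ (l i)) (X.map ψ) (Y.map ψ) (ψ H) (B.map ψ) (B'.map ψ) := by
  obtain ⟨h1, h2, h3, h4, h5, h6⟩ := h
  have hY : B'.map ψ * Y.map ψ * B.map ψ = (B' * Y * B).map ψ := by
    rw [Matrix.map_mul, Matrix.map_mul]
  refine ⟨?_, ?_, ?_, ?_, ?_, ?_⟩
  · rw [← Matrix.map_mul, h1, Matrix.map_one _ (map_zero ψ) (map_one ψ)]
  · rw [← h2, map_pow, RingHom.map_det]
    rfl
  · rw [← Matrix.map_mul, ← Matrix.map_mul, h3, Matrix.diagonal_map (map_zero ψ)]
  · rw [hY, Matrix.map_apply, h4, map_one]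
  · rw [hY, Matrix.map_apply, h5, map_one]
  · intro i j hij
    rw [hY, Matrix.map_apply]
    exact (map_ne_zero ψ).2 (h6 i j hij)

/-- scalars -/
theorem act_smul (hACT : ME.S_ACT) {Ω : Type} [Field Ω] (d : ℕ) (κ : Ω) (hκ : κ ≠ 0)
    (A A' : Matrix (Fin 3) (Fin 3) Ω) (c : Fin 3 × Mon 3 (d + 1) → Ω) :
    act (κ⁻¹ • A) (κ • A') c = fun p => κ ^ d * act A A' c p := by
  obtain ⟨-, -, -, -, -, -, a7, -, a9, -⟩ := hACT 3 (d + 1) Ω
  have h := a7 (κ⁻¹ • (1 : Matrix (Fin 3) (Fin 3) Ω)) (κ • (1 : Matrix (Fin 3) (Fin 3) Ω)) A A' c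
  rw [smul_mul_assoc, one_mul, mul_smul_comm, mul_one, a9] at h
  rw [← h]
  funext p
  rw [pow_succ]
  field_simp

/-- linear combinations over a subfield -/
theorem act_mem_span (hPLY : ME.S_PLY) {K Ω : Type} [Field K] [Field Ω] [Algebra K Ω] (J : IntermediateField K Ω)
    (d : ℕ) (A A' : Matrix (Fin 3) (Fin 3) Ω) (hA : ∀ i j, A i j ∈ J) (hA' : ∀ i j, A' i j ∈ J)
    (c : Fin 3 × Mon 3 d → Ω) (p : Fin 3 × Mon 3 d) : act A A' c p ∈ Submodule.span J (Set.range c) := by
  obtain ⟨P, hP⟩ := hPLY 3 d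
  unfold act
  refine Submodule.sum_mem _ fun l _ => ?_
  rw [hP, Finset.mul_sum]
  refine Submodule.sum_mem _ fun α _ => ?_
  have h1 : aeval (fun q : Fin 3 × Fin 3 => A' q.1 q.2) (P p.2 α) ∈ J := by
    have h2 := MvPolynomial.aeval_algebraMap_apply (A := J) (B := Ω) (R := ℤ)
      (fun q : Fin 3 × Fin 3 => (⟨A' q.1 q.2, hA' _ _⟩ : J)) (P p.2 α)
    have h3 : (aeval (fun q : Fin 3 × Fin 3 => A' q.1 q.2) (P p.2 α)) =
      algebraMap J Ω (aeval (fun q : Fin 3 × Fin 3 => (⟨A' q.1 q.2, hA' _ _⟩ : J)) (P p.2 α)) := h2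
    rw [h3]
    exact SetLike.coe_mem _
  have h4 := Submodule.smul_mem (Submodule.span J (Set.range c))
    (⟨A p.1 l * _, J.mul_mem (hA p.1 l) h1⟩ : J) (Submodule.subset_span ⟨(l, α), rfl⟩)
  rw [← mul_assoc]
  exact h4

end ROTaux

open ROTaux in
theorem t_ROT (hNOR : S_NOR) (hSIX : S_SIX) (hACT : ME.S_ACT) (hPLY : ME.S_PLY) : S_ROT := by
  intro k r K M _ _ _ _ D Ω _ _ _ _ _ _ F σ
  obtain ⟨-, hne, -⟩ := hSIX k r K M D Ω F.l F.hl
  have hH0 : D.H ≠ 0 := D.ind.ne_zero (Sum.inr (Sum.inr (Sum.inr (Sum.inl ()))))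
  have hH : algebraMap M Ω D.H ≠ 0 := (map_ne_zero _).2 hH0
  set s : Ω →+* Ω := (σ : Ω →+* Ω) with hs
  have hsa : ∀ x : M, s (algebraMap M Ω x) = algebraMap M Ω x := fun x => σ.commutes x
  have hfix : (D.X.charpoly.map (algebraMap M Ω)).map s = D.X.charpoly.map (algebraMap M Ω) := by
    rw [Polynomial.map_map]
    congr 1
    ext x
    exact hsa x
  obtain ⟨π, hπ⟩ := perm _ F.l F.hl hne s hfix
  have hms : ∀ A : Matrix (Fin 3) (Fin 3) M, (A.map (algebraMap M Ω)).map s = A.map (algebraMap M Ω) := by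
    intro A
    ext i j
    exact hsa _
  have hfr := frMap s k F.l _ _ _ _ _ F.fr
  rw [hms, hms, hsa] at hfr
  simp only [hπ] at hfr
  obtain ⟨κ, t, hκ, ht, ht0, htj, hC, hdet⟩ := hNOR Ω k F.l hne _ _ _ F.B F.B' _ _ π hH F.fr hfr
  set T : Matrix (Fin 3) (Fin 3) Ω := Matrix.of fun i j => if i = π j then t j else 0 with hT
  set T' : Matrix (Fin 3) (Fin 3) Ω := Matrix.of fun i j => if π i = j then (t i)⁻¹ else 0 with hT'
  have hT'T : T' * T = 1 := by
    ext i j
    rw [Matrix.mul_apply, Finset.sum_eq_single (π i)]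
    · simp only [hT, hT', Matrix.of_apply, if_true, Matrix.one_apply]
      by_cases hij : i = j
      · subst hij
        simp [ht i]
      · simp [hij]
    · intro b _ hb
      simp [hT', Ne.symm hb]
    · intro h
      exact absurd (Finset.mem_univ _) h
  have hB'B : F.B' * F.B = 1 := mul_eq_one_comm.1 F.fr.1
  have hC' : F.B'.map s = κ⁻¹ • (T' * F.B') := by
    symm
    refine left_inv_eq_right_inv (a := F.B.map s) ?_ hfr.1
    rw [hC, smul_mul_smul_comm, inv_mul_cancel₀ hκ, one_smul, Matrix.mul_assoc, ← Matrix.mul_assoc F.B', hB'B,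
      Matrix.one_mul, hT'T]
  have hYs : ∀ i j, s (F.Yh i j) = (t i)⁻¹ * F.Yh (π i) (π j) * t j := by
    intro i j
    have h1 : F.Yh.map s = T' * F.Yh * T := by
      unfold FZ.Yh
      rw [Matrix.map_mul, Matrix.map_mul, hms, hC, hC']
      rw [smul_mul_assoc, smul_mul_smul_comm, inv_mul_cancel₀ hκ, one_smul]
      simp only [Matrix.mul_assoc]
    have h2 : s (F.Yh i j) = (T' * F.Yh * T) i j := by
      rw [← h1, Matrix.map_apply]
    rw [h2, Matrix.mul_apply, Finset.sum_eq_single (π j), Matrix.mul_apply, Finset.sum_eq_single (π i)]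
    · simp [hT, hT']
    · intro b _ hb
      simp [hT', Ne.symm hb]
    · intro h
      exact absurd (Finset.mem_univ _) h
    · intro b _ hb
      simp [hT, hb]
    · intro h
      exact absurd (Finset.mem_univ _) h
  obtain ⟨-, -, -, -, -, -, a7, a8, -, -, a11⟩ := hACT 3 (3 * k + 1) Ω
  have hfs : ∀ p, s (F.fh p) = κ ^ (3 * k) * act T' T F.fh p := by
    intro p
    have h1 := congrFun (a11 Ω s F.B' F.B fun p => algebraMap M Ω (D.f p)) p
    simp only [hsa] at h1
    have h2 : s (F.fh p) = act (F.B'.map s) (F.B.map s) (fun p => algebraMap M Ω (D.f p)) p := h1.symm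
    rw [h2, hC, hC', act_smul hACT _ κ hκ]
    simp only
    rw [← a7]
    rfl
  have hYJ : ∀ i j, F.Yh i j ∈ F.J (K := K) := fun i j =>
    IntermediateField.subset_adjoin K _ (Or.inr ⟨(i, j), rfl⟩)
  have htJ : ∀ j, t j ∈ F.J (K := K) := by
    intro j
    by_cases hj : j = 0
    · rw [hj, ht0]
      exact (F.J (K := K)).one_mem
    · rw [htj j hj]
      exact hYJ _ _
  have hTJ : ∀ i j, T i j ∈ F.J (K := K) := by
    intro i j
    simp only [hT, Matrix.of_apply]
    split_ifs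
    · exact htJ j
    · exact (F.J (K := K)).zero_mem
  have hT'J : ∀ i j, T' i j ∈ F.J (K := K) := by
    intro i j
    simp only [hT', Matrix.of_apply]
    split_ifs
    · exact (F.J (K := K)).inv_mem (htJ i)
    · exact (F.J (K := K)).zero_mem
  have hκJ : κ ^ (3 * k) ∈ F.J (K := K) := by
    have h1 : T.det ∈ F.J (K := K) := by
      rw [Matrix.det_apply]
      refine sum_mem fun τ _ => ?_
      refine zsmul_mem (prod_mem fun i _ => hTJ _ _) _
    rw [eq_inv_of_mul_eq_one_left hdet]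
    exact (F.J (K := K)).inv_mem (pow_mem h1 k)
  refine ⟨π, t, hπ, htJ, ht, hYs, ?_, ?_⟩
  · intro p
    have h1 := act_mem_span hPLY (F.J (K := K)) (3 * k + 1) T' T hT'J hTJ F.fh p
    have h2 := Submodule.smul_mem _ (⟨κ ^ (3 * k), hκJ⟩ : F.J (K := K)) h1
    have h3 : σ (F.fh p) = κ ^ (3 * k) * act T' T F.fh p := hfs p
    rw [h3]
    exact h2
  · intro hl
    have hπ1 : ∀ i, π i = i := by
      intro i
      by_contra h
      refine hne _ _ h ?_
      rw [← hπ i]
      exact hl i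
    have ht1 : ∀ j, t j = 1 := by
      intro j
      by_cases hj : j = 0
      · rw [hj, ht0]
      · rw [htj j hj, hπ1, hπ1]
        fin_cases j
        · exact absurd rfl hj
        · exact F.fr.2.2.2.1
        · exact F.fr.2.2.2.2.1
    have hT1 : T = 1 := by
      ext i j
      simp only [hT, Matrix.of_apply, hπ1, ht1, Matrix.one_apply]
    have hT'1 : T' = 1 := by
      ext i j
      simp only [hT', Matrix.of_apply, hπ1, ht1, Matrix.one_apply, inv_one]
    constructor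
    · intro i j
      have := hYs i j
      rw [hπ1, hπ1, ht1, ht1, inv_one, one_mul, mul_one] at this
      exact this
    · intro p
      have h1 : σ (F.fh p) = κ ^ (3 * k) * act T' T F.fh p := hfs p
      rw [h1, hT1, hT'1, a8]
      rw [hT1, Matrix.det_one, one_pow, mul_one] at hdet
      rw [hdet, one_mul]

end Pool.Agent.Z15.MH
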