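import Pool.Agent.Z15.MH.Stm

/-! Project MH, task SIX: independence of the monomials, the permutations of the roots. -/

set_option autoImplicit false

namespace Pool.Agent.Z15.MH

open MvPolynomial Matrix Pool.Agent.Z15.ME

namespace SIX

variable {k r : ℕ} {K M : Type} [Field K] [CharZero K] [Field M] [Algebra K M]

/-- the index set of the generators without `X` -/
abbrev IR (k r : ℕ) : Type := J2 2 (3 * k) ⊕ (Fin 3 × Fin 3) ⊕ Unit ⊕ Fin r

/-- the generators without `X` -/
def rest (D : DZ k r K M) : IR k r → M :=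
  Sum.elim (fun j => D.f j.1) (Sum.elim (fun p => D.Y p.1 p.2) (Sum.elim (fun _ => D.H) D.Z))

/-- reindexing -/
def rho (k r : ℕ) : (Fin 3 × Fin 3) ⊕ IR k r → IZ k r
  | Sum.inl p => Sum.inr (Sum.inl p)
  | Sum.inr (Sum.inl j) => Sum.inl j
  | Sum.inr (Sum.inr (Sum.inl p)) => Sum.inr (Sum.inr (Sum.inl p))
  | Sum.inr (Sum.inr (Sum.inr z)) => Sum.inr (Sum.inr (Sum.inr z))

lemma rho_inj (k r : ℕ) : Function.Injective (rho k r) := by
  rintro (a | a | a | a) (b | b | b | b) h <;> simp [rho] at h ⊢ <;> exact h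

lemma coo_rho (D : DZ k r K M) :
    (coo D.f D.X D.Y D.H D.Z) ∘ rho k r = Sum.elim (fun p : Fin 3 × Fin 3 => D.X p.1 p.2) (rest D) := by
  funext x
  rcases x with a | a | a | a <;> rfl

lemma rho_surj (k r : ℕ) : Function.Surjective (rho k r) := by
  rintro (a | a | a | a)
  · exact ⟨Sum.inr (Sum.inl a), rfl⟩
  · exact ⟨Sum.inl a, rfl⟩
  · exact ⟨Sum.inr (Sum.inr (Sum.inl a)), rfl⟩
  · exact ⟨Sum.inr (Sum.inr (Sum.inr a)), rfl⟩

lemma ind (D : DZ k r K M) : AlgebraicIndependent (IntermediateField.adjoin K (Set.range (rest D)))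
    (fun p : Fin 3 × Fin 3 => D.X p.1 p.2) := by
  have h1 := D.ind.comp (rho k r) (rho_inj k r)
  rw [coo_rho] at h1
  exact IntermediateField.algebraicIndependent_adjoin_iff.2 (AlgebraicIndependent.sumElim_iff.1 h1).2

lemma gen (D : DZ k r K M) : IntermediateField.adjoin
    (IntermediateField.adjoin K (Set.range (rest D)))
    (Set.range fun p : Fin 3 × Fin 3 => D.X p.1 p.2) = ⊤ := by
  have h1 : (IntermediateField.adjoin (IntermediateField.adjoin K (Set.range (rest D)))
      (Set.range fun p : Fin 3 × Fin 3 => D.X p.1 p.2)).restrictScalars K = ⊤ := by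
    rw [IntermediateField.adjoin_adjoin_left, ← D.gen]
    congr 1
    rw [Set.union_comm, ← Set.Sum.elim_range, ← coo_rho, (rho_surj k r).range_comp]
  rw [eq_top_iff]
  intro x _
  have h2 : x ∈ (IntermediateField.adjoin (IntermediateField.adjoin K (Set.range (rest D)))
      (Set.range fun p : Fin 3 × Fin 3 => D.X p.1 p.2)).restrictScalars K := by
    rw [h1]
    trivial
  exact h2

end SIX

open SIX in
theorem t_SIX (hIRD : S_IRD) (hIN6 : S_IN6) (hPRM : S_PRM) : S_SIX := by
  intro k r K M _ _ _ _ D Ω _ _ _ _ l hl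
  haveI : CharZero M := charZero_of_injective_algebraMap (algebraMap K M).injective
  haveI : CharZero (IntermediateField.adjoin K (Set.range (rest D))) :=
    charZero_of_injective_algebraMap
      (algebraMap K (IntermediateField.adjoin K (Set.range (rest D)))).injective
  obtain ⟨h1, h2⟩ := hIRD (IntermediateField.adjoin K (Set.range (rest D))) M D.X (ind D) (gen D)
  have h3 := h2 Ω l hl
  have h4 := hIN6 M Ω D.X.charpoly l hl h1 h3
  refine ⟨h4, ?_, hPRM M Ω D.X.charpoly l hl h4⟩
  have h5 : (l 0 - l 1) * (l 1 - l 2) * (l 2 - l 0) ≠ 0 := by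
    intro h
    exact h3 ⟨0, by rw [map_zero, h]⟩
  have h01 : l 0 ≠ l 1 := fun h => h5 (by rw [h]; ring)
  have h12 : l 1 ≠ l 2 := fun h => h5 (by rw [h]; ring)
  have h20 : l 2 ≠ l 0 := fun h => h5 (by rw [h]; ring)
  intro i j hij
  have h6 : ∀ i j : Fin 3, i ≠ j → l i ≠ l j := by
    intro i j
    match i, j with
    | 0, 0 => exact fun h => absurd rfl h
    | 0, 1 => exact fun _ => h01
    | 0, 2 => exact fun _ => h20.symm
    | 1, 0 => exact fun _ => h01.symm
    | 1, 1 => exact fun h => absurd rfl h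
    | 1, 2 => exact fun _ => h12
    | 2, 0 => exact fun _ => h20
    | 2, 1 => exact fun _ => h12.symm
    | 2, 2 => exact fun h => absurd rfl h
  exact h6 i j hij

end Pool.Agent.Z15.MH
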