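import Pool.Agent.Z15.MH.Stm

set_option autoImplicit false

/-! (SLG) selection of independent rows, several blocks -/

namespace Pool.Agent.Z15.MH

open MvPolynomial Matrix Pool.Agent.Z15.ME

theorem t_SLG : S_SLG := by
  intro K F _ _ _ _ τ _ _ s _ _ J _ 𝒞 hC hJ
  classical
  obtain ⟨e⟩ : Nonempty ((Σ t, s t) ↪ J) := Function.Embedding.nonempty_of_card_le hJ
  have h1 : ∀ j : τ, ∃ (k : ℕ) (f : Fin k → F) (g : Fin k → (𝒞 j : Set (s j → J → F))),
      ∑ t, f t • (g t : s j → J → F) = fun i => Pi.single (e ⟨j, i⟩) 1 := by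
    intro j
    have : (fun i => Pi.single (e ⟨j, i⟩) 1 : s j → J → F) ∈ Submodule.span F (𝒞 j : Set (s j → J → F)) := by
      rw [hC]; trivial
    exact Submodule.mem_span_set'.1 this
  choose k f g hg using h1
  let σ : Type := Σ j : τ, Fin (k j)
  -- the rows at the point `x`
  let cc : (σ → F) → (j : τ) → s j → J → F := fun x j => ∑ t, x ⟨j, t⟩ • (g j t : s j → J → F)
  let row : (σ → F) → (Σ t, s t) → J → F := fun x p => cc x p.1 p.2
  let Mt : Matrix (Σ t, s t) (Σ t, s t) (MvPolynomial σ F) := fun p q =>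
    ∑ t, X ⟨p.1, t⟩ * C ((g p.1 t : s p.1 → J → F) p.2 (e q))
  have hev : ∀ x : σ → F, eval x Mt.det = (Matrix.of fun o q => row x o (e q)).det := by
    intro x
    rw [RingHom.map_det]
    congr 1
    ext p q
    rw [RingHom.mapMatrix_apply, Matrix.map_apply, Matrix.of_apply]
    simp only [Mt, row, cc, Finset.sum_apply, Pi.smul_apply, smul_eq_mul, map_sum, map_mul, eval_X, eval_C]
  -- the good point
  let x0 : σ → F := fun s => f s.1 s.2
  have hx0 : eval x0 Mt.det = 1 := by
    rw [hev]
    have : (Matrix.of fun o q => row x0 o (e q)) = (1 : Matrix (Σ t, s t) (Σ t, s t) F) := by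
      ext p q
      have h2 : cc x0 p.1 = fun i => Pi.single (e ⟨p.1, i⟩) 1 := hg p.1
      simp only [Matrix.of_apply, row, h2, Matrix.one_apply, Pi.single_apply, Sigma.eta, e.injective.eq_iff, eq_comm]
    rw [this, Matrix.det_one]
  have hne : Mt.det ≠ 0 := by
    intro h
    rw [h, map_zero] at hx0
    exact zero_ne_one hx0
  obtain ⟨y, hy⟩ : ∃ y : σ → K, eval (fun s => algebraMap K F (y s)) Mt.det ≠ 0 := by
    by_contra hcon
    push Not at hcon
    apply hne
    apply MvPolynomial.funext_set (fun _ => Set.range (algebraMap K F))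
      (fun _ => Set.infinite_range_of_injective (algebraMap K F).injective)
    intro x hx
    rw [map_zero]
    have hx' : ∀ p, ∃ y, algebraMap K F y = x p := fun p => hx p (Set.mem_univ _)
    choose y hy using hx'
    have hxy : x = fun p => algebraMap K F (y p) := by
      funext p
      rw [hy p]
    rw [hxy]
    exact hcon y
  refine ⟨cc fun s => algebraMap K F (y s), ?_, ?_⟩
  · intro j
    refine Submodule.sum_mem _ fun t _ => ?_
    rw [algebraMap_smul]
    exact (𝒞 j).smul_mem _ (g j t).2
  · rw [hev] at hy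
    rw [Fintype.linearIndependent_iff]
    intro a ha
    have h3 : Matrix.vecMul a (Matrix.of fun o q => row (fun s => algebraMap K F (y s)) o (e q)) = 0 := by
      ext q
      have h4 := congrFun ha (e q)
      rw [Finset.sum_apply] at h4
      exact h4
    have h5 := Matrix.eq_zero_of_vecMul_eq_zero hy h3
    intro o
    exact congrFun h5 o

end Pool.Agent.Z15.MH
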