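import Pool.Agent.Z15.MH.Stm

set_option autoImplicit false

/-!
# (SPJ) `N(l)` is spanned by the six monomials
-/

namespace Pool.Agent.Z15.MH

open MvPolynomial Matrix Pool.Agent.Z15.ME

set_option linter.unusedSimpArgs false

namespace SPJ

/-- the coefficients of a cubic polynomial with the roots `l` -/
theorem coeffs {M Ω : Type} [Field M] [Field Ω] [Algebra M Ω] {p : Polynomial M} {l : Fin 3 → Ω}
    (hp : Roots p l) :
    algebraMap M Ω (p.coeff 2) = -(l 0 + l 1 + l 2) ∧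
    algebraMap M Ω (p.coeff 1) = l 0 * l 1 + l 0 * l 2 + l 1 * l 2 ∧
    algebraMap M Ω (p.coeff 0) = -(l 0 * l 1 * l 2) := by
  obtain ⟨a, ha⟩ : ∃ a : Ω, a = -(l 0 + l 1 + l 2) := ⟨_, rfl⟩
  obtain ⟨b, hb⟩ : ∃ b : Ω, b = l 0 * l 1 + l 0 * l 2 + l 1 * l 2 := ⟨_, rfl⟩
  obtain ⟨c, hc⟩ : ∃ c : Ω, c = -(l 0 * l 1 * l 2) := ⟨_, rfl⟩
  have h1 : p.map (algebraMap M Ω) = Polynomial.X ^ 3 + Polynomial.C a * Polynomial.X ^ 2 +
      Polynomial.C b * Polynomial.X + Polynomial.C c := by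
    rw [hp, Fin.prod_univ_three, ha, hb, hc]
    simp only [map_neg, map_add, map_mul]
    ring
  have h2 : ∀ i, algebraMap M Ω (p.coeff i) = (p.map (algebraMap M Ω)).coeff i := fun i =>
    (Polynomial.coeff_map _ _).symm
  rw [← ha, ← hb, ← hc]
  refine ⟨?_, ?_, ?_⟩
  · rw [h2, h1]
    simp [Polynomial.coeff_X, Polynomial.coeff_C, Polynomial.coeff_X_pow]
  · rw [h2, h1]
    simp [Polynomial.coeff_X, Polynomial.coeff_C, Polynomial.coeff_X_pow]
  · rw [h2, h1]
    simp [Polynomial.coeff_X, Polynomial.coeff_C, Polynomial.coeff_X_pow]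

end SPJ

theorem t_SPJ : S_SPJ := by
  intro K M Ω _ _ _ _ _ _ _ p l hp N hN y hy
  classical
  obtain ⟨e2, e1, e0⟩ := SPJ.coeffs hp
  obtain ⟨S, hS⟩ : ∃ S : Submodule N Ω, S = Submodule.span N (Set.range (mu l)) := ⟨_, rfl⟩
  have hsm : ∀ (n : N) (x : Ω), n • x = algebraMap M Ω n * x := fun n x => by
    rw [Algebra.smul_def]
    rfl
  have hm : ∀ i j : ℕ, i < 3 → j < 2 → l 0 ^ i * l 1 ^ j ∈ S := by
    intro i j hi hj
    rw [hS]
    exact Submodule.subset_span ⟨(⟨i, hi⟩, ⟨j, hj⟩), rfl⟩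
  have hc : ∀ (i : ℕ) (x : Ω), x ∈ S → algebraMap M Ω (p.coeff i) * x ∈ S := by
    intro i x hx
    have h := S.smul_mem (⟨p.coeff i, hN i⟩ : N) hx
    rwa [hsm] at h
  have h0 : ∀ x ∈ S, l 0 * x ∈ S := by
    intro x hx
    rw [hS] at hx
    induction hx using Submodule.span_induction with
    | mem x hx =>
      obtain ⟨⟨i, j⟩, rfl⟩ := hx
      show l 0 * (l 0 ^ (i : ℕ) * l 1 ^ (j : ℕ)) ∈ S
      by_cases hi : (i : ℕ) < 2
      · have e : l 0 * (l 0 ^ (i : ℕ) * l 1 ^ (j : ℕ)) = l 0 ^ ((i : ℕ) + 1) * l 1 ^ (j : ℕ) := by ring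
        rw [e]
        exact hm _ _ (by omega) j.2
      · have hi2 : (i : ℕ) = 2 := by omega
        have e : l 0 * (l 0 ^ (i : ℕ) * l 1 ^ (j : ℕ)) =
            -(algebraMap M Ω (p.coeff 2) * (l 0 ^ 2 * l 1 ^ (j : ℕ))) -
            algebraMap M Ω (p.coeff 1) * (l 0 ^ 1 * l 1 ^ (j : ℕ)) -
            algebraMap M Ω (p.coeff 0) * (l 0 ^ 0 * l 1 ^ (j : ℕ)) := by
          rw [e2, e1, e0, hi2]
          ring
        rw [e]
        exact S.sub_mem (S.sub_mem (S.neg_mem (hc 2 _ (hm _ _ (by norm_num) j.2)))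
          (hc 1 _ (hm _ _ (by norm_num) j.2))) (hc 0 _ (hm _ _ (by norm_num) j.2))
    | zero =>
      rw [mul_zero]
      exact S.zero_mem
    | add x y _ _ hx hy =>
      rw [mul_add]
      exact S.add_mem hx hy
    | smul a x _ hx =>
      rw [mul_smul_comm]
      exact S.smul_mem _ hx
  have h0p : ∀ (i : ℕ) (x : Ω), x ∈ S → l 0 ^ i * x ∈ S := by
    intro i
    induction i with
    | zero =>
      intro x hx
      rw [pow_zero, one_mul]
      exact hx
    | succ i ih =>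
      intro x hx
      rw [pow_succ, mul_assoc]
      exact ih _ (h0 x hx)
  have h1 : ∀ x ∈ S, l 1 * x ∈ S := by
    intro x hx
    rw [hS] at hx
    induction hx using Submodule.span_induction with
    | mem x hx =>
      obtain ⟨⟨i, j⟩, rfl⟩ := hx
      show l 1 * (l 0 ^ (i : ℕ) * l 1 ^ (j : ℕ)) ∈ S
      by_cases hj : (j : ℕ) < 1
      · have e : l 1 * (l 0 ^ (i : ℕ) * l 1 ^ (j : ℕ)) = l 0 ^ (i : ℕ) * l 1 ^ ((j : ℕ) + 1) := by ring
        rw [e]
        exact hm _ _ i.2 (by omega)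
      · have hj2 : (j : ℕ) = 1 := by omega
        have e : l 1 * (l 0 ^ (i : ℕ) * l 1 ^ (j : ℕ)) = l 0 ^ (i : ℕ) *
            (-(algebraMap M Ω (p.coeff 2) * (l 0 ^ 0 * l 1 ^ 1)) - l 0 ^ 1 * l 1 ^ 1 -
            algebraMap M Ω (p.coeff 1) * (l 0 ^ 0 * l 1 ^ 0) -
            algebraMap M Ω (p.coeff 2) * (l 0 ^ 1 * l 1 ^ 0) - l 0 ^ 2 * l 1 ^ 0) := by
          rw [e2, e1, hj2]
          ring
        rw [e]
        refine h0p _ _ ?_
        exact S.sub_mem (S.sub_mem (S.sub_mem (S.sub_mem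
          (S.neg_mem (hc 2 _ (hm _ _ (by norm_num) (by norm_num))))
          (hm _ _ (by norm_num) (by norm_num))) (hc 1 _ (hm _ _ (by norm_num) (by norm_num))))
          (hc 2 _ (hm _ _ (by norm_num) (by norm_num)))) (hm _ _ (by norm_num) (by norm_num))
    | zero =>
      rw [mul_zero]
      exact S.zero_mem
    | add x y _ _ hx hy =>
      rw [mul_add]
      exact S.add_mem hx hy
    | smul a x _ hx =>
      rw [mul_smul_comm]
      exact S.smul_mem _ hx
  have h2 : ∀ x ∈ S, l 2 * x ∈ S := by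
    intro x hx
    have e : l 2 * x = -(algebraMap M Ω (p.coeff 2) * x) - l 0 * x - l 1 * x := by
      rw [e2]
      ring
    rw [e]
    exact S.sub_mem (S.sub_mem (S.neg_mem (hc 2 x hx)) (h0 x hx)) (h1 x hx)
  have hli : ∀ i, ∀ x ∈ S, l i * x ∈ S := by
    intro i
    fin_cases i
    · exact h0
    · exact h1
    · exact h2
  have h1S : (1 : Ω) ∈ S := by
    have h := hm 0 0 (by norm_num) (by norm_num)
    simpa using h
  -- the subalgebra
  have hT : ∀ t ∈ Algebra.adjoin N (Set.range l), ∀ x ∈ S, t * x ∈ S := by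
    intro t ht
    induction ht using Algebra.adjoin_induction with
    | mem t ht =>
      obtain ⟨i, rfl⟩ := ht
      exact hli i
    | algebraMap n =>
      intro x hx
      rw [← Algebra.smul_def]
      exact S.smul_mem _ hx
    | add a b _ _ ha hb =>
      intro x hx
      rw [add_mul]
      exact S.add_mem (ha x hx) (hb x hx)
    | mul a b _ _ ha hb =>
      intro x hx
      rw [mul_assoc]
      exact ha _ (hb x hx)
  have halg : ∀ x ∈ Set.range l, IsAlgebraic N x := by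
    rintro _ ⟨i, rfl⟩
    obtain ⟨q, hq⟩ := (Polynomial.mem_lifts (f := algebraMap N M) p).1
      ((Polynomial.lifts_iff_coeff_lifts p).2 fun n => ⟨⟨p.coeff n, hN n⟩, rfl⟩)
    refine ⟨q, ?_, ?_⟩
    · rintro rfl
      rw [Polynomial.map_zero] at hq
      have h3 : p.map (algebraMap M Ω) = ∏ i, (Polynomial.X - Polynomial.C (l i)) := hp
      rw [← hq, Polynomial.map_zero] at h3
      exact Finset.prod_ne_zero_iff.2 (fun i _ => Polynomial.X_sub_C_ne_zero _) h3.symm
    · have h3 : (p.map (algebraMap M Ω)).eval (l i) = 0 := by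
        rw [hp, Polynomial.eval_prod]
        exact Finset.prod_eq_zero (Finset.mem_univ i) (by simp)
      rw [← hq, Polynomial.map_map, Polynomial.eval_map] at h3
      rw [Polynomial.aeval_def]
      exact h3
  have hE := IntermediateField.adjoin_toSubalgebra_of_isAlgebraic halg
  have hyE : y ∈ (IntermediateField.adjoin N (Set.range l)).restrictScalars K := by
    refine (IntermediateField.adjoin_le_iff.2 ?_) hy
    rintro z (⟨n, hn, rfl⟩ | ⟨i, rfl⟩)
    · exact (IntermediateField.adjoin N (Set.range l)).algebraMap_mem (⟨n, hn⟩ : N)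
    · exact IntermediateField.subset_adjoin N (Set.range l) ⟨i, rfl⟩
  have hyT : y ∈ Algebra.adjoin N (Set.range l) := by
    rw [← hE]
    exact hyE
  have hyS : y ∈ S := by
    have h := hT y hyT 1 h1S
    rwa [mul_one] at h
  rw [hS, Submodule.mem_span_range_iff_exists_fun] at hyS
  obtain ⟨n, hn⟩ := hyS
  refine ⟨n, ?_⟩
  rw [← hn]
  exact Finset.sum_congr rfl fun a _ => hsm _ _

end Pool.Agent.Z15.MH
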