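import Pool.Agent.Z15.MH.Stm

/-! Project MH, task TDZ (helper37): algebraic independence. -/

set_option autoImplicit false

namespace Pool.Agent.Z15.MH

open MvPolynomial Matrix Pool.Agent.Z15.ME

theorem t_TDZ (hACT : ME.S_ACT) (_hTRD : ME.S_TRD) : S_TDZ := by
  classical
  intro k r K M _ _ _ _ D Ω _ _ _ _ _ _ F e v he hY hf
  obtain ⟨hBB, hdet, hdiag, -⟩ := F.fr
  have hBB' : F.B' * F.B = 1 := mul_eq_one_comm.1 hBB
  let w : Fin 10 ⊕ (Fin (Nat.card (J2 2 (3 * k))) ⊕ Fin r) → M := Sum.elim e (Sum.elim v D.Z)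
  let z : (Fin 10 ⊕ (Fin (Nat.card (J2 2 (3 * k))) ⊕ Fin r)) ⊕ (Fin 3 × Fin 3) → Ω :=
    Sum.elim (fun i => algebraMap M Ω (w i)) (fun p => F.B p.1 p.2)
  let L : IntermediateField K Ω := IntermediateField.adjoin K (Set.range z)
  let A : IntermediateField L Ω := algebraicClosure L Ω
  have hLA : ∀ x ∈ L, x ∈ A := fun x hx =>
    mem_algebraicClosure_iff.2 (isAlgebraic_algebraMap (⟨x, hx⟩ : L))
  have hwL : ∀ i, algebraMap M Ω (w i) ∈ L := fun i =>
    IntermediateField.subset_adjoin K _ ⟨Sum.inl i, rfl⟩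
  have hBL : ∀ i j, F.B i j ∈ L := fun i j =>
    IntermediateField.subset_adjoin K _ ⟨Sum.inr (i, j), rfl⟩
  have hAK : ∀ (S : Set Ω), (∀ x ∈ S, x ∈ A) → ∀ x ∈ IntermediateField.adjoin K S, x ∈ A := by
    intro S hS x hx
    have h1 : IntermediateField.adjoin K S ≤ A.restrictScalars K :=
      IntermediateField.adjoin_le_iff.2 hS
    exact h1 hx
  -- the roots
  have hcoef : ∀ i, algebraMap M Ω (D.X.charpoly.coeff i) ∈ L := by
    intro i
    have h1 : (IntermediateField.adjoin K (Set.range e)).map (IsScalarTower.toAlgHom K M Ω) ≤ L := by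
      rw [IntermediateField.adjoin_map, IntermediateField.adjoin_le_iff]
      rintro _ ⟨_, ⟨i, rfl⟩, rfl⟩
      exact hwL (Sum.inl i)
    exact h1 ⟨_, he i, rfl⟩
  have hl : ∀ i, F.l i ∈ A := by
    intro i
    have h1 : (D.X.charpoly.map (algebraMap M Ω)) ∈ Polynomial.lifts (algebraMap L Ω) := by
      rw [Polynomial.lifts_iff_coeff_lifts]
      intro n
      rw [Polynomial.coeff_map]
      exact ⟨⟨_, hcoef n⟩, rfl⟩
    obtain ⟨q, hq⟩ := (Polynomial.mem_lifts _).1 h1
    have hq0 : q ≠ 0 := by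
      rintro rfl
      rw [Polynomial.map_zero] at hq
      exact (D.X.charpoly_monic.map (algebraMap M Ω)).ne_zero hq.symm
    refine mem_algebraicClosure_iff.2 ⟨q, hq0, ?_⟩
    have h2 : D.X.charpoly.map (algebraMap M Ω) = ∏ i, (Polynomial.X - Polynomial.C (F.l i)) := F.hl
    rw [Polynomial.aeval_def, ← Polynomial.eval_map, hq, h2, Polynomial.eval_prod]
    exact Finset.prod_eq_zero (Finset.mem_univ i) (by simp)
  have hYA : ∀ i j, F.Yh i j ∈ A := by
    intro i j
    refine hAK _ ?_ _ (hY i j)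
    rintro x (⟨i, rfl⟩ | ⟨i, rfl⟩)
    · exact hLA _ (hwL (Sum.inl i))
    · exact hl i
  have hJA : ∀ x ∈ F.J (K := K), x ∈ A := by
    refine hAK _ ?_
    rintro x (⟨i, rfl⟩ | ⟨p, rfl⟩)
    · exact hl i
    · exact hYA p.1 p.2
  have hfA : ∀ p, F.fh p ∈ A := by
    intro p
    refine Submodule.span_induction (p := fun x _ => x ∈ A) ?_ (zero_mem A)
      (fun x y _ _ hx hy => add_mem hx hy) ?_ (hf p)
    · rintro _ ⟨i, rfl⟩
      exact hLA _ (hwL (Sum.inr (Sum.inl i)))
    · rintro a x _ hx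
      rw [Algebra.smul_def]
      exact mul_mem (hJA _ a.2) hx
  -- the matrices
  have hmul : ∀ P Q : Matrix (Fin 3) (Fin 3) Ω, (∀ i j, P i j ∈ A) → (∀ i j, Q i j ∈ A) →
      ∀ i j, (P * Q) i j ∈ A := by
    intro P Q hP hQ i j
    rw [Matrix.mul_apply]
    exact sum_mem fun _ _ => mul_mem (hP _ _) (hQ _ _)
  have hBA : ∀ i j, F.B i j ∈ A := fun i j => hLA _ (hBL i j)
  let B₀ : Matrix (Fin 3) (Fin 3) A := Matrix.of fun i j => ⟨F.B i j, hBA i j⟩
  have hB₀ : B₀.map A.val.toRingHom = F.B := by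
    ext i j
    rfl
  have hdet0 : B₀.det ≠ 0 := by
    intro h0
    have h1 : F.B.det = A.val.toRingHom B₀.det := by
      rw [← hB₀]
      exact (RingHom.map_det A.val.toRingHom B₀).symm
    rw [h0, map_zero] at h1
    have h2 := congrArg Matrix.det hBB
    rw [Matrix.det_mul, h1, zero_mul, Matrix.det_one] at h2
    exact zero_ne_one h2
  have hinv : B₀ * B₀⁻¹ = 1 := Matrix.mul_nonsing_inv _ (Ne.isUnit hdet0)
  have hB' : F.B' = (B₀⁻¹).map A.val.toRingHom := by
    have h1 := congrArg (fun P : Matrix (Fin 3) (Fin 3) A => P.map A.val.toRingHom) hinv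
    simp only [Matrix.map_mul] at h1
    rw [hB₀, Matrix.map_one _ (map_zero _) (map_one _)] at h1
    calc F.B' = F.B' * (F.B * (B₀⁻¹).map A.val.toRingHom) := by rw [h1, mul_one]
      _ = (B₀⁻¹).map A.val.toRingHom := by rw [← mul_assoc, hBB', one_mul]
  have hB'A : ∀ i j, F.B' i j ∈ A := by
    intro i j
    rw [hB']
    exact (B₀⁻¹ i j).2
  -- the self map
  obtain ⟨-, -, -, -, -, -, hcomp, hone, -, -, hnat⟩ := hACT 3 (3 * k + 1) Ω
  have hnatA := (hACT 3 (3 * k + 1) A).2.2.2.2.2.2.2.2.2.2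
  have hfM : ∀ p, algebraMap M Ω (D.f p) ∈ A := by
    have h1 : act F.B F.B' F.fh = fun p => algebraMap M Ω (D.f p) := by
      unfold FZ.fh
      rw [hcomp, hBB, hone]
    intro p
    have h2 : algebraMap M Ω (D.f p) = act F.B F.B' F.fh p := by rw [h1]
    rw [h2]
    have h3 := hnatA Ω A.val.toRingHom B₀ (B₀⁻¹) (fun p => (⟨F.fh p, hfA p⟩ : A))
    rw [hB₀, ← hB'] at h3
    have h4 : (fun p => A.val.toRingHom ((fun p => (⟨F.fh p, hfA p⟩ : A)) p)) = F.fh := rfl
    rw [h4] at h3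
    rw [h3]
    exact (act B₀ (B₀⁻¹) (fun p => (⟨F.fh p, hfA p⟩ : A)) p).2
  have hXM : ∀ i j, algebraMap M Ω (D.X i j) ∈ A := by
    have h1 : D.X.map (algebraMap M Ω) = F.B * Matrix.diagonal F.l * F.B' := by
      rw [← hdiag]
      calc D.X.map (algebraMap M Ω) = 1 * D.X.map (algebraMap M Ω) * 1 := by rw [one_mul, mul_one]
        _ = (F.B * F.B') * D.X.map (algebraMap M Ω) * (F.B * F.B') := by rw [hBB]
        _ = F.B * (F.B' * D.X.map (algebraMap M Ω) * F.B) * F.B' := by
            simp only [mul_assoc]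
    intro i j
    have h2 : algebraMap M Ω (D.X i j) = (F.B * Matrix.diagonal F.l * F.B') i j := by
      rw [← h1]
      rfl
    rw [h2]
    refine hmul _ _ (hmul _ _ hBA ?_) hB'A i j
    intro i j
    rw [Matrix.diagonal_apply]
    split_ifs
    · exact hl i
    · exact zero_mem A
  have hYM : ∀ i j, algebraMap M Ω (D.Y i j) ∈ A := by
    have h1 : D.Y.map (algebraMap M Ω) = F.B * F.Yh * F.B' := by
      unfold FZ.Yh
      calc D.Y.map (algebraMap M Ω) = 1 * D.Y.map (algebraMap M Ω) * 1 := by rw [one_mul, mul_one]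
        _ = (F.B * F.B') * D.Y.map (algebraMap M Ω) * (F.B * F.B') := by rw [hBB]
        _ = F.B * (F.B' * D.Y.map (algebraMap M Ω) * F.B) * F.B' := by
            simp only [mul_assoc]
    intro i j
    have h2 : algebraMap M Ω (D.Y i j) = (F.B * F.Yh * F.B') i j := by
      rw [← h1]
      rfl
    rw [h2]
    exact hmul _ _ (hmul _ _ hBA hYA) hB'A i j
  have hHM : algebraMap M Ω D.H ∈ A := by
    rw [← hdet, Matrix.det_apply]
    refine pow_mem (sum_mem fun σ _ => ?_) k
    rw [Units.smul_def, zsmul_eq_mul]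
    exact mul_mem (intCast_mem _ _) (prod_mem fun i _ => hBA _ _)
  -- everything is algebraic
  have hM : ∀ m : M, algebraMap M Ω m ∈ A := by
    intro m
    have h1 : m ∈ IntermediateField.adjoin K (Set.range (coo D.f D.X D.Y D.H D.Z)) := by
      rw [D.gen]
      trivial
    have h2 : (IntermediateField.adjoin K (Set.range (coo D.f D.X D.Y D.H D.Z))).map
        (IsScalarTower.toAlgHom K M Ω) ≤ A.restrictScalars K := by
      rw [IntermediateField.adjoin_map, IntermediateField.adjoin_le_iff]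
      rintro _ ⟨_, ⟨i, rfl⟩, rfl⟩
      rcases i with i | i | i | i | i
      · exact hfM i.1
      · exact hXM i.1 i.2
      · exact hYM i.1 i.2
      · exact hHM
      · exact hLA _ (hwL (Sum.inr (Sum.inr i)))
    exact h2 ⟨_, h1, rfl⟩
  have halgA : Algebra.IsAlgebraic A Ω := by
    refine ⟨fun ω => ?_⟩
    obtain ⟨p, hp0, hp⟩ := Algebra.IsAlgebraic.isAlgebraic (R := M) ω
    let θ : M →+* A := (algebraMap M Ω).codRestrict A hM
    have hθ : (algebraMap A Ω).comp θ = algebraMap M Ω := by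
      ext m
      rfl
    refine ⟨p.map θ, ?_, ?_⟩
    · rw [Ne, Polynomial.map_eq_zero_iff θ.injective]
      exact hp0
    · rw [Polynomial.aeval_def, Polynomial.eval₂_map, hθ]
      exact hp
  have halg : Algebra.IsAlgebraic L Ω := Algebra.IsAlgebraic.trans L A Ω
  have halg' : Algebra.IsAlgebraic (Algebra.adjoin K (Set.range z)) Ω :=
    IntermediateField.isAlgebraic_adjoin_iff_top.1 halg
  have hinj : Function.Injective (IsScalarTower.toAlgHom K M Ω) := (algebraMap M Ω).injective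
  have hind := D.ind.map' hinj
  have hz := Algebra.IsAlgebraic.isTranscendenceBasis_of_le_trdeg_of_finite K z (by
    refine le_trans ?_ hind.cardinalMk_le_trdeg
    rw [← Nat.cast_card, ← Nat.cast_card]
    refine le_of_eq ?_
    congr 1
    simp only [Nat.card_sum, Nat.card_prod, Nat.card_fin, Nat.card_unique]
    ring)
  have h1 := hz.1.comp Sum.inl Sum.inl_injective
  exact AlgebraicIndependent.of_comp (IsScalarTower.toAlgHom K M Ω) h1

end Pool.Agent.Z15.MH
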