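import Pool.Agent.Z15.ME.All
import Pool.Agent.Z15.ME.T_PLY
import Pool.Agent.Z15.MH.Main4
import Pool.Agent.Z15.MH.T_AIZ
import Pool.Agent.Z15.MH.T_COF
import Pool.Agent.Z15.MH.T_DES
import Pool.Agent.Z15.MH.T_EXF
import Pool.Agent.Z15.MH.T_EXT
import Pool.Agent.Z15.MH.T_FIA
import Pool.Agent.Z15.MH.T_FIZ
import Pool.Agent.Z15.MH.T_FMA
import Pool.Agent.Z15.MH.T_FMK
import Pool.Agent.Z15.MH.T_FRZ
import Pool.Agent.Z15.MH.T_GEZ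
import Pool.Agent.Z15.MH.T_GLX
import Pool.Agent.Z15.MH.T_IN6
import Pool.Agent.Z15.MH.T_INZ
import Pool.Agent.Z15.MH.T_IRD
import Pool.Agent.Z15.MH.T_LAD
import Pool.Agent.Z15.MH.T_MEM
import Pool.Agent.Z15.MH.T_NOR
import Pool.Agent.Z15.MH.T_PRM
import Pool.Agent.Z15.MH.T_RAZ
import Pool.Agent.Z15.MH.T_ROT
import Pool.Agent.Z15.MH.T_SIX
import Pool.Agent.Z15.MH.T_SLG
import Pool.Agent.Z15.MH.T_SPJ
import Pool.Agent.Z15.MH.T_SPX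
import Pool.Agent.Z15.MH.T_TDZ

set_option autoImplicit false

namespace Pool.Agent.Z15.MH

open Pool.Agent.Z15

theorem pGLX : S_GLX := t_GLX ME.pACT ME.pSTB ME.GAL.t_GAL
theorem pSPX : S_SPX := t_SPX ME.pACT ME.pDVA ME.pDOM ME.pAUT pGLX (ME.SPN.t_SPN ME.TRC.t_TRC)
theorem pAIZ : S_AIZ := t_AIZ ME.pPOL ME.pACT ME.pDVA ME.pEMB ME.pSEC ME.pCRD ME.pTRD
theorem pFIA : S_FIA := t_FIA pSPX t_SLG pAIZ ME.pACT ME.pDVA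
theorem pFIZ : S_FIZ := t_FIZ pFIA pAIZ ME.t_AIL ME.pSEC ME.pDVA ME.pEMB ME.pACT
theorem pSIX : S_SIX := t_SIX t_IRD t_IN6 t_PRM
theorem pFRZ : S_FRZ := t_FRZ ME.t_AIL
theorem pEXF : S_EXF := t_EXF pFRZ pSIX
theorem pROT : S_ROT := t_ROT t_NOR pSIX ME.pACT (ME.PLY.t_PLY ME.pACT)
theorem pMEM : S_MEM := t_MEM pROT ME.GAL.t_GAL
theorem pEXT : S_EXT := t_EXT t_NOR pSIX ME.pACT
theorem pFMA : S_FMA := t_FMA pROT pEXT ME.GAL.t_GAL pSIX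
theorem pFMK : S_FMK := t_FMK pFMA pSIX pEXT
theorem pDES : S_DES := t_DES pMEM t_SPJ pEXT pSIX t_COF pROT pFMK t_LAD ME.pACT ME.pDVA ME.pSEC
theorem pINZ : S_INZ := t_INZ ME.pACT ME.DEN.t_DEN
theorem pTDZ : S_TDZ := t_TDZ ME.pACT ME.pTRD
theorem pGEZ : S_GEZ := t_GEZ pEXF pINZ pDES pFMK t_SPJ pSIX pTDZ
theorem pRAZ : S_RAZ := t_RAZ pGEZ

end Pool.Agent.Z15.MH
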