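import Mathlib

/-!
# Project MH: task FMK, converse half (abstract)
-/

set_option autoImplicit false

namespace Pool.Agent.Z15.MH.FMKb

/-- Vandermonde for three points -/
theorem vand {K Ω : Type} [Field K] [Field Ω] [Algebra K Ω] (E : IntermediateField K Ω)
    (a b c x y z : Ω) (ha : a ∈ E) (hb : b ∈ E) (hc : c ∈ E) (hab : a ≠ b) (hac : a ≠ c)
    (h0 : x + y + z ∈ E) (h1 : a * x + b * y + c * z ∈ E)
    (h2 : a ^ 2 * x + b ^ 2 * y + c ^ 2 * z ∈ E) : x ∈ E := by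
  have e : x = ((a ^ 2 * x + b ^ 2 * y + c ^ 2 * z) - (b + c) * (a * x + b * y + c * z) +
      b * c * (x + y + z)) / ((a - b) * (a - c)) := by
    have h3 : (a - b) * (a - c) ≠ 0 := mul_ne_zero (sub_ne_zero.2 hab) (sub_ne_zero.2 hac)
    rw [eq_div_iff h3]
    ring
  rw [e]
  exact E.div_mem (E.add_mem (E.sub_mem h2 (E.mul_mem (E.add_mem hb hc) h1))
    (E.mul_mem (E.mul_mem hb hc) h0)) (E.mul_mem (E.sub_mem ha hb) (E.sub_mem ha hc))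

theorem yh_mem {K Ω : Type} [Field K] [Field Ω] [CharZero Ω] [Algebra K Ω] (E : IntermediateField K Ω)
    (l : Fin 3 → Ω) (y : Matrix (Fin 3) (Fin 3) Ω) (hl : ∀ i, l i ∈ E) (hd : ∀ i j, i ≠ j → l i ≠ l j)
    (h1 : y 1 0 = 1) (h2 : y 2 0 = 1) (hn : ∀ i j, i ≠ j → y i j ≠ 0)
    (ht : ∀ a : Fin 3, ∑ i, l i ^ (a : ℕ) * y i i ∈ E) (U : Fin 3 → Ω) (W : Fin 2 → Ω)
    (hU : ∀ a : Fin 3, U a = l 0 ^ (a : ℕ) * (y 1 2 * y 2 1) + l 1 ^ (a : ℕ) * (y 2 0 * y 0 2) +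
      l 2 ^ (a : ℕ) * (y 0 1 * y 1 0))
    (hW0 : W 0 = y 0 1 * y 1 2 * y 2 0 + y 0 2 * y 2 1 * y 1 0)
    (hW1 : W 1 * ((l 0 - l 1) * (l 1 - l 2) * (l 2 - l 0)) =
      y 0 1 * y 1 2 * y 2 0 - y 0 2 * y 2 1 * y 1 0)
    (hU0 : U 0 ≠ 0) (hU1E : U 1 / U 0 ∈ E) (hU2E : U 2 / U 0 ∈ E) (hW0E : W 0 / U 0 ∈ E)
    (hW1E : W 1 / U 0 ∈ E) : ∀ i j, y i j ∈ E := by
  have d01 := hd 0 1 (by decide)
  have d02 := hd 0 2 (by decide)
  have d12 := hd 1 2 (by decide)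
  have n01 := hn 0 1 (by decide)
  have n02 := hn 0 2 (by decide)
  have n12 := hn 1 2 (by decide)
  have n21 := hn 2 1 (by decide)
  -- the diagonal
  have t0 := ht 0
  have t1 := ht 1
  have t2 := ht 2
  simp only [Fin.sum_univ_three, Fin.val_zero, Fin.val_one, Fin.val_two, pow_zero, pow_one, one_mul]
    at t0 t1 t2
  have y00 : y 0 0 ∈ E := vand E (l 0) (l 1) (l 2) _ _ _ (hl 0) (hl 1) (hl 2) d01 d02 t0 t1 t2
  have y11 : y 1 1 ∈ E := by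
    refine vand E (l 1) (l 0) (l 2) (y 1 1) (y 0 0) (y 2 2) (hl 1) (hl 0) (hl 2) d01.symm d12 ?_ ?_ ?_
    · rwa [add_comm (y 1 1)]
    · rwa [add_comm (l 1 * y 1 1)]
    · rwa [add_comm (l 1 ^ 2 * y 1 1)]
  have y22 : y 2 2 ∈ E := by
    have e : y 2 2 = (y 0 0 + y 1 1 + y 2 2) - y 0 0 - y 1 1 := by ring
    rw [e]
    exact E.sub_mem (E.sub_mem t0 y00) y11
  -- the elements `u i / U 0`
  have u0 := hU 0
  have u1 := hU 1
  have u2 := hU 2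
  simp only [Fin.val_zero, Fin.val_one, Fin.val_two, pow_zero, pow_one, one_mul] at u0 u1 u2
  obtain ⟨v, hv⟩ : ∃ v, v = U 0 := ⟨_, rfl⟩
  rw [← hv] at u0 hU0 hU1E hU2E hW0E hW1E
  have a0 : (y 1 2 * y 2 1) / v + (y 2 0 * y 0 2) / v + (y 0 1 * y 1 0) / v ∈ E := by
    have e : (y 1 2 * y 2 1) / v + (y 2 0 * y 0 2) / v + (y 0 1 * y 1 0) / v = 1 := by
      rw [← add_div, ← add_div, ← u0, div_self hU0]
    rw [e]
    exact E.one_mem
  have a1 : l 0 * ((y 1 2 * y 2 1) / v) + l 1 * ((y 2 0 * y 0 2) / v) + l 2 * ((y 0 1 * y 1 0) / v) ∈ E := by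
    have e : l 0 * ((y 1 2 * y 2 1) / v) + l 1 * ((y 2 0 * y 0 2) / v) + l 2 * ((y 0 1 * y 1 0) / v) =
        U 1 / v := by
      rw [u1]
      ring
    rw [e]
    exact hU1E
  have a2 : l 0 ^ 2 * ((y 1 2 * y 2 1) / v) + l 1 ^ 2 * ((y 2 0 * y 0 2) / v) +
      l 2 ^ 2 * ((y 0 1 * y 1 0) / v) ∈ E := by
    have e : l 0 ^ 2 * ((y 1 2 * y 2 1) / v) + l 1 ^ 2 * ((y 2 0 * y 0 2) / v) +
        l 2 ^ 2 * ((y 0 1 * y 1 0) / v) = U 2 / v := by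
      rw [u2]
      ring
    rw [e]
    exact hU2E
  have b0 : (y 1 2 * y 2 1) / v ∈ E :=
    vand E (l 0) (l 1) (l 2) _ _ _ (hl 0) (hl 1) (hl 2) d01 d02 a0 a1 a2
  have b1 : (y 2 0 * y 0 2) / v ∈ E := by
    refine vand E (l 1) (l 0) (l 2) ((y 2 0 * y 0 2) / v) ((y 1 2 * y 2 1) / v) ((y 0 1 * y 1 0) / v)
      (hl 1) (hl 0) (hl 2) d01.symm d12 ?_ ?_ ?_
    · rwa [add_comm ((y 2 0 * y 0 2) / v)]
    · rwa [add_comm (l 1 * ((y 2 0 * y 0 2) / v))]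
    · rwa [add_comm (l 1 ^ 2 * ((y 2 0 * y 0 2) / v))]
  have b2 : (y 0 1 * y 1 0) / v ∈ E := by
    have e : (y 0 1 * y 1 0) / v = ((y 1 2 * y 2 1) / v + (y 2 0 * y 0 2) / v + (y 0 1 * y 1 0) / v) -
        (y 1 2 * y 2 1) / v - (y 2 0 * y 0 2) / v := by ring
    rw [e]
    exact E.sub_mem (E.sub_mem a0 b0) b1
  rw [h2, one_mul] at b1
  rw [h1, mul_one] at b2
  -- the cycles
  rw [h1, h2, mul_one, mul_one] at hW0 hW1
  have hδ : (l 0 - l 1) * (l 1 - l 2) * (l 2 - l 0) ∈ E :=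
    E.mul_mem (E.mul_mem (E.sub_mem (hl 0) (hl 1)) (E.sub_mem (hl 1) (hl 2))) (E.sub_mem (hl 2) (hl 0))
  have h2E : (2 : Ω) ∈ E := by
    have : (2 : Ω) = 1 + 1 := by norm_num
    rw [this]
    exact E.add_mem E.one_mem E.one_mem
  have c1 : (y 0 1 * y 1 2) / v ∈ E := by
    have e : (y 0 1 * y 1 2) / v = (W 0 / v + W 1 / v * ((l 0 - l 1) * (l 1 - l 2) * (l 2 - l 0))) / 2 := by
      have e1 : W 1 / v * ((l 0 - l 1) * (l 1 - l 2) * (l 2 - l 0)) =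
          (W 1 * ((l 0 - l 1) * (l 1 - l 2) * (l 2 - l 0))) / v := by ring
      rw [e1, hW1, hW0]
      ring
    rw [e]
    exact E.div_mem (E.add_mem hW0E (E.mul_mem hW1E hδ)) h2E
  have c2 : (y 0 2 * y 2 1) / v ∈ E := by
    have e : (y 0 2 * y 2 1) / v = (W 0 / v - W 1 / v * ((l 0 - l 1) * (l 1 - l 2) * (l 2 - l 0))) / 2 := by
      have e1 : W 1 / v * ((l 0 - l 1) * (l 1 - l 2) * (l 2 - l 0)) =
          (W 1 * ((l 0 - l 1) * (l 1 - l 2) * (l 2 - l 0))) / v := by ring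
      rw [e1, hW1, hW0]
      ring
    rw [e]
    exact E.div_mem (E.sub_mem hW0E (E.mul_mem hW1E hδ)) h2E
  have hv0 : v ∈ E := by
    have e : v = ((y 0 1 * y 1 2) / v * ((y 0 2 * y 2 1) / v)) /
        ((y 1 2 * y 2 1) / v * (y 0 2 / v) * (y 0 1 / v)) := by
      field_simp
    rw [e]
    exact E.div_mem (E.mul_mem c1 c2) (E.mul_mem (E.mul_mem b0 b1) b2)
  have y01 : y 0 1 ∈ E := by
    have e : y 0 1 = y 0 1 / v * v := by field_simp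
    rw [e]
    exact E.mul_mem b2 hv0
  have y02 : y 0 2 ∈ E := by
    have e : y 0 2 = y 0 2 / v * v := by field_simp
    rw [e]
    exact E.mul_mem b1 hv0
  have y12 : y 1 2 ∈ E := by
    have e : y 1 2 = (y 0 1 * y 1 2) / v * v / y 0 1 := by field_simp
    rw [e]
    exact E.div_mem (E.mul_mem c1 hv0) y01
  have y21 : y 2 1 ∈ E := by
    have e : y 2 1 = (y 0 2 * y 2 1) / v * v / y 0 2 := by field_simp
    rw [e]
    exact E.div_mem (E.mul_mem c2 hv0) y02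
  intro i j
  fin_cases i <;> fin_cases j
  · exact y00
  · exact y01
  · exact y02
  · show y 1 0 ∈ E
    rw [h1]
    exact E.one_mem
  · exact y11
  · exact y12
  · show y 2 0 ∈ E
    rw [h2]
    exact E.one_mem
  · exact y21
  · exact y22

end Pool.Agent.Z15.MH.FMKb
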