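import Pool.Agent.Z15.MH.Stm

/-!
# Project MH (helper15), task GEZ: generators of the field of invariants
-/

set_option autoImplicit false

namespace Pool.Agent.Z15.MH

open MvPolynomial Matrix Pool.Agent.Z15.ME

theorem t_GEZ (hEXF : S_EXF) (hINZ : S_INZ) (hDES : S_DES) (hFMK : S_FMK) (hSPJ : S_SPJ)
    (hSIX : S_SIX) (hTDZ : S_TDZ) : S_GEZ := by
  intro k r K M _ _ _ _ D
  obtain ⟨F⟩ := hEXF k r K M D (AlgebraicClosure M)
  obtain ⟨e, he1, he2, he3, he4⟩ := hFMK k r K M D (AlgebraicClosure M) F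
  obtain ⟨v, hv1, hv2⟩ := hDES k r K M D (AlgebraicClosure M) F
  obtain ⟨hmu, -, -⟩ := hSIX k r K M D (AlgebraicClosure M) F.l F.hl
  refine ⟨e, v, he1, hv1, fun x hx => ?_,
    hTDZ k r K M D (AlgebraicClosure M) F e v he2 he4 hv2⟩
  have h1 := hINZ k r K M D (AlgebraicClosure M) F x hx
  obtain ⟨N, hN⟩ : ∃ N : IntermediateField K M,
      N = IntermediateField.adjoin K (Set.range e ∪ Set.range v ∪ Set.range D.Z) := ⟨_, rfl⟩
  have heN : ∀ i, e i ∈ N := fun i => by
    rw [hN]
    exact IntermediateField.subset_adjoin K _ (Or.inl (Or.inl ⟨i, rfl⟩))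
  have hvN : ∀ i, v i ∈ N := fun i => by
    rw [hN]
    exact IntermediateField.subset_adjoin K _ (Or.inl (Or.inr ⟨i, rfl⟩))
  have hZN : ∀ i, D.Z i ∈ N := fun i => by
    rw [hN]
    exact IntermediateField.subset_adjoin K _ (Or.inr ⟨i, rfl⟩)
  have hcN : ∀ i, D.X.charpoly.coeff i ∈ N := fun i => by
    have h2 : IntermediateField.adjoin K (Set.range e) ≤ N := by
      rw [IntermediateField.adjoin_le_iff]
      rintro _ ⟨j, rfl⟩
      exact heN j
    exact h2 (he2 i)
  obtain ⟨NL, hNL⟩ : ∃ NL : IntermediateField K (AlgebraicClosure M),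
      NL = IntermediateField.adjoin K
        (algebraMap M (AlgebraicClosure M) '' (N : Set M) ∪ Set.range F.l) := ⟨_, rfl⟩
  have hl : ∀ i, F.l i ∈ NL := fun i => by
    rw [hNL]
    exact IntermediateField.subset_adjoin K _ (Or.inr ⟨i, rfl⟩)
  have hm : ∀ y ∈ N, algebraMap M (AlgebraicClosure M) y ∈ NL := fun y hy => by
    rw [hNL]
    exact IntermediateField.subset_adjoin K _ (Or.inl ⟨y, hy, rfl⟩)
  have hY : ∀ i j, F.Yh i j ∈ NL := fun i j => by
    have h2 : IntermediateField.adjoin K ((Set.range fun i =>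
        algebraMap M (AlgebraicClosure M) (e i)) ∪ Set.range F.l) ≤ NL := by
      rw [IntermediateField.adjoin_le_iff]
      rintro _ (⟨j, rfl⟩ | ⟨j, rfl⟩)
      · exact hm _ (heN j)
      · exact hl j
    exact h2 (he4 i j)
  have hJ : F.J (K := K) ≤ NL := by
    unfold FZ.J
    rw [IntermediateField.adjoin_le_iff]
    rintro _ (⟨j, rfl⟩ | ⟨j, rfl⟩)
    · exact hl j
    · exact hY _ _
  have hf : ∀ p, F.fh p ∈ NL := by
    intro p
    have h2 : ∀ y ∈ Submodule.span (F.J (K := K))
        (Set.range fun i => algebraMap M (AlgebraicClosure M) (v i)), y ∈ NL := by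
      intro y hy
      induction hy using Submodule.span_induction with
      | mem y hy =>
        obtain ⟨i, rfl⟩ := hy
        exact hm _ (hvN i)
      | zero => exact zero_mem _
      | add y z _ _ hy hz => exact add_mem hy hz
      | smul a y _ hy =>
        have h3 : a • y = (a : AlgebraicClosure M) * y := rfl
        rw [h3]
        exact mul_mem (hJ a.2) hy
    exact h2 _ (hv2 p)
  have h3 : algebraMap M (AlgebraicClosure M) x ∈ NL := by
    refine (?_ : IntermediateField.adjoin K _ ≤ NL) h1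
    rw [IntermediateField.adjoin_le_iff]
    rintro _ (((⟨j, rfl⟩ | ⟨j, rfl⟩) | ⟨j, rfl⟩) | ⟨j, rfl⟩)
    · exact hl j
    · exact hY _ _
    · exact hf j
    · exact hm _ (hZN j)
  rw [hNL] at h3
  obtain ⟨n, hn⟩ := hSPJ K M (AlgebraicClosure M) D.X.charpoly F.l F.hl N hcN _ h3
  have h4 : ∑ a, ((if a = ((0, 0) : Fin 3 × Fin 2) then x else 0) - (n a : M)) • mu F.l a = 0 := by
    have h5 : ∀ a, ((if a = ((0, 0) : Fin 3 × Fin 2) then x else 0) - (n a : M)) • mu F.l a =
        (if a = ((0, 0) : Fin 3 × Fin 2) then algebraMap M (AlgebraicClosure M) x else 0) -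
          algebraMap M (AlgebraicClosure M) (n a) * mu F.l a := by
      intro a
      rw [sub_smul, Algebra.smul_def, Algebra.smul_def]
      congr 1
      split_ifs with ha
      · rw [ha]
        simp [mu]
      · rw [map_zero, zero_mul]
    simp only [h5]
    rw [Finset.sum_sub_distrib, ← hn, Finset.sum_ite_eq' Finset.univ, if_pos (Finset.mem_univ _),
      sub_self]
  have h5 := Fintype.linearIndependent_iff.1 hmu _ h4 (0, 0)
  rw [if_pos rfl, sub_eq_zero] at h5
  rw [← hN, h5]
  exact (n (0, 0)).2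

end Pool.Agent.Z15.MH
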