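import Pool.Agent.Z15.MH.Stm
import Pool.Agent.Z15.ME.T_SPC

set_option autoImplicit false

/-! Project MH (owner helper15), task SPX (helper18): adapted from `ME/SpcA.lean` and `ME/T_SPC.lean`. -/

namespace Pool.Agent.Z15.MH

open MvPolynomial Matrix Pool.Agent.Z15.ME Pool.Agent.Z15.ME.AUT Pool.Agent.Z15.ME.SPC
open scoped Kronecker

namespace SPX

section core

variable {N m : ℕ} {s : Type} [Fintype s] [DecidableEq s] (P : Rp N m s) {K F L : Type} [Field K] [CharZero K] [Field F]
  [Algebra K F] [Field L] [Algebra K L] [Algebra F L] [IsScalarTower K F L]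

theorem inv_map (ψ : L →+* L) (BL BL' : Matrix (Fin (N + 1)) (Fin (N + 1)) L) (hBB : BL * BL' = 1)
    (g : GP N K) (h3 : BL.map ψ = ext L g.1.1 * BL) : BL'.map ψ = BL' * ext L g.1.2 := by
  have h1 : BL.map ψ * BL'.map ψ = 1 := by
    rw [← Matrix.map_mul, hBB, Matrix.map_one _ (map_zero _) (map_one _)]
  have h2 : (BL' * ext L g.1.2) * BL.map ψ = 1 := by
    rw [h3, Matrix.mul_assoc, ← Matrix.mul_assoc (ext L g.1.2), ext_inv, Matrix.one_mul]
    exact mul_eq_one_comm.1 hBB
  calc BL'.map ψ = 1 * BL'.map ψ := (Matrix.one_mul _).symm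
    _ = (BL' * ext L g.1.2) * BL.map ψ * BL'.map ψ := by rw [h2]
    _ = BL' * ext L g.1.2 := by rw [Matrix.mul_assoc, h1, Matrix.mul_one]

omit [CharZero K] in
theorem ext_mul' {M : Type} [Field M] [Algebra K M] (g : GP N K) : ext M g.1.1 * ext M g.1.2 = 1 := by
  rw [← Matrix.map_mul, g.2, Matrix.map_one _ (map_zero _) (map_one _)]

/-- the transformation of the entries of the representation -/
theorem psi_T (ψ : L →+* L) (BL BL' : Matrix (Fin (N + 1)) (Fin (N + 1)) L) (hBB : BL * BL' = 1)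
    (g : GP N K) (h3 : BL.map ψ = ext L g.1.1 * BL) (i j : s) :
    ψ (P.T L BL BL' i j) = ∑ k, algebraMap F L (P.T F (ext F g.1.1) (ext F g.1.2) i k) * P.T L BL BL' k j := by
  have h1 : ψ (P.T L BL BL' i j) = (P.T L BL BL').map ψ i j := rfl
  rw [h1, ← P.nat L L ψ, h3, inv_map ψ BL BL' hBB g h3, P.mul L _ _ _ _ (ext_mul' g) hBB, Matrix.mul_apply]
  refine Finset.sum_congr rfl fun k _ => ?_
  have h2 : algebraMap F L (P.T F (ext F g.1.1) (ext F g.1.2) i k) =
      (P.T F (ext F g.1.1) (ext F g.1.2)).map (algebraMap F L) i k := rfl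
  rw [h2, ← P.nat F L (algebraMap F L), ext_ext, ext_ext]

theorem det_T (BL BL' : Matrix (Fin (N + 1)) (Fin (N + 1)) L) (hBB : BL * BL' = 1) :
    (P.T L BL BL').det ≠ 0 := by
  have hBB' : BL' * BL = 1 := mul_eq_one_comm.1 hBB
  have h1 := P.mul L BL BL' BL' BL hBB hBB'
  rw [hBB, P.one] at h1
  intro h0
  have h2 := congrArg Matrix.det h1
  rw [Matrix.det_mul, h0, zero_mul, Matrix.det_one] at h2
  exact one_ne_zero h2

theorem core [CharZero F] [FiniteDimensional F L] (hACT : ME.S_ACT) (hSPN : ME.S_SPN) (φ : GP N K → F →ₐ[K] F)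
    (ψ : GP N K → L →+* L)
    (htr : ∀ g x, φ g (Algebra.trace F L x) = Algebra.trace F L (ψ g x)) (E : Subfield L)
    (hE : ∀ g, ∀ e ∈ E, ψ g e = e)
    (BL BL' : Matrix (Fin (N + 1)) (Fin (N + 1)) L) (hBB : BL * BL' = 1)
    (h3 : ∀ g : GP N K, BL.map (ψ g) = ext L g.1.1 * BL)
    (h4 : ∀ (i j : s) (α β : Mon (N + 1) m),
      act1 BL (Pi.single β 1) α * P.T L BL BL' i j ∈ Algebra.adjoin F (E : Set L)) :
    Submodule.span F {c : s → Mon (N + 1) m → F | CovT P φ c} = ⊤ := by
  have hdet : BL.det ≠ 0 := by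
    intro h0
    have h2 := congrArg Matrix.det hBB
    rw [Matrix.det_mul, h0, zero_mul, Matrix.det_one] at h2
    exact zero_ne_one h2
  set b : Matrix (s × Mon (N + 1) m) (s × Mon (N + 1) m) L := fun r i =>
    act1 BL (Pi.single i.2 1) r.2 * P.T L BL BL' i.1 r.1 with hb
  have hbdet : IsUnit b.det := by
    have e1 : b = (P.T L BL BL').transpose ⊗ₖ
        (Matrix.of fun (α β : Mon (N + 1) m) => act1 BL (Pi.single β 1) α) := by
      ext r i
      rw [Matrix.kronecker_apply]
      show act1 BL (Pi.single i.2 1) r.2 * P.T L BL BL' i.1 r.1 =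
        P.T L BL BL' i.1 r.1 * act1 BL (Pi.single i.2 1) r.2
      ring
    rw [e1, Matrix.det_kronecker, isUnit_iff_ne_zero]
    refine mul_ne_zero (pow_ne_zero _ ?_) (pow_ne_zero _ (det_U hACT BL hdet))
    rw [Matrix.det_transpose]
    exact det_T P BL BL' hBB
  have hspan := hSPN F L E (s × Mon (N + 1) m) b hbdet (fun l r => sum_mem fun i _ =>
    mul_mem (Subalgebra.algebraMap_mem _ _) (h4 i.1 r.1 r.2 i.2))
  rw [eq_top_iff]
  have e2 : (⊤ : Submodule F (s → Mon (N + 1) m → F)) =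
      (⊤ : Submodule F (s × Mon (N + 1) m → F)).map
        (LinearEquiv.curry F F s (Mon (N + 1) m)).toLinearMap := by
    rw [Submodule.map_top, LinearEquiv.range]
  rw [e2, ← hspan, Submodule.map_span, Submodule.span_le]
  rintro _ ⟨t, ⟨e, he, ⟨j, α⟩, rfl⟩, rfl⟩
  refine Submodule.subset_span ?_
  show CovT P φ fun i β => Algebra.trace F L (e * b (j, α) (i, β))
  intro g v i
  have h5 := G2 hACT φ ψ htr BL h3 g e (P.T L BL BL' i j) (hE g e he) v α
  have h6 : ∀ k, ∑ β, Algebra.trace F L (e * b (j, α) (k, β)) * v β =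
      Algebra.trace F L (e * (P.T L BL BL' k j) * act1 BL (fun β => algebraMap F L (v β)) α) := fun k =>
    G1 hACT BL e (P.T L BL BL' k j) v α
  show ∑ β, φ g (Algebra.trace F L (e * b (j, α) (i, β))) * act1 (ext F g.1.2) v β =
    ∑ k, P.T F (ext F g.1.1) (ext F g.1.2) i k * ∑ β, Algebra.trace F L (e * b (j, α) (k, β)) * v β
  have h7 : ∑ k, P.T F (ext F g.1.1) (ext F g.1.2) i k *
      ∑ β, Algebra.trace F L (e * b (j, α) (k, β)) * v β =
      ∑ k, P.T F (ext F g.1.1) (ext F g.1.2) i k *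
        Algebra.trace F L (e * (P.T L BL BL' k j) * act1 BL (fun β => algebraMap F L (v β)) α) :=
    Finset.sum_congr rfl fun k _ => by rw [h6 k]
  rw [h7]
  refine h5.trans ?_
  rw [psi_T (F := F) P (ψ g) BL BL' hBB g (h3 g) i j]
  have e3 : e * (∑ k, algebraMap F L (P.T F (ext F g.1.1) (ext F g.1.2) i k) * P.T L BL BL' k j) *
      act1 BL (fun β => algebraMap F L (v β)) α =
      ∑ k, (e * (P.T L BL BL' k j) * act1 BL (fun β => algebraMap F L (v β)) α) *
        algebraMap F L (P.T F (ext F g.1.1) (ext F g.1.2) i k) := by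
    rw [Finset.mul_sum, Finset.sum_mul]
    refine Finset.sum_congr rfl fun k _ => ?_
    ring
  rw [e3, map_sum]
  refine Finset.sum_congr rfl fun k _ => ?_
  rw [tr_mul]
  ring

end core

end SPX

theorem t_SPX (hACT : ME.S_ACT) (hDVA : ME.S_DVA) (hDOM : ME.S_DOM) (hAUT : ME.S_AUT) (hGLX : S_GLX)
    (hSPN : ME.S_SPN) : S_SPX := by
  intro N m s _ _ P hN hm K F _ _ _ _ f hf hgen φ hφ
  have hcz : CharZero F := charZero_of_injective_algebraMap (algebraMap K F).injective
  let Ω : Type := AlgebraicClosure F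
  let fΩ : Ix N m → Ω := fun p => algebraMap F Ω (f p)
  have hfΩ : Gen N m K Ω fΩ := by
    refine ⟨?_, ?_⟩
    · obtain ⟨-, -, h⟩ := hDVA (N + 1) m F
      have h1 := h Ω (algebraMap F Ω) f
      rw [hf.1] at h1
      refine h1.trans ?_
      funext β
      exact map_zero _
    · exact hf.2.map' (f := IsScalarTower.toAlgHom K F Ω) (algebraMap F Ω).injective
  obtain ⟨B, hBdet, hBfix⟩ := hDOM N m hN hm K F Ω f hf
  have hBB : B * B⁻¹ = 1 := Matrix.mul_nonsing_inv _ (isUnit_iff_ne_zero.2 hBdet)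
  set B' : Matrix (Fin (N + 1)) (Fin (N + 1)) Ω := B⁻¹ with hB'
  let L : IntermediateField F Ω := IntermediateField.adjoin F (Set.range fun p : Fin (N + 1) × Fin (N + 1) => B p.1 p.2)
  have hfin : FiniteDimensional F L := IntermediateField.finiteDimensional_adjoin fun x _ =>
    (Algebra.IsAlgebraic.isAlgebraic x).isIntegral
  let Lk : IntermediateField K Ω :=
    IntermediateField.adjoin K (Set.range fΩ ∪ Set.range fun p : Fin (N + 1) × Fin (N + 1) => B p.1 p.2)
  have hBL : ∀ i j, B i j ∈ L := fun i j => IntermediateField.subset_adjoin F _ ⟨(i, j), rfl⟩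
  have hgL : ∀ x ∈ Set.range fΩ ∪ Set.range (fun p : Fin (N + 1) × Fin (N + 1) => B p.1 p.2), x ∈ L := by
    rintro x (⟨p, rfl⟩ | ⟨p, rfl⟩)
    · exact L.algebraMap_mem _
    · exact hBL p.1 p.2
  have hmem : ∀ x : Ω, x ∈ L ↔ x ∈ Lk := by
    intro x
    constructor
    · intro hx
      induction hx using IntermediateField.adjoin_induction with
      | mem x hx => exact IntermediateField.subset_adjoin K _ (Or.inr hx)
      | algebraMap c =>
        exact mem_of_gen f hgen Lk (fun i => IntermediateField.subset_adjoin K _ (Or.inl ⟨i, rfl⟩)) c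
      | add x y _ _ h1 h2 => exact add_mem h1 h2
      | inv x _ h1 => exact inv_mem h1
      | mul x y _ _ h1 h2 => exact mul_mem h1 h2
    · exact fun hx => mem_F L _ hgL hx
  let e : L ≃+* Lk :=
    { toFun := fun x => ⟨x.1, (hmem _).1 x.2⟩
      invFun := fun x => ⟨x.1, (hmem _).2 x.2⟩
      left_inv := fun _ => rfl
      right_inv := fun _ => rfl
      map_mul' := fun _ _ => rfl
      map_add' := fun _ _ => rfl }
  choose ψk hψk using hAUT N m hN hm K Ω fΩ hfΩ B B' hBB hBfix
  let ψ : GP N K → (L ≃+* L) := fun g => e.trans ((ψk g).toRingEquiv.trans e.symm)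
  have hψv : ∀ g (x : L), ((ψ g x : L) : Ω) = ((ψk g (e x) : _) : Ω) := fun g x => rfl
  have hψK : ∀ g (c : K), ψ g (algebraMap K L c) = algebraMap K L c := by
    intro g c
    apply Subtype.ext
    rw [hψv]
    have e1 : e (algebraMap K L c) = algebraMap K Lk c := Subtype.ext rfl
    rw [e1, AlgEquiv.commutes]
    rfl
  have hψF : ∀ g (x : F), ψ g (algebraMap F L x) = algebraMap F L (φ g x) := by
    intro g x
    refine hom_ext f hgen (((ψ g : L ≃+* L) : L →+* L).comp (algebraMap F L))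
      ((algebraMap F L).comp ((φ g : F →ₐ[K] F) : F →+* F)) (fun c => ?_) (fun p => ?_) x
    · show ψ g (algebraMap F L (algebraMap K F c)) = algebraMap F L (φ g (algebraMap K F c))
      rw [AlgHom.commutes, ← IsScalarTower.algebraMap_apply, hψK]
    · show ψ g (algebraMap F L (f p)) = algebraMap F L (φ g (f p))
      apply Subtype.ext
      rw [hψv, hφ g p]
      refine ((hψk g (e (algebraMap F L (f p)))).1 p rfl).trans ?_
      show _ = algebraMap F Ω (act (ext F g.1.1) (ext F g.1.2) f p)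
      rw [act_nat hACT (algebraMap F Ω), ext_ext, ext_ext]
  have hφφ : ∀ (g g' : GP N K), g.1.1 = g'.1.2 → g.1.2 = g'.1.1 → ∀ x, φ g (φ g' x) = x := by
    intro g g' h1 h2 x
    refine hom_ext f hgen (((φ g : F →ₐ[K] F) : F →+* F).comp ((φ g' : F →ₐ[K] F) : F →+* F)) (RingHom.id F)
      (fun c => ?_) (fun p => ?_) x
    · show φ g (φ g' (algebraMap K F c)) = algebraMap K F c
      rw [AlgHom.commutes, AlgHom.commutes]
    · show φ g (φ g' (f p)) = f p
      rw [hφ g' p]
      have h3 := act_nat hACT ((φ g : F →ₐ[K] F) : F →+* F) (ext F g'.1.1) (ext F g'.1.2) f p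
      have h4 : ∀ (M : Matrix (Fin (N + 1)) (Fin (N + 1)) K), (ext F M).map ((φ g : F →ₐ[K] F) : F →+* F) = ext F M := by
        intro M
        ext i j
        exact AlgHom.commutes (φ g) (M i j)
      rw [h4, h4] at h3
      have h5 : (fun p => ((φ g : F →ₐ[K] F) : F →+* F) (f p)) = act (ext F g.1.1) (ext F g.1.2) f := by
        funext p
        exact hφ g p
      rw [h5] at h3
      obtain ⟨-, -, -, -, -, -, hcomp, hact1, -⟩ := hACT (N + 1) (m + 1) F
      rw [hcomp, h1, h2] at h3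
      have h6 : ext F g'.1.1 * ext F g'.1.2 = 1 := by
        rw [← Matrix.map_mul, g'.2, Matrix.map_one _ (map_zero _) (map_one _)]
      rw [h6, hact1] at h3
      exact h3
  have htr : ∀ g (x : L), φ g (Algebra.trace F L x) = Algebra.trace F L (ψ g x) := by
    intro g x
    have hinv : (g.1.2 * g.1.1 : Matrix (Fin (N + 1)) (Fin (N + 1)) K) = 1 := mul_eq_one_comm.1 g.2
    let g' : GP N K := ⟨(g.1.2, g.1.1), hinv⟩
    let e₁ : F ≃+* F :=
      { toFun := φ g
        invFun := φ g'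
        left_inv := hφφ g' g rfl rfl
        right_inv := hφφ g g' rfl rfl
        map_mul' := map_mul _
        map_add' := map_add _ }
    have h1 := Algebra.trace_eq_of_equiv_equiv e₁ (ψ g) (by
      ext y
      exact congrArg Subtype.val (hψF g y).symm) x
    rw [h1]
    exact e₁.apply_symm_apply _
  -- the field of the conjugate map
  have hf0L : ∀ p, act B' B fΩ p ∈ L := fun p => (hmem _).2 (act_mem hACT Lk B' B fΩ
    (inv_mem' Lk B B' (fun i j => (hmem _).1 (hBL i j)) hBB) (fun i j => (hmem _).1 (hBL i j))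
    (fun p => IntermediateField.subset_adjoin K _ (Or.inl ⟨p, rfl⟩)) p)
  let E : Subfield L := (IntermediateField.adjoin K (Set.range (act B' B fΩ))).toSubfield.comap (algebraMap L Ω)
  have hE : ∀ g, ∀ x ∈ E, ψ g x = x := by
    intro g x hx
    refine fixed L ((ψ g : L ≃+* L) : L →+* L) (hψK g) (Set.range (act B' B fΩ)) ?_ ?_ hx x.2
    · rintro _ ⟨p, rfl⟩
      exact hf0L p
    · rintro _ ⟨p, rfl⟩ h
      apply Subtype.ext
      exact (hψk g (e ⟨_, h⟩)).2.1 p rfl
  have hB'L : ∀ i j, B' i j ∈ L := fun i j => (hmem _).2 (inv_mem' Lk B B' (fun i j => (hmem _).1 (hBL i j)) hBB i j)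
  let BL : Matrix (Fin (N + 1)) (Fin (N + 1)) L := fun i j => ⟨B i j, hBL i j⟩
  let BL' : Matrix (Fin (N + 1)) (Fin (N + 1)) L := fun i j => ⟨B' i j, hB'L i j⟩
  have hBLm : BL.map (algebraMap L Ω) = B := rfl
  have hBLm' : BL'.map (algebraMap L Ω) = B' := rfl
  have hBBL : BL * BL' = 1 := by
    apply Matrix.map_injective (algebraMap L Ω).injective
    show (BL * BL').map (algebraMap L Ω) = (1 : Matrix (Fin (N + 1)) (Fin (N + 1)) L).map (algebraMap L Ω)
    rw [Matrix.map_mul, hBLm, hBLm', hBB, Matrix.map_one _ (map_zero _) (map_one _)]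
  have h3 : ∀ g : GP N K, BL.map (ψ g : L →+* L) = ext L g.1.1 * BL := by
    intro g
    ext i j
    have h1 := (hψk g (e ⟨B i j, hBL i j⟩)).2.2 i j rfl
    show ((ψk g (e ⟨B i j, hBL i j⟩) : _) : Ω) = algebraMap L Ω ((ext L g.1.1 * BL) i j)
    rw [h1, Matrix.mul_apply, Matrix.mul_apply, map_sum]
    rfl
  -- the entries
  have halg : Algebra.IsAlgebraic (IntermediateField.adjoin K (Set.range fΩ)) Ω := by
    refine ⟨fun x => ?_⟩
    obtain ⟨P, hP, hPx⟩ := Algebra.IsAlgebraic.isAlgebraic (R := F) x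
    let j : F →+* IntermediateField.adjoin K (Set.range fΩ) :=
      (algebraMap F Ω).codRestrict (IntermediateField.adjoin K (Set.range fΩ))
        (mem_of_gen f hgen _ fun i => IntermediateField.subset_adjoin K _ ⟨i, rfl⟩)
    refine ⟨P.map j, (Polynomial.map_ne_zero_iff j.injective).2 hP, ?_⟩
    rw [Polynomial.aeval_def, Polynomial.eval₂_map]
    exact hPx
  have hU : ∀ α β : Mon (N + 1) m, algebraMap L Ω (act1 BL (Pi.single β 1) α) = act1 B (Pi.single β 1) α := by
    intro α β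
    rw [act1_nat hACT (algebraMap L Ω), single_nat, hBLm]
  have h4 : ∀ (i j : s) (α β : Mon (N + 1) m),
      act1 BL (Pi.single β 1) α * P.T L BL BL' i j ∈ Algebra.adjoin F (E : Set L) := by
    intro i j α β
    have h5 := hGLX N m s P hN hm K Ω fΩ hfΩ halg B B' hBB hBfix i j α β
    have key : ∀ x : L, (x : Ω) ∈ IntermediateField.adjoin K (Set.range fΩ ∪ Set.range (act B' B fΩ)) →
        x ∈ Algebra.adjoin F (E : Set L) := by
      intro x hx
      refine mem_A L (Set.range fΩ) (Set.range (act B' B fΩ)) E ?_ ?_ ?_ hx x.2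
      · rintro _ ⟨p, rfl⟩
        exact ⟨f p, rfl⟩
      · rintro _ ⟨p, rfl⟩ h
        exact IntermediateField.subset_adjoin K _ ⟨p, rfl⟩
      · rintro _ ⟨p, rfl⟩
        exact hf0L p
    apply key
    have e1 : ((act1 BL (Pi.single β 1) α * P.T L BL BL' i j : L) : Ω) =
        act1 B (Pi.single β 1) α * P.T Ω B B' i j := by
      show algebraMap L Ω (act1 BL (Pi.single β 1) α * P.T L BL BL' i j) = _
      have e2 : algebraMap L Ω (P.T L BL BL' i j) = (P.T L BL BL').map (algebraMap L Ω) i j := rfl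
      rw [map_mul, hU, e2, ← P.nat L Ω (algebraMap L Ω), hBLm, hBLm']
    rw [e1]
    exact h5
  exact SPX.core P hACT hSPN φ (fun g => ((ψ g : L ≃+* L) : L →+* L)) htr E hE BL BL' hBBL h3 h4

end Pool.Agent.Z15.MH
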